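import Mathlib
import Pool.Agent.H188R3.MatAlg
import Pool.Agent.H188R3.IndLim2

/-!
Basic definitions: traces on matrix algebras, finite products of matrix algebras.
-/

set_option autoImplicit false

noncomputable section

namespace Pool.Agent.TH249

open Pool.Agent.H188R3

/-- the unnormalised trace on `M_I(ℂ)` -/
def tr {I : Type} [Fintype I] [DecidableEq I] : MA I ℂ →ₗ[ℂ] ℂ where
  toFun x := ∑ i, x.en i i
  map_add' x y := by simp [Finset.sum_add_distrib]
  map_smul' c x := by simp [Finset.mul_sum]

lemma tr_apply {I : Type} [Fintype I] [DecidableEq I] (x : MA I ℂ) : tr x = ∑ i, x.en i i := rfl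

lemma tr_mul_comm {I : Type} [Fintype I] [DecidableEq I] (x y : MA I ℂ) :
    tr (x * y) = tr (y * x) := by
  simp only [tr_apply, MA.en_mul]
  rw [Finset.sum_comm]
  refine Finset.sum_congr rfl fun i _ => Finset.sum_congr rfl fun j _ => ?_
  rw [mul_comm]

/-- the underlying matrix of an element of `M_I(ℂ)` -/
def toMat {I : Type} (x : MA I ℂ) : Matrix I I ℂ := Matrix.of fun i j => x.en i j

/-- the element of `M_I(ℂ)` given by a matrix -/
def ofMat {I : Type} (x : Matrix I I ℂ) : MA I ℂ := MA.of fun i j => x i j

@[simp] lemma toMat_ofMat {I : Type} (x : Matrix I I ℂ) : toMat (ofMat x) = x := rfl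
@[simp] lemma ofMat_toMat {I : Type} (x : MA I ℂ) : ofMat (toMat x) = x := rfl

/-- finite products of full matrix algebras with block sizes `d j` -/
abbrev FA {J : Type} (d : J → ℕ) : Type := ∀ j, MA (Fin (d j)) ℂ

end Pool.Agent.TH249
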