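import Mathlib

/-!
Job 417 (BL-JA, for MP_9b0829_an): two facts on complex matrices.
-/

set_option autoImplicit false

noncomputable section

namespace Pool.Agent.TH249.JA

open Matrix

theorem spec {I : Type} [Fintype I] [DecidableEq I] (A : Matrix I I ℂ) (hA : star A = A) :
    ∃ (U : Matrix I I ℂ) (a : I → ℝ), star U * U = 1 ∧ U * star U = 1 ∧
      A = U * diagonal (fun i => (a i : ℂ)) * star U := by
  have hH : A.IsHermitian := hA
  refine ⟨hH.eigenvectorUnitary, hH.eigenvalues, ?_, ?_, ?_⟩
  · exact Unitary.coe_star_mul_self hH.eigenvectorUnitary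
  · exact Unitary.coe_mul_star_self hH.eigenvectorUnitary
  · conv_lhs => rw [hH.spectral_theorem]
    rw [Unitary.conjStarAlgAut_apply]
    rfl

theorem spec_proj {I : Type} [Fintype I] [DecidableEq I] (p : Matrix I I ℂ)
    (hp : IsStarProjection p) :
    ∃ (U : Matrix I I ℂ) (a : I → ℝ), star U * U = 1 ∧ U * star U = 1 ∧
      (∀ i, a i = 0 ∨ a i = 1) ∧ p = U * diagonal (fun i => (a i : ℂ)) * star U := by
  obtain ⟨U, a, h1, h2, h3⟩ := spec p hp.isSelfAdjoint
  refine ⟨U, a, h1, h2, fun i => ?_, h3⟩
  have h4 : p * p = p := hp.isIdempotentElem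
  have h5 : star U * p * U = diagonal (fun i => (a i : ℂ)) := by
    rw [h3]
    calc star U * (U * diagonal (fun i => (a i : ℂ)) * star U) * U
        = (star U * U) * diagonal (fun i => (a i : ℂ)) * (star U * U) := by
          simp only [Matrix.mul_assoc]
      _ = _ := by rw [h1, Matrix.one_mul, Matrix.mul_one]
  have h6 : diagonal (fun i => (a i : ℂ)) * diagonal (fun i => (a i : ℂ)) =
      diagonal (fun i => (a i : ℂ)) := by
    rw [← h5]
    calc star U * p * U * (star U * p * U) = star U * p * (U * star U) * p * U := by
          simp only [Matrix.mul_assoc]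
      _ = star U * (p * p) * U := by rw [h2, Matrix.mul_one]; simp only [Matrix.mul_assoc]
      _ = _ := by rw [h4]
  rw [diagonal_mul_diagonal] at h6
  have h7 := congrFun (congrFun h6 i) i
  rw [diagonal_apply_eq, diagonal_apply_eq] at h7
  have h8 : a i * a i = a i := by exact_mod_cast h7
  have h9 : a i * (a i - 1) = 0 := by linarith
  rcases mul_eq_zero.1 h9 with h | h
  · exact Or.inl h
  · exact Or.inr (by linarith)

theorem trace_spec {I : Type} [Fintype I] [DecidableEq I] (U : Matrix I I ℂ) (a : I → ℂ)
    (h : star U * U = 1) : (U * diagonal a * star U).trace = ∑ i, a i := by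
  rw [Matrix.trace_mul_comm, ← Matrix.mul_assoc, h, Matrix.one_mul, trace_diagonal]

theorem card_one {I : Type} [Fintype I] (a : I → ℝ) (ha : ∀ i, a i = 0 ∨ a i = 1) :
    ∑ i, a i = (Fintype.card {i // a i = 1} : ℝ) := by
  classical
  rw [Fintype.card_subtype]
  have : ∀ i, a i = if a i = 1 then 1 else 0 := by
    intro i
    rcases ha i with h | h
    · rw [if_neg (by rw [h]; norm_num)]; exact h
    · rw [if_pos h]; exact h
  rw [Finset.sum_congr rfl (fun i _ => this i), Finset.sum_boole]

/-- projections of equal trace are Murray-von Neumann equivalent -/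
theorem rk {I : Type} [Fintype I] [DecidableEq I] (p q : Matrix I I ℂ)
    (hp : IsStarProjection p) (hq : IsStarProjection q) (h : p.trace = q.trace) :
    ∃ v : Matrix I I ℂ, star v * v = p ∧ v * star v = q := by
  obtain ⟨U, a, hU, hU', ha, hpU⟩ := spec_proj p hp
  obtain ⟨W, b, hW, hW', hb, hqW⟩ := spec_proj q hq
  have hsum : ∑ i, a i = ∑ i, b i := by
    rw [hpU, hqW, trace_spec U _ hU, trace_spec W _ hW] at h
    exact_mod_cast h
  have hcard : Fintype.card {i // a i = 1} = Fintype.card {i // b i = 1} := by
    rw [card_one a ha, card_one b hb] at hsum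
    exact_mod_cast hsum
  set σ : Equiv.Perm I := (Fintype.equivOfCardEq hcard).extendSubtype with hσ
  have hσb : ∀ i, b (σ i) = a i := by
    intro i
    rcases ha i with h0 | h1
    · have h2 : ¬ b (σ i) = 1 :=
        Equiv.extendSubtype_not_mem (p := fun i => a i = 1) (q := fun i => b i = 1)
          (Fintype.equivOfCardEq hcard) i (by rw [h0]; norm_num)
      rcases hb (σ i) with h3 | h3
      · rw [h3, h0]
      · exact absurd h3 h2
    · rw [h1]
      exact Equiv.extendSubtype_mem (p := fun i => a i = 1) (q := fun i => b i = 1)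
          (Fintype.equivOfCardEq hcard) i h1
  have haa : ∀ i, (a i : ℂ) * (a i : ℂ) = a i := by
    intro i
    rcases ha i with h | h <;> rw [h] <;> norm_num
  set S : Matrix I I ℂ := fun i j => if i = σ j then (a j : ℂ) else 0 with hS
  have hS1 : star S * S = diagonal (fun i => (a i : ℂ)) := by
    ext i j
    rw [Matrix.mul_apply, Finset.sum_eq_single (σ i)]
    · rw [star_apply]
      simp only [hS, if_true, EmbeddingLike.apply_eq_iff_eq, diagonal_apply, Complex.star_def,
        Complex.conj_ofReal]
      by_cases hij : i = j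
      · subst hij; simp only [if_true]; rw [haa]
      · rw [if_neg hij, if_neg hij, mul_zero]
    · intro k _ hk
      rw [star_apply]
      simp only [hS, if_neg hk, star_zero, zero_mul]
    · intro h; exact absurd (Finset.mem_univ _) h
  have hS2 : S * star S = diagonal (fun i => (b i : ℂ)) := by
    ext i j
    rw [Matrix.mul_apply, Finset.sum_eq_single (σ.symm i)]
    · rw [star_apply]
      simp only [hS, Equiv.apply_symm_apply, if_true, diagonal_apply]
      have e : (a (σ.symm i)) = b i := by rw [← hσb, Equiv.apply_symm_apply]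
      by_cases hij : i = j
      · subst hij
        simp only [if_true]
        rw [Complex.star_def, Complex.conj_ofReal, haa, e]
      · rw [if_neg (Ne.symm hij), if_neg hij, star_zero, mul_zero]
    · intro k _ hk
      have : i ≠ σ k := by
        rintro rfl
        exact hk (Equiv.symm_apply_apply _ _).symm
      simp only [hS, if_neg this, zero_mul]
    · intro h; exact absurd (Finset.mem_univ _) h
  refine ⟨W * S * star U, ?_, ?_⟩
  · rw [hpU, ← hS1, star_mul, star_mul, star_star]
    calc U * (star S * star W) * (W * S * star U) = U * (star S * (star W * W) * S) * star U := by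
          simp only [Matrix.mul_assoc]
      _ = _ := by rw [hW, Matrix.mul_one]
  · rw [hqW, ← hS2, star_mul, star_mul, star_star]
    calc W * S * star U * (U * (star S * star W)) = W * (S * (star U * U) * star S) * star W := by
          simp only [Matrix.mul_assoc]
      _ = _ := by rw [hU, Matrix.mul_one]

/-- determinant of the exponential of a skew-hermitian matrix -/
theorem det_exp {I : Type} [Fintype I] [DecidableEq I] (H : Matrix I I ℂ) (hH : star H = H) :
    (NormedSpace.exp (Complex.I • H)).det = Complex.exp (Complex.I * H.trace) := by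
  obtain ⟨U, a, h1, h2, h3⟩ := spec H hH
  have hinv : star U = U⁻¹ := (Matrix.inv_eq_left_inv h1).symm
  have hunit : IsUnit U := by
    rw [Matrix.isUnit_iff_isUnit_det]
    exact Matrix.isUnit_det_of_left_inverse h1
  have e1 : Complex.I • H = U * diagonal (fun i => Complex.I * (a i : ℂ)) * U⁻¹ := by
    rw [h3, ← hinv]
    have : diagonal (fun i => Complex.I * (a i : ℂ)) = Complex.I • diagonal (fun i => (a i : ℂ)) := by
      ext i j
      by_cases h : i = j
      · subst h; simp
      · simp [diagonal_apply_ne _ h]
    rw [this, Matrix.mul_smul, Matrix.smul_mul]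
  rw [e1, Matrix.exp_conj _ _ hunit, Matrix.exp_diagonal, Matrix.det_conj hunit, det_diagonal]
  rw [h3, trace_spec U _ h1, Finset.mul_sum, Complex.exp_sum]
  refine Finset.prod_congr rfl fun i _ => ?_
  rw [Complex.exp_eq_exp_ℂ, Pi.coe_exp]

end Pool.Agent.TH249.JA
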