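import Mathlib
import Pool.Agent.TH249.JA
import Pool.Agent.TH429.J421
import Pool.Agent.TH429.J419
import Pool.Agent.TH268.BL.JB
import Pool.Agent.TH268.BL.JD

/-!
Collected auxiliary results.
-/

set_option autoImplicit false

noncomputable section

namespace Pool.Agent.TH249

namespace JB
theorem con {E : Type} [CStarAlgebra E] (F : ℕ → StarSubalgebra ℂ E)
    (hfd : ∀ n, FiniteDimensional ℂ (F n)) (hdense : ∀ (y : E) (ε : ℝ), 0 < ε →
      ∃ n, ∃ x ∈ F n, ‖y - x‖ < ε) (u : unitary E) :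
    ∃ l : List (selfAdjoint E), (l.map selfAdjoint.expUnitary).prod = u :=
  Pool.Agent.TH268.JB.con F hfd hdense u
end JB

namespace JC
theorem int' {E : Type} [CStarAlgebra E] (F : ℕ → StarSubalgebra ℂ E) (hmono : Monotone F)
    (hcl : ∀ n, IsClosed (F n : Set E))
    (hdense : ∀ (y : E) (ε : ℝ), 0 < ε → ∃ n, ∃ x ∈ F n, ‖y - x‖ < ε)
    (f g : E →L[ℂ] ℂ) (Γ : Set (ℂ × ℂ)) (hΓ : Γ.Countable)
    (hstage : ∀ (n : ℕ) (l : List (selfAdjoint E)), (∀ h ∈ l, (h : E) ∈ F n) →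
      (l.map selfAdjoint.expUnitary).prod = 1 →
      ((l.map (fun h : selfAdjoint E => f (h : E))).sum,
        (l.map (fun h : selfAdjoint E => g (h : E))).sum) ∈ Γ)
    (l : List (selfAdjoint E)) (hl : (l.map selfAdjoint.expUnitary).prod = 1) :
    ((l.map (fun h : selfAdjoint E => f (h : E))).sum,
      (l.map (fun h : selfAdjoint E => g (h : E))).sum) ∈ Γ := by
  have h := int F hmono hcl hdense f g Γ hΓ (by
    intro n l hl1 hl2
    have h1 := hstage n l hl1 hl2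
    rw [aux f, aux g]
    exact h1) l hl
  rw [aux f, aux g] at h
  exact h
end JC

namespace JD
open Matrix
theorem ue {J : Type} [Fintype J] [DecidableEq J] (K : J → Type) [∀ j, Fintype (K j)]
    [∀ j, DecidableEq (K j)] (a : ∀ j, K j) {L : Type} [Fintype L] [DecidableEq L]
    (rk : ∀ p q : Matrix L L ℂ, IsStarProjection p → IsStarProjection q → p.trace = q.trace →
      ∃ v : Matrix L L ℂ, star v * v = p ∧ v * star v = q)
    (ψ ψ' : (∀ j, Matrix (K j) (K j) ℂ) →⋆ₐ[ℂ] Matrix L L ℂ)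
    (h : ∀ x, (ψ x).trace = (ψ' x).trace) :
    ∃ U : Matrix L L ℂ, star U * U = 1 ∧ U * star U = 1 ∧ ∀ x, ψ' x = U * ψ x * star U :=
  Pool.Agent.TH268.JD.ue K a rk ψ ψ' h
theorem exists_hom {J : Type} [Fintype J] [DecidableEq J] (d N : J → ℕ) (D' : ℕ)
    (hD : D' = ∑ j, N j * d j) :
    ∃ f : (∀ j, Matrix (Fin (d j)) (Fin (d j)) ℂ) →⋆ₐ[ℂ] Matrix (Fin D') (Fin D') ℂ,
      ∀ x, (f x).trace = ∑ j, (N j : ℂ) * (x j).trace :=
  Pool.Agent.TH268.JD.exists_hom d N D' hD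
theorem m2 (u : Matrix (Fin 2) (Fin 2) ℂ) (hu : star u * u = 1)
    (h4 : ∀ x : Matrix (Fin 2) (Fin 2) ℂ,
      u * (u * (u * (u * x * star u) * star u) * star u) * star u = x) :
    ∃ (e w : Matrix (Fin 2) (Fin 2) ℂ) (ρ : ℂ), IsStarProjection e ∧ e.trace = 1 ∧
      star w * w = e ∧ w * star w = 1 - e ∧ u * e * star u = e ∧ u * w * star u = ρ • w ∧
      ρ ^ 4 = 1 :=
  Pool.Agent.TH268.JD.m2 u hu h4
end JD

end Pool.Agent.TH249
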