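import Mathlib

/-!
The ordered group `K_0` of a unital C*-algebra, defined by projections in matrix algebras.
-/

set_option autoImplicit false

noncomputable section

namespace Pool.Agent.TH249

open Matrix

section eqv

variable {A : Type} [CStarAlgebra A] {I J K L : Type} [Fintype I] [Fintype J] [Fintype K]
  [Fintype L]

/-- projections in a matrix algebra -/
def IsPrj (P : Matrix I I A) : Prop := Pᴴ = P ∧ P * P = P

/-- Murray-von Neumann equivalence, for square matrices of possibly different sizes -/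
def Eqv (P : Matrix I I A) (Q : Matrix J J A) : Prop :=
  ∃ v : Matrix J I A, vᴴ * v = P ∧ v * vᴴ = Q

lemma Eqv.refl {P : Matrix I I A} (hP : IsPrj P) : Eqv P P :=
  ⟨P, by rw [hP.1, hP.2], by rw [hP.1, hP.2]⟩

lemma Eqv.symm {P : Matrix I I A} {Q : Matrix J J A} (h : Eqv P Q) : Eqv Q P := by
  obtain ⟨v, h1, h2⟩ := h
  exact ⟨vᴴ, by rw [conjTranspose_conjTranspose, h2], by rw [conjTranspose_conjTranspose, h1]⟩

lemma Eqv.trans {P : Matrix I I A} {Q : Matrix J J A} {R : Matrix K K A} (hP : IsPrj P)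
    (hR : IsPrj R) (h : Eqv P Q) (h' : Eqv Q R) : Eqv P R := by
  obtain ⟨v, h1, h2⟩ := h
  obtain ⟨w, h3, h4⟩ := h'
  refine ⟨w * v, ?_, ?_⟩
  · calc (w * v)ᴴ * (w * v) = vᴴ * (wᴴ * w) * v := by
          rw [conjTranspose_mul]; simp only [Matrix.mul_assoc]
      _ = (vᴴ * v) * (vᴴ * v) := by rw [h3, ← h2]; simp only [Matrix.mul_assoc]
      _ = P := by rw [h1, hP.2]
  · calc (w * v) * (w * v)ᴴ = w * (v * vᴴ) * wᴴ := by
          rw [conjTranspose_mul]; simp only [Matrix.mul_assoc]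
      _ = (w * wᴴ) * (w * wᴴ) := by rw [h2, ← h3]; simp only [Matrix.mul_assoc]
      _ = R := by rw [h4, hR.2]

lemma IsPrj.blocks {P : Matrix I I A} {Q : Matrix J J A} (hP : IsPrj P) (hQ : IsPrj Q) :
    IsPrj (fromBlocks P 0 0 Q) := by
  refine ⟨?_, ?_⟩
  · rw [fromBlocks_conjTranspose, hP.1, hQ.1, conjTranspose_zero, conjTranspose_zero]
  · rw [fromBlocks_multiply, hP.2, hQ.2]
    simp

lemma Eqv.blocks {P : Matrix I I A} {Q : Matrix J J A} {P' : Matrix K K A} {Q' : Matrix L L A}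
    (h : Eqv P P') (h' : Eqv Q Q') : Eqv (fromBlocks P 0 0 Q) (fromBlocks P' 0 0 Q') := by
  obtain ⟨v, h1, h2⟩ := h
  obtain ⟨w, h3, h4⟩ := h'
  refine ⟨fromBlocks v 0 0 w, ?_, ?_⟩
  · rw [fromBlocks_conjTranspose, fromBlocks_multiply]
    simp [h1, h3]
  · rw [fromBlocks_conjTranspose, fromBlocks_multiply]
    simp [h2, h4]

lemma IsPrj.submatrix {P : Matrix I I A} (hP : IsPrj P) (e : J ≃ I) :
    IsPrj (P.submatrix e e) := by
  refine ⟨?_, ?_⟩
  · rw [conjTranspose_submatrix, hP.1]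
  · rw [submatrix_mul_equiv, hP.2]

lemma Eqv.submatrix {P : Matrix I I A} (hP : IsPrj P) (e : J ≃ I) :
    Eqv P (P.submatrix e e) := by
  classical
  refine ⟨P.submatrix e id, ?_, ?_⟩
  · rw [conjTranspose_submatrix, hP.1, submatrix_mul_equiv, hP.2, submatrix_id_id]
  · have : P.submatrix e id * (P.submatrix e id)ᴴ =
        P.submatrix e (Equiv.refl I) * (P.submatrix e id)ᴴ := rfl
    rw [this, conjTranspose_submatrix, hP.1]
    have h2 : P.submatrix id e = P.submatrix (Equiv.refl I) e := rfl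
    rw [h2, submatrix_mul_equiv, hP.2]

lemma Eqv.of_submatrix {P : Matrix I I A} {Q : Matrix J J A} (hP : IsPrj P) (e : J ≃ I)
    (h : Q = P.submatrix e e) : Eqv P Q := by
  rw [h]; exact Eqv.submatrix hP e

lemma Eqv.blocks_zero {P : Matrix I I A} (hP : IsPrj P) :
    Eqv P (fromBlocks P 0 0 (0 : Matrix J J A)) := by
  classical
  refine ⟨fromBlocks P 0 0 (0 : Matrix J J A) |>.submatrix id Sum.inl, ?_, ?_⟩
  · ext i j
    simp only [mul_apply, conjTranspose_apply, submatrix_apply, Fintype.sum_sum_type, id]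
    have h1 : ∑ x : I, star (fromBlocks P 0 0 (0 : Matrix J J A) (Sum.inl x) (Sum.inl i)) *
        fromBlocks P 0 0 (0 : Matrix J J A) (Sum.inl x) (Sum.inl j) = (Pᴴ * P) i j := rfl
    rw [h1, hP.1, hP.2]
    simp
  · ext i j
    simp only [mul_apply, conjTranspose_apply, submatrix_apply, id]
    rcases i with i | i
    · rcases j with j | j
      · have h1 : ∑ x : I, fromBlocks P 0 0 (0 : Matrix J J A) (Sum.inl i) (Sum.inl x) *
          star (fromBlocks P 0 0 (0 : Matrix J J A) (Sum.inl j) (Sum.inl x)) =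
            (P * Pᴴ) i j := rfl
        rw [h1, hP.1, hP.2]
        simp
      · simp
    · rcases j with j | j <;> simp

end eqv

/-- a projection in some matrix algebra over `A` -/
structure Prj (A : Type) [CStarAlgebra A] where
  /-- the size -/
  n : ℕ
  /-- the matrix -/
  mat : Matrix (Fin n) (Fin n) A
  isPrj : IsPrj mat

section K

variable {A : Type} [CStarAlgebra A]

lemma Prj.equivalence (A : Type) [CStarAlgebra A] :
    Equivalence fun P Q : Prj A => Eqv P.mat Q.mat :=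
  ⟨fun P => Eqv.refl P.isPrj, fun h => Eqv.symm h,
    fun {P _ R} h h' => Eqv.trans P.isPrj R.isPrj h h'⟩

instance Prj.setoid (A : Type) [CStarAlgebra A] : Setoid (Prj A) where
  r P Q := Eqv P.mat Q.mat
  iseqv := Prj.equivalence A

/-- Murray-von Neumann classes of projections in matrix algebras over `A` -/
def V (A : Type) [CStarAlgebra A] : Type := Quotient (Prj.setoid A)

lemma isPrj_add (P Q : Prj A) :
    IsPrj ((fromBlocks P.mat 0 0 Q.mat).submatrix finSumFinEquiv.symm finSumFinEquiv.symm) :=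
  (P.isPrj.blocks Q.isPrj).submatrix _

/-- direct sum of projections -/
def Prj.add (P Q : Prj A) : Prj A where
  n := P.n + Q.n
  mat := (fromBlocks P.mat 0 0 Q.mat).submatrix finSumFinEquiv.symm finSumFinEquiv.symm
  isPrj := isPrj_add P Q

lemma isPrj_zero (A : Type) [CStarAlgebra A] : IsPrj (0 : Matrix (Fin 0) (Fin 0) A) :=
  ⟨by simp, by simp⟩

/-- the projection of size zero -/
def Prj.zero (A : Type) [CStarAlgebra A] : Prj A where
  n := 0
  mat := 0
  isPrj := isPrj_zero A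

lemma isPrj_of (p : A) (hp : IsStarProjection p) :
    IsPrj (Matrix.of fun (_ _ : Fin 1) => p) := by
  refine ⟨?_, ?_⟩
  · ext i j
    simp [conjTranspose_apply, hp.isSelfAdjoint.star_eq]
  · ext i j
    simp [mul_apply, hp.isIdempotentElem.eq]

/-- a projection of `A` -/
def Prj.of (p : A) (hp : IsStarProjection p) : Prj A where
  n := 1
  mat := Matrix.of fun _ _ => p
  isPrj := isPrj_of p hp

/-- class of a projection -/
def V.mk (P : Prj A) : V A := Quotient.mk _ P

lemma V.mk_eq {P Q : Prj A} : V.mk P = V.mk Q ↔ Eqv P.mat Q.mat :=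
  ⟨fun h => Quotient.exact h, fun h => Quotient.sound h⟩

lemma Eqv.add {P Q P' Q' : Prj A} (h : Eqv P.mat P'.mat) (h' : Eqv Q.mat Q'.mat) :
    Eqv (P.add Q).mat (P'.add Q').mat := by
  have h1 := Eqv.blocks h h'
  have h2 := Eqv.submatrix (P.isPrj.blocks Q.isPrj) (finSumFinEquiv (m := P.n) (n := Q.n)).symm
  have h3 := Eqv.submatrix (P'.isPrj.blocks Q'.isPrj)
    (finSumFinEquiv (m := P'.n) (n := Q'.n)).symm
  exact Eqv.trans (P.add Q).isPrj (P'.add Q').isPrj
    (Eqv.trans (P.add Q).isPrj (P'.isPrj.blocks Q'.isPrj) h2.symm h1) h3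

instance : Zero (V A) := ⟨V.mk (Prj.zero A)⟩

lemma V.add_wd (P Q P' Q' : Prj A) (h : P ≈ P') (h' : Q ≈ Q') :
    V.mk (P.add Q) = V.mk (P'.add Q') := V.mk_eq.2 (Eqv.add h h')

instance : Add (V A) := ⟨fun x y => Quotient.liftOn₂ x y (fun P Q => V.mk (P.add Q))
  V.add_wd⟩

lemma V.mk_add (P Q : Prj A) : V.mk P + V.mk Q = V.mk (P.add Q) := rfl

lemma V.zero_def : (0 : V A) = V.mk (Prj.zero A) := rfl

lemma V.ind {p : V A → Prop} (h : ∀ P, p (V.mk P)) (x : V A) : p x := Quotient.ind h x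

lemma V.exists_rep (x : V A) : ∃ P, V.mk P = x := Quotient.exists_rep x

/-- comparison of a general block sum -/
lemma Prj.add_eqv (P Q : Prj A) : Eqv (fromBlocks P.mat 0 0 Q.mat) (P.add Q).mat :=
  Eqv.submatrix (P.isPrj.blocks Q.isPrj) (finSumFinEquiv (m := P.n) (n := Q.n)).symm

lemma V.add_assoc' (x y z : V A) : x + y + z = x + (y + z) := by
  induction x using V.ind with | _ P
  induction y using V.ind with | _ Q
  induction z using V.ind with | _ R
  rw [V.mk_add, V.mk_add, V.mk_add, V.mk_add, V.mk_eq]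
  have h1 := Prj.add_eqv (P.add Q) R
  have h2 := Eqv.blocks (Prj.add_eqv P Q) (Eqv.refl R.isPrj)
  have h3 := Prj.add_eqv P (Q.add R)
  have h4 := Eqv.blocks (Eqv.refl P.isPrj) (Prj.add_eqv Q R)
  have hL : IsPrj (fromBlocks (fromBlocks P.mat 0 0 Q.mat) 0 0 R.mat) :=
    (P.isPrj.blocks Q.isPrj).blocks R.isPrj
  have hR : IsPrj (fromBlocks P.mat 0 0 (fromBlocks Q.mat 0 0 R.mat)) :=
    P.isPrj.blocks (Q.isPrj.blocks R.isPrj)
  have h5 : Eqv (fromBlocks (fromBlocks P.mat 0 0 Q.mat) 0 0 R.mat)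
      (fromBlocks P.mat 0 0 (fromBlocks Q.mat 0 0 R.mat)) := by
    refine Eqv.of_submatrix hL (Equiv.sumAssoc _ _ _).symm ?_
    ext i j
    rcases i with i | i | i <;> rcases j with j | j | j <;> rfl
  have h6 := Eqv.trans hL ((P.add Q).add R).isPrj h2 h1
  have h7 := Eqv.trans hR (P.add (Q.add R)).isPrj h4 h3
  exact Eqv.trans ((P.add Q).add R).isPrj (P.add (Q.add R)).isPrj h6.symm
    (Eqv.trans hL (P.add (Q.add R)).isPrj h5 h7)

lemma V.zero_add' (x : V A) : 0 + x = x := by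
  induction x using V.ind with | _ P
  rw [V.zero_def, V.mk_add, V.mk_eq]
  have h1 := Prj.add_eqv (Prj.zero A) P
  have h2 : Eqv P.mat (fromBlocks (Prj.zero A).mat 0 0 P.mat) := by
    refine ⟨(fromBlocks (Prj.zero A).mat 0 0 P.mat).submatrix id Sum.inr, ?_, ?_⟩
    · ext i j
      simp only [mul_apply, conjTranspose_apply, submatrix_apply, Fintype.sum_sum_type, id]
      have h1 : ∑ x, star (fromBlocks (Prj.zero A).mat 0 0 P.mat (Sum.inr x) (Sum.inr i)) *
          fromBlocks (Prj.zero A).mat 0 0 P.mat (Sum.inr x) (Sum.inr j) =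
            (P.matᴴ * P.mat) i j := rfl
      rw [h1, P.isPrj.1, P.isPrj.2]
      simp
    · ext i j
      simp only [mul_apply, conjTranspose_apply, submatrix_apply, id]
      rcases i with i | i
      · exact i.elim0
      · rcases j with j | j
        · exact j.elim0
        · have h1 : ∑ x, fromBlocks (Prj.zero A).mat 0 0 P.mat (Sum.inr i) (Sum.inr x) *
            star (fromBlocks (Prj.zero A).mat 0 0 P.mat (Sum.inr j) (Sum.inr x)) =
              (P.mat * P.matᴴ) i j := rfl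
          rw [h1, P.isPrj.1, P.isPrj.2]
          simp
  exact (Eqv.trans P.isPrj (Prj.add _ _).isPrj h2 h1).symm

lemma V.add_zero' (x : V A) : x + 0 = x := by
  induction x using V.ind with | _ P
  rw [V.zero_def, V.mk_add, V.mk_eq]
  have h1 := Prj.add_eqv P (Prj.zero A)
  have h2 : Eqv P.mat (fromBlocks P.mat 0 0 (Prj.zero A).mat) := Eqv.blocks_zero P.isPrj
  exact (Eqv.trans P.isPrj (Prj.add _ _).isPrj h2 h1).symm

lemma V.add_comm' (x y : V A) : x + y = y + x := by
  induction x using V.ind with | _ P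
  induction y using V.ind with | _ Q
  rw [V.mk_add, V.mk_add, V.mk_eq]
  have h1 := Prj.add_eqv P Q
  have h2 := Prj.add_eqv Q P
  have hL := P.isPrj.blocks Q.isPrj
  have h5 : Eqv (fromBlocks P.mat 0 0 Q.mat) (fromBlocks Q.mat 0 0 P.mat) := by
    refine Eqv.of_submatrix hL (Equiv.sumComm _ _) ?_
    ext i j
    rcases i with i | i <;> rcases j with j | j <;> rfl
  exact Eqv.trans (P.add Q).isPrj (Q.add P).isPrj h1.symm
    (Eqv.trans hL (Q.add P).isPrj h5 h2)

instance : AddCommMonoid (V A) where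
  add_assoc := V.add_assoc'
  zero_add := V.zero_add'
  add_zero := V.add_zero'
  add_comm := V.add_comm'
  nsmul := nsmulRec

/-- the group `K_0(A)` of a unital C*-algebra -/
def K0 (A : Type) [CStarAlgebra A] : Type := Algebra.GrothendieckAddGroup (V A)

instance instK0 (A : Type) [CStarAlgebra A] : AddCommGroup (K0 A) :=
  Algebra.GrothendieckAddGroup.instAddCommGroup (M := V A)

/-- the canonical map into the Grothendieck group -/
def K0.ofV (A : Type) [CStarAlgebra A] : V A →+ K0 A := Algebra.GrothendieckAddGroup.of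

/-- the class in `K_0(A)` of a projection in a matrix algebra over `A` -/
def K0.cls (P : Prj A) : K0 A := K0.ofV A (V.mk P)

/-- the positive cone of `K_0(A)` -/
def K0.pos (A : Type) [CStarAlgebra A] : Set (K0 A) := Set.range K0.cls

/-- the scale of `K_0(A)` -/
def K0.scale (A : Type) [CStarAlgebra A] : Set (K0 A) :=
  {x | ∃ (p : A) (hp : IsStarProjection p), x = K0.cls (Prj.of p hp)}

lemma K0.cls_eq {P Q : Prj A} :
    K0.cls P = K0.cls Q ↔ ∃ R : Prj A, Eqv (P.add R).mat (Q.add R).mat := by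
  unfold K0.cls
  constructor
  · intro h
    have h1 := ((AddLocalization.addMonoidOf (⊤ : AddSubmonoid (V A))).eq_iff_exists).1 h
    obtain ⟨⟨c, hct⟩, hc⟩ := h1
    obtain ⟨R, rfl⟩ := V.exists_rep c
    have hc' : V.mk R + V.mk P = V.mk R + V.mk Q := hc
    refine ⟨R, ?_⟩
    rw [add_comm, add_comm (V.mk R), V.mk_add, V.mk_add, V.mk_eq] at hc'
    exact hc'
  · rintro ⟨R, hR⟩
    rw [← V.mk_eq, ← V.mk_add, ← V.mk_add] at hR
    have h1 := congrArg (K0.ofV A) hR
    rw [map_add, map_add] at h1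
    exact add_right_cancel h1

/-- every element of `K_0` is a difference of classes -/
lemma K0.exists_sub (x : K0 A) : ∃ P Q : Prj A, x = K0.cls P - K0.cls Q := by
  obtain ⟨⟨a, b⟩, hab⟩ := (AddLocalization.addMonoidOf (⊤ : AddSubmonoid (V A))).surj x
  obtain ⟨P, rfl⟩ := V.exists_rep a
  obtain ⟨Q, hQ⟩ := V.exists_rep (b : V A)
  refine ⟨P, Q, ?_⟩
  rw [eq_sub_iff_add_eq]
  have h1 : x + K0.ofV A (b : V A) = K0.ofV A (V.mk P) := hab
  rw [← hQ] at h1
  exact h1

section maps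

variable {B C : Type} [CStarAlgebra B] [CStarAlgebra C]

lemma IsPrj.map {I : Type} [Fintype I] {P : Matrix I I A} (hP : IsPrj P) (f : A →⋆ₐ[ℂ] B) :
    IsPrj (P.map f) := by
  refine ⟨?_, ?_⟩
  · conv_rhs => rw [← hP.1]
    ext i j
    simp [conjTranspose_apply, map_star]
  · conv_rhs => rw [← hP.2]
    ext i j
    simp [mul_apply, map_sum]

lemma Eqv.map {I J : Type} [Fintype I] [Fintype J] {P : Matrix I I A} {Q : Matrix J J A}
    (h : Eqv P Q) (f : A →⋆ₐ[ℂ] B) : Eqv (P.map f) (Q.map f) := by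
  obtain ⟨v, h1, h2⟩ := h
  refine ⟨v.map f, ?_, ?_⟩
  · rw [← h1]
    ext i j
    simp [mul_apply, map_sum, map_star]
  · rw [← h2]
    ext i j
    simp [mul_apply, map_sum, map_star]

/-- the image of a projection under a *-homomorphism -/
def Prj.map (f : A →⋆ₐ[ℂ] B) (P : Prj A) : Prj B where
  n := P.n
  mat := P.mat.map f
  isPrj := P.isPrj.map f

lemma Prj.map_add_eqv (f : A →⋆ₐ[ℂ] B) (P Q : Prj A) :
    (P.add Q).map f = (P.map f).add (Q.map f) := by
  unfold Prj.map Prj.add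
  congr 1
  ext i j
  simp only [map_apply, submatrix_apply]
  rcases h1 : finSumFinEquiv.symm i with a | a <;> rcases h2 : finSumFinEquiv.symm j with b | b <;>
    simp

lemma V.map_wd (f : A →⋆ₐ[ℂ] B) (P Q : Prj A) (h : P ≈ Q) : V.mk (P.map f) = V.mk (Q.map f) :=
  V.mk_eq.2 (Eqv.map h f)

/-- the underlying function of `V.map` -/
def V.mapFun (f : A →⋆ₐ[ℂ] B) (x : V A) : V B :=
  Quotient.liftOn x (fun P => V.mk (P.map f)) (V.map_wd f)

lemma V.mapFun_zero (f : A →⋆ₐ[ℂ] B) : V.mapFun f 0 = 0 := by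
  show V.mk _ = V.mk _
  rw [V.mk_eq]
  refine Eqv.of_submatrix (Prj.isPrj _) (Equiv.refl _) ?_
  ext i j
  exact i.elim0

lemma V.mapFun_add (f : A →⋆ₐ[ℂ] B) (x y : V A) :
    V.mapFun f (x + y) = V.mapFun f x + V.mapFun f y := by
  obtain ⟨P, rfl⟩ := V.exists_rep x
  obtain ⟨Q, rfl⟩ := V.exists_rep y
  show V.mk _ = V.mk _
  rw [Prj.map_add_eqv]

/-- the map induced by a *-homomorphism on classes of projections -/
def V.map (f : A →⋆ₐ[ℂ] B) : V A →+ V B where
  toFun := V.mapFun f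
  map_zero' := V.mapFun_zero f
  map_add' := V.mapFun_add f

lemma V.map_mk (f : A →⋆ₐ[ℂ] B) (P : Prj A) : V.map f (V.mk P) = V.mk (P.map f) := rfl

/-- the homomorphism induced by a *-homomorphism on `K_0` -/
def K0.map (f : A →⋆ₐ[ℂ] B) : K0 A →+ K0 B :=
  Algebra.GrothendieckAddGroup.lift ((K0.ofV B).comp (V.map f))

lemma K0.map_cls (f : A →⋆ₐ[ℂ] B) (P : Prj A) : K0.map f (K0.cls P) = K0.cls (P.map f) := by
  have h := (Algebra.GrothendieckAddGroup.lift
    (M := V A) (G := K0 B)).left_inv ((K0.ofV B).comp (V.map f))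
  have h2 := DFunLike.congr_fun h (V.mk P)
  exact h2

lemma K0.hom_ext {G : Type} [AddGroup G] {f g : K0 A →+ G} (h : ∀ P, f (K0.cls P) = g (K0.cls P)) :
    f = g := by
  ext x
  obtain ⟨P, Q, rfl⟩ := K0.exists_sub x
  rw [map_sub, map_sub, h, h]

lemma Prj.map_map (f : A →⋆ₐ[ℂ] B) (g : B →⋆ₐ[ℂ] C) (P : Prj A) :
    (P.map f).map g = P.map (g.comp f) := rfl

lemma Prj.map_id (P : Prj A) : P.map (StarAlgHom.id ℂ A) = P := rfl

lemma K0.map_comp (f : A →⋆ₐ[ℂ] B) (g : B →⋆ₐ[ℂ] C) (x : K0 A) :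
    K0.map g (K0.map f x) = K0.map (g.comp f) x := by
  obtain ⟨P, Q, rfl⟩ := K0.exists_sub x
  simp only [map_sub, K0.map_cls, Prj.map_map]

lemma K0.map_id (x : K0 A) : K0.map (StarAlgHom.id ℂ A) x = x := by
  obtain ⟨P, Q, rfl⟩ := K0.exists_sub x
  simp only [map_sub, K0.map_cls, Prj.map_id]

lemma Prj.map_of (f : A →⋆ₐ[ℂ] B) (p : A) (hp : IsStarProjection p) :
    (Prj.of p hp).map f = Prj.of (f p) (hp.map f) := rfl

/-- the homomorphism induced by a *-homomorphism on `K_0`, for isomorphisms -/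
def K0.congr (f : A ≃⋆ₐ[ℂ] B) : K0 A ≃+ K0 B where
  toFun := K0.map (f : A →⋆ₐ[ℂ] B)
  invFun := K0.map (f.symm : B →⋆ₐ[ℂ] A)
  left_inv x := by
    rw [K0.map_comp]
    have : ((f.symm : B →⋆ₐ[ℂ] A).comp (f : A →⋆ₐ[ℂ] B)) = StarAlgHom.id ℂ A := by
      ext a; simp
    rw [this, K0.map_id]
  right_inv x := by
    rw [K0.map_comp]
    have : ((f : A →⋆ₐ[ℂ] B).comp (f.symm : B →⋆ₐ[ℂ] A)) = StarAlgHom.id ℂ B := by
      ext a; simp
    rw [this, K0.map_id]
  map_add' x y := map_add _ x y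

lemma K0.congr_apply (f : A ≃⋆ₐ[ℂ] B) (x : K0 A) : K0.congr f x = K0.map (f : A →⋆ₐ[ℂ] B) x := rfl

lemma K0.map_mem_pos (f : A →⋆ₐ[ℂ] B) {x : K0 A} (h : x ∈ K0.pos A) : K0.map f x ∈ K0.pos B := by
  obtain ⟨P, rfl⟩ := h
  exact ⟨P.map f, (K0.map_cls f P).symm⟩

lemma K0.map_mem_scale (f : A →⋆ₐ[ℂ] B) {x : K0 A} (h : x ∈ K0.scale A) :
    K0.map f x ∈ K0.scale B := by
  obtain ⟨p, hp, rfl⟩ := h
  exact ⟨f p, hp.map f, by rw [K0.map_cls, Prj.map_of]⟩

end maps

end K

end Pool.Agent.TH249
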