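import Mathlib
import Pool.Agent.TH249.Base
import Pool.Agent.TH249.K0
import Pool.Agent.TH249.J

/-!
Projections in matrix algebras over inductive limits.
-/

set_option autoImplicit false
set_option linter.unusedSectionVars false

noncomputable section

namespace Pool.Agent.TH249

open Matrix Pool.Agent.H188R3

section conv

variable {A : Type} [CStarAlgebra A] {I : Type} [Fintype I] [DecidableEq I]

/-- a matrix as an element of the C*-algebra `M_I(A)` -/
def toMA (P : Matrix I I A) : MA I A := MA.of P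

/-- the matrix of an element of `M_I(A)` -/
def frMA (x : MA I A) : Matrix I I A := Matrix.of fun i j => x.en i j

@[simp] lemma frMA_toMA (P : Matrix I I A) : frMA (toMA P) = P := rfl
@[simp] lemma toMA_frMA (x : MA I A) : toMA (frMA x) = x := rfl

lemma toMA_mul (P Q : Matrix I I A) : toMA (P * Q) = toMA P * toMA Q := rfl
lemma toMA_star (P : Matrix I I A) : toMA (Pᴴ) = star (toMA P) := rfl
lemma toMA_map {B : Type} [CStarAlgebra B] (f : A →⋆ₐ[ℂ] B) (P : Matrix I I A) :
    toMA (P.map f) = MA.map f (toMA P) := rfl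

lemma toMA_inj {P Q : Matrix I I A} (h : toMA P = toMA Q) : P = Q := congrArg frMA h

lemma isPrj_iff {P : Matrix I I A} : IsPrj P ↔ IsStarProjection (toMA P) := by
  constructor
  · intro h
    exact ⟨by show toMA P * toMA P = toMA P; rw [← toMA_mul, h.2],
      by show star (toMA P) = toMA P; rw [← toMA_star, h.1]⟩
  · intro h
    exact ⟨toMA_inj h.isSelfAdjoint.star_eq, toMA_inj h.isIdempotentElem.eq⟩

lemma eqv_iff {P Q : Matrix I I A} :
    Eqv P Q ↔ ∃ v : MA I A, star v * v = toMA P ∧ v * star v = toMA Q := by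
  constructor
  · rintro ⟨v, h1, h2⟩
    exact ⟨toMA v, by rw [← h1]; rfl, by rw [← h2]; rfl⟩
  · rintro ⟨v, h1, h2⟩
    exact ⟨frMA v, toMA_inj h1, toMA_inj h2⟩

lemma norm_unit_le (i j : I) : ‖(MA.unit i j : MA I ℂ)‖ ≤ 1 := by
  have h1 : ‖(MA.unit i j : MA I ℂ)‖ * ‖(MA.unit i j : MA I ℂ)‖ =
      ‖(MA.unit j j : MA I ℂ)‖ := by
    rw [← CStarRing.norm_star_mul_self, MA.star_unit, MA.unit_mul, if_pos rfl]
  have h2 : ‖(MA.unit j j : MA I ℂ)‖ * ‖(MA.unit j j : MA I ℂ)‖ =
      ‖(MA.unit j j : MA I ℂ)‖ := by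
    rw [← CStarRing.norm_star_mul_self, MA.star_unit, MA.unit_mul, if_pos rfl]
  have h3 : ‖(MA.unit j j : MA I ℂ)‖ ≤ 1 := by
    have := norm_nonneg (MA.unit j j : MA I ℂ)
    nlinarith
  have := norm_nonneg (MA.unit i j : MA I ℂ)
  nlinarith

lemma norm_map_le'' {A B : Type} [CStarAlgebra A] [CStarAlgebra B] (f : A →⋆ₐ[ℂ] B)
    (x : A) : ‖f x‖ ≤ ‖x‖ := norm_map_le' f x

lemma norm_MA_le (x : MA I A) : ‖x‖ ≤ ∑ i, ∑ j, ‖x.en i j‖ := by
  have h : x = ∑ i, ∑ j, MA.diag (x.en i j) * MA.map (MA.sc A) (MA.unit i j) := by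
    ext a b
    rw [MA.en_sum]
    rw [Finset.sum_eq_single a]
    · rw [MA.en_sum, Finset.sum_eq_single b]
      · rw [MA.en_mul, Finset.sum_eq_single a]
        · rw [MA.en_diag, if_pos rfl, MA.en_map, MA.en_unit]
          simp
        · intro c _ hc
          rw [MA.en_diag, if_neg (Ne.symm hc), zero_mul]
        · simp
      · intro c _ hc
        rw [MA.en_mul]
        refine Finset.sum_eq_zero fun k _ => ?_
        rw [MA.en_map, MA.en_unit, if_neg (fun h => hc h.2.symm)]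
        simp
      · simp
    · intro c _ hc
      rw [MA.en_sum]
      refine Finset.sum_eq_zero fun k _ => ?_
      rw [MA.en_mul]
      refine Finset.sum_eq_zero fun l _ => ?_
      rw [MA.en_diag, MA.en_map, MA.en_unit]
      by_cases h1 : a = l
      · rw [if_neg (fun (h2 : l = c ∧ b = k) => hc (h2.1.symm.trans h1.symm))]
        simp
      · rw [if_neg h1, zero_mul]
    · simp
  conv_lhs => rw [h]
  refine (norm_sum_le _ _).trans (Finset.sum_le_sum fun i _ => ?_)
  refine (norm_sum_le _ _).trans (Finset.sum_le_sum fun j _ => ?_)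
  calc ‖MA.diag (x.en i j) * MA.map (MA.sc A) (MA.unit i j)‖
      ≤ ‖(MA.diag (x.en i j) : MA I A)‖ * ‖(MA.map (MA.sc A) (MA.unit i j) : MA I A)‖ :=
        norm_mul_le _ _
    _ ≤ ‖x.en i j‖ * 1 := by
        refine mul_le_mul (norm_map_le' _ _) ((norm_map_le' _ _).trans (norm_unit_le i j))
          (norm_nonneg _) (norm_nonneg _)
    _ = ‖x.en i j‖ := mul_one _

lemma MA_map_inj {B : Type} [CStarAlgebra B] (f : A →⋆ₐ[ℂ] B) (hf : Function.Injective f) :
    Function.Injective (MA.map f : MA I A →⋆ₐ[ℂ] MA I B) := by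
  intro x y h
  ext i j
  apply hf
  exact congrArg (fun z => MA.en z i j) h

end conv

section lim

variable {A : ℕ → Type} [∀ n, CStarAlgebra (A n)] [∀ n, Nontrivial (A n)]
  {φ : ∀ n, A n →⋆ₐ[ℂ] A (n + 1)} {L : Type} [CStarAlgebra L] {j : ∀ n, A n →⋆ₐ[ℂ] L}
variable {I : Type} [Fintype I] [DecidableEq I]

lemma approx_MA (h : IsLim φ j) (y : MA I L) {ε : ℝ} (hε : 0 < ε) :
    ∃ N, ∀ n, N ≤ n → ∃ x : MA I (A n), ‖y - MA.map (j n) x‖ < ε := by
  set c : ℝ := (Fintype.card I : ℝ) * (Fintype.card I : ℝ) + 1 with hc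
  have hc0 : 0 < c := by positivity
  have hε' : 0 < ε / c := div_pos hε hc0
  obtain ⟨N, hN⟩ := h.approx_finset (Finset.univ : Finset (I × I))
    (fun p => y.en p.1 p.2) hε'
  refine ⟨N, fun n hn => ?_⟩
  obtain ⟨x, hx⟩ := hN n hn
  refine ⟨MA.of fun a b => x (a, b), ?_⟩
  refine (norm_MA_le _).trans_lt ?_
  have h1 : ∀ a b, ‖(y - MA.map (j n) (MA.of fun a b => x (a, b))).en a b‖ ≤ ε / c := by
    intro a b
    have := hx (a, b) (Finset.mem_univ _)
    exact this.le
  calc ∑ a, ∑ b, ‖(y - MA.map (j n) (MA.of fun a b => x (a, b))).en a b‖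
      ≤ ∑ _a : I, ∑ _b : I, ε / c := Finset.sum_le_sum fun a _ => Finset.sum_le_sum fun b _ => h1 a b
    _ = (Fintype.card I : ℝ) * (Fintype.card I : ℝ) * (ε / c) := by
        simp only [Finset.sum_const, Finset.card_univ, nsmul_eq_mul]
        ring
    _ < c * (ε / c) := by
        have : (Fintype.card I : ℝ) * (Fintype.card I : ℝ) < c := by rw [hc]; linarith
        exact mul_lt_mul_of_pos_right this hε'
    _ = ε := by field_simp

lemma isPrj_of_map {B C : Type} [CStarAlgebra B] [CStarAlgebra C] {f : B →⋆ₐ[ℂ] C}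
    (hf : Function.Injective f) {P : Matrix I I B} (h : IsPrj (P.map f)) : IsPrj P := by
  rw [isPrj_iff] at h ⊢
  rw [toMA_map] at h
  refine ⟨?_, ?_⟩
  · apply MA_map_inj f hf
    rw [map_mul]
    exact h.isIdempotentElem.eq
  · apply MA_map_inj f hf
    rw [map_star]
    exact h.isSelfAdjoint.star_eq

/-- every projection over the limit is equivalent to one coming from a finite stage -/
lemma lim1 (h : IsLim φ j) (P : Matrix I I L) (hP : IsPrj P) :
    ∃ N, ∀ n, N ≤ n → ∃ P' : Matrix I I (A n), IsPrj P' ∧ Eqv P (P'.map (j n)) := by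
  obtain ⟨N, hN⟩ := approx_MA h (toMA P) (ε := 1 / 16) (by norm_num)
  refine ⟨N, fun n hn => ?_⟩
  obtain ⟨x, hx⟩ := hN n hn
  set F : StarSubalgebra ℂ (MA I L) := (MA.map (j n) : MA I (A n) →⋆ₐ[ℂ] MA I L).range with hF
  have hinj : Function.Injective (MA.map (j n) : MA I (A n) →⋆ₐ[ℂ] MA I L) :=
    MA_map_inj _ (h.inj n)
  have hiso : Isometry (MA.map (j n) : MA I (A n) →⋆ₐ[ℂ] MA I L) :=
    NonUnitalStarAlgHom.isometry ((MA.map (j n) : MA I (A n) →⋆ₐ[ℂ] MA I L) :
      MA I (A n) →⋆ₙₐ[ℂ] MA I L) hinj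
  have hcl : IsClosed (F : Set (MA I L)) := by
    have : (F : Set (MA I L)) = Set.range (MA.map (j n) : MA I (A n) →⋆ₐ[ℂ] MA I L) := by
      rw [hF]; rfl
    rw [this]
    exact hiso.isClosedEmbedding.isClosed_range
  have hP' := isPrj_iff.1 hP
  obtain ⟨p', ⟨y, hy⟩, hp1, hp2⟩ := JF.near F hcl (toMA P) hP' (MA.map (j n) x) ⟨x, rfl⟩
    (by rw [norm_sub_rev]; exact hx)
  have hy' : MA.map (j n) y = p' := hy
  have hyp : IsPrj ((frMA y).map (j n)) := by
    rw [isPrj_iff, toMA_map, toMA_frMA, hy']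
    exact hp1
  refine ⟨frMA y, isPrj_of_map (h.inj n) hyp, ?_⟩
  rw [eqv_iff, toMA_map, toMA_frMA, hy']
  exact JF.close _ _ hP' hp1 (by rw [norm_sub_rev]; exact hp2)

lemma norm_pi_le {B : Type} [CStarAlgebra B] {v e : B} (he : IsStarProjection e)
    (h : star v * v = e) : ‖v‖ ≤ 1 := by
  have h1 : ‖v‖ * ‖v‖ = ‖e‖ := by rw [← CStarRing.norm_star_mul_self, h]
  have h2 : ‖e‖ * ‖e‖ = ‖e‖ := by
    rw [← CStarRing.norm_star_mul_self, he.isSelfAdjoint.star_eq, he.isIdempotentElem.eq]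
  have h3 := norm_nonneg e
  have h4 := norm_nonneg v
  have h5 : ‖e‖ ≤ 1 := by nlinarith
  nlinarith

lemma pi_mul {B : Type} [CStarAlgebra B] {v e : B} (he : IsStarProjection e)
    (h : star v * v = e) : v * e = v := by
  rw [← sub_eq_zero, ← norm_eq_zero]
  have : ‖v * e - v‖ * ‖v * e - v‖ = 0 := by
    rw [← CStarRing.norm_star_mul_self, norm_eq_zero]
    have h1 := he.isIdempotentElem.eq
    have h2 : star (v * e - v) * (v * e - v) =
        star e * (star v * v) * e - star e * (star v * v) - (star v * v) * e + star v * v := by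
      simp only [star_sub, star_mul]; noncomm_ring
    rw [h2, h, he.isSelfAdjoint.star_eq, h1, h1]
    simp
  nlinarith

lemma mul_pi {B : Type} [CStarAlgebra B] {v f : B} (hf : IsStarProjection f)
    (h : v * star v = f) : f * v = v := by
  have h1 := pi_mul (v := star v) hf (by rw [star_star]; exact h)
  have h2 := congrArg star h1
  rwa [star_mul, star_star, hf.isSelfAdjoint.star_eq] at h2

/-- equivalences over the limit come from equivalences at a finite stage -/
lemma lim2 (h : IsLim φ j) {n : ℕ} (P Q : Matrix I I (A n)) (hP : IsPrj P) (hQ : IsPrj Q)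
    (hPQ : Eqv (P.map (j n)) (Q.map (j n))) :
    ∃ m, n ≤ m ∧ ∀ (g : A n →⋆ₐ[ℂ] A m), (∀ x, j m (g x) = j n x) → Eqv (P.map g) (Q.map g) := by
  rw [eqv_iff] at hPQ
  obtain ⟨v, hv1, hv2⟩ := hPQ
  have hPj := isPrj_iff.1 (hP.map (j n))
  have hQj := isPrj_iff.1 (hQ.map (j n))
  obtain ⟨N, hN⟩ := approx_MA h v (ε := 1 / 4) (by norm_num)
  obtain ⟨m, hnm, hNm⟩ : ∃ m, n ≤ m ∧ N ≤ m := ⟨max n N, le_max_left _ _, le_max_right _ _⟩
  refine ⟨m, hnm, fun g hg => ?_⟩
  obtain ⟨x, hx⟩ := hN m hNm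
  have hinj : Function.Injective (MA.map (j m) : MA I (A m) →⋆ₐ[ℂ] MA I L) :=
    MA_map_inj _ (h.inj m)
  set e : MA I (A m) := toMA (P.map g) with he
  set f : MA I (A m) := toMA (Q.map g) with hf
  have he' : IsStarProjection e := isPrj_iff.1 (hP.map g)
  have hf' : IsStarProjection f := isPrj_iff.1 (hQ.map g)
  have hje : MA.map (j m) e = toMA (P.map (j n)) := by
    rw [he, ← toMA_map]
    congr 1
    ext a b
    exact hg _
  have hjf : MA.map (j m) f = toMA (Q.map (j n)) := by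
    rw [hf, ← toMA_map]
    congr 1
    ext a b
    exact hg _
  set y : MA I (A m) := f * x * e with hy
  set J : MA I (A m) →⋆ₐ[ℂ] MA I L := MA.map (j m) with hJ
  have hv3 : toMA (Q.map (j n)) * v * toMA (P.map (j n)) = v := by
    rw [mul_pi hQj hv2, pi_mul hPj hv1]
  have hpn : ∀ {p : MA I L}, IsStarProjection p → ‖p‖ ≤ 1 := fun {p} hp =>
    norm_pi_le hp (by rw [hp.isSelfAdjoint.star_eq, hp.isIdempotentElem.eq])
  have hd : ‖v - J y‖ ≤ 1 / 4 := by
    have h1 : v - J y = toMA (Q.map (j n)) * (v - J x) * toMA (P.map (j n)) := by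
      rw [hy, map_mul, map_mul, hje, hjf, mul_sub, sub_mul, hv3]
    rw [h1]
    calc ‖toMA (Q.map (j n)) * (v - J x) * toMA (P.map (j n))‖
        ≤ ‖toMA (Q.map (j n))‖ * ‖v - J x‖ * ‖toMA (P.map (j n))‖ :=
          (norm_mul_le _ _).trans (mul_le_mul_of_nonneg_right (norm_mul_le _ _) (norm_nonneg _))
      _ ≤ 1 * (1 / 4) * 1 := by
          have := hpn hPj
          have := hpn hQj
          gcongr
      _ = 1 / 4 := by norm_num
  have hvn : ‖v‖ ≤ 1 := norm_pi_le hPj hv1
  have hyn : ‖J y‖ ≤ 5 / 4 := by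
    calc ‖J y‖ = ‖v - (v - J y)‖ := by congr 1; abel
      _ ≤ ‖v‖ + ‖v - J y‖ := norm_sub_le _ _
      _ ≤ 5 / 4 := by linarith
  have h1 : ‖star y * y - e‖ < 1 := by
    rw [← norm_map_inj J hinj, map_sub, map_mul, map_star, hje, ← hv1]
    have h2 : star (J y) * J y - star v * v =
        -(star (J y) * (v - J y)) - star (v - J y) * v := by
      rw [star_sub]; noncomm_ring
    rw [h2]
    calc ‖-(star (J y) * (v - J y)) - star (v - J y) * v‖
        ≤ ‖star (J y) * (v - J y)‖ + ‖star (v - J y) * v‖ := by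
          refine (norm_sub_le _ _).trans ?_
          rw [norm_neg]
      _ ≤ ‖J y‖ * ‖v - J y‖ + ‖v - J y‖ * ‖v‖ := by
          refine add_le_add ?_ ?_
          · refine (norm_mul_le _ _).trans ?_
            rw [norm_star]
          · refine (norm_mul_le _ _).trans ?_
            rw [norm_star]
      _ ≤ 5 / 4 * (1 / 4) + 1 / 4 * 1 := by gcongr
      _ < 1 := by norm_num
  have h2 : ‖y * star y - f‖ < 1 := by
    rw [← norm_map_inj J hinj, map_sub, map_mul, map_star, hjf, ← hv2]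
    have h2 : J y * star (J y) - v * star v =
        -((v - J y) * star (J y)) - v * star (v - J y) := by
      rw [star_sub]; noncomm_ring
    rw [h2]
    calc ‖-((v - J y) * star (J y)) - v * star (v - J y)‖
        ≤ ‖(v - J y) * star (J y)‖ + ‖v * star (v - J y)‖ := by
          refine (norm_sub_le _ _).trans ?_
          rw [norm_neg]
      _ ≤ ‖v - J y‖ * ‖J y‖ + ‖v‖ * ‖v - J y‖ := by
          refine add_le_add ?_ ?_
          · refine (norm_mul_le _ _).trans ?_
            rw [norm_star]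
          · refine (norm_mul_le _ _).trans ?_
            rw [norm_star]
      _ ≤ 1 / 4 * (5 / 4) + 1 * (1 / 4) := by gcongr
      _ < 1 := by norm_num
  rw [eqv_iff]
  refine JF.polar e f y he' hf' ?_ h1 h2
  rw [hy]
  have h3 := he'.isIdempotentElem.eq
  have h4 := hf'.isIdempotentElem.eq
  calc f * (f * x * e) * e = (f * f) * x * (e * e) := by noncomm_ring
    _ = f * x * e := by rw [h3, h4]

end lim

end Pool.Agent.TH249
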