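import Mathlib
import Pool.Agent.TH249.Lim

/-!
Cancellation for projections over inductive limits of finite-dimensional algebras.
-/

set_option autoImplicit false
set_option linter.unusedSectionVars false

noncomputable section

namespace Pool.Agent.TH249

open Matrix Pool.Agent.H188R3

/-- functionals detecting Murray-von Neumann equivalence of projections -/
structure Detects {F : Type} [CStarAlgebra F] {J : Type} (τ : J → F →ₗ[ℂ] ℂ) : Prop where
  comm : ∀ j x y, τ j (x * y) = τ j (y * x)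
  det : ∀ {I : Type} [Fintype I] [DecidableEq I] (P Q : Matrix I I F), IsPrj P → IsPrj Q →
    (∀ j, ∑ i, τ j (P i i) = ∑ i, τ j (Q i i)) → Eqv P Q

lemma Eqv.trace {F : Type} [CStarAlgebra F] {I J : Type} [Fintype I] [Fintype J]
    (τ : F →ₗ[ℂ] ℂ) (hτ : ∀ x y, τ (x * y) = τ (y * x)) {P : Matrix I I F} {Q : Matrix J J F}
    (h : Eqv P Q) : ∑ i, τ (P i i) = ∑ i, τ (Q i i) := by
  obtain ⟨v, h1, h2⟩ := h
  rw [← h1, ← h2]
  simp only [mul_apply, map_sum, conjTranspose_apply]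
  rw [Finset.sum_comm]
  refine Finset.sum_congr rfl fun i _ => Finset.sum_congr rfl fun j _ => ?_
  rw [hτ]

section blk

variable {J : Type} {d : J → ℕ} {I : Type} [Fintype I] [DecidableEq I] [Fintype J]

/-- blocks of a matrix over a product of matrix algebras -/
def blk (P : Matrix I I (FA d)) (j : J) : Matrix (I × Fin (d j)) (I × Fin (d j)) ℂ :=
  Matrix.of fun a b => ((P a.1 b.1) j).en a.2 b.2

/-- the matrix with given blocks -/
def unblk (v : ∀ j : J, Matrix (I × Fin (d j)) (I × Fin (d j)) ℂ) : Matrix I I (FA d) :=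
  Matrix.of fun i i' => fun j => MA.of fun a a' => v j (i, a) (i', a')

lemma blk_unblk (v : ∀ j : J, Matrix (I × Fin (d j)) (I × Fin (d j)) ℂ) (j : J) :
    blk (unblk v) j = v j := rfl

lemma blk_inj {P Q : Matrix I I (FA d)} (h : ∀ j, blk P j = blk Q j) : P = Q := by
  ext i i' j a a'
  exact congrFun (congrFun (h j) (i, a)) (i', a')

lemma sum_apply_FA {ι : Type} (s : Finset ι) (f : ι → FA d) (j : J) :
    (∑ k ∈ s, f k) j = ∑ k ∈ s, f k j := Finset.sum_apply _ _ _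

lemma blk_mul (P Q : Matrix I I (FA d)) (j : J) : blk (P * Q) j = blk P j * blk Q j := by
  ext a b
  rw [mul_apply, Fintype.sum_prod_type]
  show (((P * Q) a.1 b.1) j).en a.2 b.2 = _
  rw [mul_apply, sum_apply_FA, MA.en_sum]
  refine Finset.sum_congr rfl fun k _ => ?_
  show (P a.1 k j * Q k b.1 j).en a.2 b.2 = _
  rw [MA.en_mul]
  rfl

lemma blk_star (P : Matrix I I (FA d)) (j : J) : blk Pᴴ j = (blk P j)ᴴ := by
  ext a b
  rfl

lemma blk_proj {P : Matrix I I (FA d)} (hP : IsPrj P) (j : J) : IsStarProjection (blk P j) := by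
  refine ⟨?_, ?_⟩
  · show blk P j * blk P j = blk P j
    rw [← blk_mul, hP.2]
  · show (blk P j)ᴴ = blk P j
    rw [← blk_star, hP.1]

lemma blk_trace (P : Matrix I I (FA d)) (j : J) : (blk P j).trace = ∑ i, tr (P i i j) := by
  rw [Matrix.trace, Fintype.sum_prod_type]
  rfl

lemma exists_blk {P Q : Matrix I I (FA d)} (hP : IsPrj P) (hQ : IsPrj Q) (j : J)
    (h : ∑ i, tr (P i i j) = ∑ i, tr (Q i i j)) :
    ∃ v : Matrix (I × Fin (d j)) (I × Fin (d j)) ℂ, vᴴ * v = blk P j ∧ v * vᴴ = blk Q j :=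
  JA.rk _ _ (blk_proj hP j) (blk_proj hQ j) (by rw [blk_trace, blk_trace, h])

/-- trace of the `j`-th block -/
def bt (d : J → ℕ) (j : J) : FA d →ₗ[ℂ] ℂ := tr.comp (LinearMap.proj j)

lemma bt_apply (j : J) (x : FA d) : bt d j x = tr (x j) := rfl

theorem detects_FA (d : J → ℕ) : Detects (bt d) where
  comm j x y := tr_mul_comm (x j) (y j)
  det {I} _ _ P Q hP hQ h := by
    choose v hv1 hv2 using fun j => exists_blk hP hQ j (h j)
    refine ⟨unblk v, blk_inj fun j => ?_, blk_inj fun j => ?_⟩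
    · rw [blk_mul, blk_star, blk_unblk, hv1]
    · rw [blk_mul, blk_star, blk_unblk, hv2]

end blk

section lim

variable {A : ℕ → Type} [∀ n, CStarAlgebra (A n)] [∀ n, Nontrivial (A n)]
  {φ : ∀ n, A n →⋆ₐ[ℂ] A (n + 1)} {L : Type} [CStarAlgebra L] {j : ∀ n, A n →⋆ₐ[ℂ] L}

lemma exists_trans (h : IsLim φ j) {n m : ℕ} (hnm : n ≤ m) :
    ∃ g : A n →⋆ₐ[ℂ] A m, ∀ x, j m (g x) = j n x := by
  induction m, hnm using Nat.le_induction with
  | base => exact ⟨StarAlgHom.id ℂ _, fun x => rfl⟩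
  | succ m hm ih =>
    obtain ⟨g, hg⟩ := ih
    refine ⟨(φ m).comp g, fun x => ?_⟩
    show j (m + 1) (φ m (g x)) = _
    rw [h.comp, hg]

lemma Eqv.map_eq {B C D : Type} [CStarAlgebra B] [CStarAlgebra C] [CStarAlgebra D] {I : Type}
    [Fintype I] {P Q : Matrix I I B} {g : B →⋆ₐ[ℂ] C} {k : C →⋆ₐ[ℂ] D} {l : B →⋆ₐ[ℂ] D}
    (h : Eqv (P.map g) (Q.map g)) (hk : ∀ x, k (g x) = l x) : Eqv (P.map l) (Q.map l) := by
  have h1 := Eqv.map h k
  have h2 : ∀ R : Matrix I I B, (R.map g).map k = R.map l := by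
    intro R
    ext a b
    exact hk _
  rwa [h2, h2] at h1

theorem cancel (h : IsLim φ j) {K : ℕ → Type} (τ : ∀ n, K n → A n →ₗ[ℂ] ℂ)
    (hτ : ∀ n, Detects (τ n)) {I I' : Type} [Fintype I] [DecidableEq I] [Fintype I']
    [DecidableEq I'] (P Q : Matrix I I L) (R : Matrix I' I' L) (hP : IsPrj P) (hQ : IsPrj Q)
    (hR : IsPrj R) (hPQ : Eqv (fromBlocks P 0 0 R) (fromBlocks Q 0 0 R)) : Eqv P Q := by
  obtain ⟨N1, h1⟩ := lim1 h P hP
  obtain ⟨N2, h2⟩ := lim1 h Q hQ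
  obtain ⟨N3, h3⟩ := lim1 h R hR
  obtain ⟨n, hn1, hn2, hn3⟩ : ∃ n, N1 ≤ n ∧ N2 ≤ n ∧ N3 ≤ n :=
    ⟨max N1 (max N2 N3), le_max_left _ _, (le_max_left _ _).trans (le_max_right _ _),
      (le_max_right _ _).trans (le_max_right _ _)⟩
  obtain ⟨P', hP1, hP2⟩ := h1 n hn1
  obtain ⟨Q', hQ1, hQ2⟩ := h2 n hn2
  obtain ⟨R', hR1, hR2⟩ := h3 n hn3
  have hb : ∀ (X : Matrix I I (A n)), (fromBlocks X 0 0 R').map (j n) =
      fromBlocks (X.map (j n)) 0 0 (R'.map (j n)) := by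
    intro X
    rw [fromBlocks_map]
    congr 1 <;> (ext a b; simp)
  have hPR := hP1.blocks hR1
  have hQR := hQ1.blocks hR1
  have h4 : Eqv ((fromBlocks P' 0 0 R').map (j n)) ((fromBlocks Q' 0 0 R').map (j n)) := by
    have h5 : Eqv ((fromBlocks P' 0 0 R').map (j n)) (fromBlocks P 0 0 R) := by
      rw [hb]; exact (Eqv.blocks hP2 hR2).symm
    have h6 : Eqv (fromBlocks Q 0 0 R) ((fromBlocks Q' 0 0 R').map (j n)) := by
      rw [hb]; exact Eqv.blocks hQ2 hR2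
    exact Eqv.trans (hPR.map _) (hQR.map _) h5
      (Eqv.trans (hP.blocks hR) (hQR.map _) hPQ h6)
  obtain ⟨m, hnm, hm⟩ := lim2 h _ _ hPR hQR h4
  obtain ⟨g, hg⟩ := exists_trans h hnm
  have h7 := hm g hg
  have h8 : Eqv (P'.map g) (Q'.map g) := by
    refine (hτ m).det _ _ (hP1.map g) (hQ1.map g) fun k => ?_
    have h9 := Eqv.trace (τ m k) ((hτ m).comm k) h7
    rw [Fintype.sum_sum_type, Fintype.sum_sum_type] at h9
    exact add_right_cancel h9
  have h9 : Eqv (P'.map (j n)) (Q'.map (j n)) := Eqv.map_eq h8 hg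
  exact Eqv.trans hP hQ hP2 (Eqv.trans (hP1.map _) hQ h9 hQ2.symm)

/-- equality in `K_0` of the limit implies equivalence, for projections of the limit -/
theorem K0_cancel (h : IsLim φ j) {K : ℕ → Type} (τ : ∀ n, K n → A n →ₗ[ℂ] ℂ)
    (hτ : ∀ n, Detects (τ n)) (p q : L) (hp : IsStarProjection p) (hq : IsStarProjection q)
    (hpq : K0.cls (Prj.of p hp) = K0.cls (Prj.of q hq)) :
    ∃ v : L, star v * v = p ∧ v * star v = q := by
  obtain ⟨R, hR⟩ := K0.cls_eq.1 hpq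
  have h1 : Eqv (fromBlocks (Prj.of p hp).mat 0 0 R.mat) (fromBlocks (Prj.of q hq).mat 0 0 R.mat) :=
    Eqv.trans ((Prj.of p hp).isPrj.blocks R.isPrj) ((Prj.of q hq).isPrj.blocks R.isPrj)
      (Prj.add_eqv _ _) (Eqv.trans (Prj.add _ _).isPrj ((Prj.of q hq).isPrj.blocks R.isPrj) hR
        (Prj.add_eqv _ _).symm)
  obtain ⟨v, hv1, hv2⟩ : Eqv (Matrix.of fun (_ _ : Fin 1) => p)
      (Matrix.of fun (_ _ : Fin 1) => q) :=
    cancel h τ hτ _ _ _ (Prj.of p hp).isPrj (Prj.of q hq).isPrj R.isPrj h1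
  refine ⟨v (0 : Fin 1) (0 : Fin 1), ?_, ?_⟩
  · have := congrFun (congrFun hv1 (0 : Fin 1)) (0 : Fin 1)
    rw [mul_apply] at this
    have h2 : ∑ k : Fin 1, (vᴴ) (0 : Fin 1) k * v k (0 : Fin 1) =
      star (v (0 : Fin 1) (0 : Fin 1)) * v (0 : Fin 1) (0 : Fin 1) := by
      rw [Fin.sum_univ_one]; rfl
    exact h2.symm.trans this
  · have := congrFun (congrFun hv2 (0 : Fin 1)) (0 : Fin 1)
    rw [mul_apply] at this
    have h2 : ∑ k : Fin 1, v (0 : Fin 1) k * (vᴴ) k (0 : Fin 1) =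
      v (0 : Fin 1) (0 : Fin 1) * star (v (0 : Fin 1) (0 : Fin 1)) := by
      rw [Fin.sum_univ_one]; rfl
    exact h2.symm.trans this

/-- conversely, equivalent projections have equal classes -/
theorem K0_of_eqv (p q v : L) (hp : IsStarProjection p) (hq : IsStarProjection q)
    (h1 : star v * v = p) (h2 : v * star v = q) :
    K0.cls (Prj.of p hp) = K0.cls (Prj.of q hq) := by
  unfold K0.cls
  congr 1
  rw [V.mk_eq]
  refine ⟨Matrix.of fun _ _ => v, ?_, ?_⟩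
  · ext a b
    rw [mul_apply]
    have h2 : ∀ k : Fin 1, ((Matrix.of fun _ _ => v : Matrix (Fin 1) (Fin 1) L)ᴴ) a k *
      (Matrix.of fun _ _ => v : Matrix (Fin 1) (Fin 1) L) k b = p := fun k => h1
    exact (Finset.sum_congr rfl fun k _ => h2 k).trans (Fin.sum_univ_one _)
  · ext a b
    rw [mul_apply]
    have h3 : ∀ k : Fin 1, (Matrix.of fun _ _ => v : Matrix (Fin 1) (Fin 1) L) a k *
      ((Matrix.of fun _ _ => v : Matrix (Fin 1) (Fin 1) L)ᴴ) k b = q := fun k => h2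
    exact (Finset.sum_congr rfl fun k _ => h3 k).trans (Fin.sum_univ_one _)

/-- a *-homomorphism which agrees with the canonical map up to trace preserving stage maps fixes
all classes of projections -/
theorem eqv_map_of_stage (h : IsLim φ j) {K : ℕ → Type} (τ : ∀ n, K n → A n →ₗ[ℂ] ℂ)
    (hτ : ∀ n, Detects (τ n)) (χ : L →⋆ₐ[ℂ] L)
    (hχ : ∀ N, ∃ n, N ≤ n ∧ ∃ m, ∃ (g l : A n →⋆ₐ[ℂ] A m), (∀ x, j m (l x) = j n x) ∧
      (∀ x, j m (g x) = χ (j n x)) ∧ ∀ k x, τ m k (g x) = τ m k (l x))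
    {I : Type} [Fintype I] [DecidableEq I] (P : Matrix I I L) (hP : IsPrj P) :
    Eqv P (P.map χ) := by
  obtain ⟨N, hN⟩ := lim1 h P hP
  obtain ⟨n, hNn, m, g, l, hl, hg, ht⟩ := hχ N
  obtain ⟨P', hP1, hP2⟩ := hN n hNn
  have h1 : Eqv (P'.map l) (P'.map g) :=
    (hτ m).det _ _ (hP1.map l) (hP1.map g) fun k => by
      refine Finset.sum_congr rfl fun i _ => ?_
      exact (ht k _).symm
  have h2 := Eqv.map h1 (j m)
  have h3 : (P'.map l).map (j m) = P'.map (j n) := by ext a b; exact hl _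
  have h4 : (P'.map g).map (j m) = (P'.map (j n)).map χ := by ext a b; exact hg _
  rw [h3, h4] at h2
  exact Eqv.trans hP (hP.map χ) hP2 (Eqv.trans (hP1.map _) (hP.map χ) h2 (Eqv.map hP2 χ).symm)

end lim

end Pool.Agent.TH249
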