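import Mathlib
import Pool.Agent.TH249.Cancel

/-!
The Bratteli system.
-/

set_option autoImplicit false
set_option linter.unusedSectionVars false

noncomputable section

namespace Pool.Agent.TH249

open Matrix Pool.Agent.H188R3

/-- `M_I(ℂ)` as matrices -/
def matHom (I : Type) [Fintype I] [DecidableEq I] : MA I ℂ →⋆ₐ[ℂ] Matrix I I ℂ where
  toFun := toMat
  map_one' := rfl
  map_mul' _ _ := rfl
  map_zero' := rfl
  map_add' _ _ := rfl
  commutes' c := by
    ext i j
    show (algebraMap ℂ (MA I ℂ) c).en i j = _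
    rw [MA.en_algebraMap, Matrix.algebraMap_matrix_apply]
  map_star' _ := rfl

/-- matrices as elements of `M_I(ℂ)` -/
def matHom' (I : Type) [Fintype I] [DecidableEq I] : Matrix I I ℂ →⋆ₐ[ℂ] MA I ℂ where
  toFun := ofMat
  map_one' := rfl
  map_mul' _ _ := rfl
  map_zero' := rfl
  map_add' _ _ := rfl
  commutes' c := by
    ext i j
    show (algebraMap ℂ (Matrix I I ℂ) c) i j = _
    rw [MA.en_algebraMap, Matrix.algebraMap_matrix_apply]
  map_star' _ := rfl

/-- a *-homomorphism into a product -/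
def piHom {A J : Type} [CStarAlgebra A] {B : J → Type} [∀ j, Ring (B j)] [∀ j, StarRing (B j)]
    [∀ j, Algebra ℂ (B j)] (f : ∀ j, A →⋆ₐ[ℂ] B j) : A →⋆ₐ[ℂ] ∀ j, B j where
  toFun x j := f j x
  map_one' := by funext j; simp
  map_mul' _ _ := by funext j; simp
  map_zero' := by funext j; simp
  map_add' _ _ := by funext j; simp
  commutes' c := by funext j; exact AlgHomClass.commutes (f j) c
  map_star' _ := by funext j; exact map_star (f j) _

/-- evaluation -/
def evHom {J : Type} {B : J → Type} [∀ j, Ring (B j)] [∀ j, StarRing (B j)]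
    [∀ j, Algebra ℂ (B j)] (j : J) : (∀ j, B j) →⋆ₐ[ℂ] B j where
  toFun x := x j
  map_one' := rfl
  map_mul' _ _ := rfl
  map_zero' := rfl
  map_add' _ _ := rfl
  commutes' _ := rfl
  map_star' _ := rfl

/-- products of *-homomorphisms -/
def piMap {J : Type} {A B : J → Type} [∀ j, Ring (A j)] [∀ j, StarRing (A j)]
    [∀ j, Algebra ℂ (A j)] [∀ j, Ring (B j)] [∀ j, StarRing (B j)]
    [∀ j, Algebra ℂ (B j)] (f : ∀ j, A j →⋆ₐ[ℂ] B j) : (∀ j, A j) →⋆ₐ[ℂ] ∀ j, B j where
  toFun x j := f j (x j)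
  map_one' := by funext j; simp
  map_mul' _ _ := by funext j; simp
  map_zero' := by funext j; simp
  map_add' _ _ := by funext j; simp
  commutes' c := by funext j; exact AlgHomClass.commutes (f j) c
  map_star' _ := by funext j; exact map_star (f j) _

lemma tr_eq_trace {I : Type} [Fintype I] [DecidableEq I] (x : MA I ℂ) :
    tr x = (matHom I x).trace := rfl

theorem ueMA {J : Type} [Fintype J] [DecidableEq J] (K : J → Type) [∀ j, Fintype (K j)]
    [∀ j, DecidableEq (K j)] (a : ∀ j, K j) {L : Type} [Fintype L] [DecidableEq L]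
    (ψ ψ' : (∀ j, MA (K j) ℂ) →⋆ₐ[ℂ] MA L ℂ) (h : ∀ x, tr (ψ x) = tr (ψ' x)) :
    ∃ U : MA L ℂ, star U * U = 1 ∧ U * star U = 1 ∧ ∀ x, ψ' x = U * ψ x * star U := by
  set p : (∀ j, Matrix (K j) (K j) ℂ) →⋆ₐ[ℂ] (∀ j, MA (K j) ℂ) := piMap fun j => matHom' (K j)
  obtain ⟨U, h1, h2, h3⟩ := JD.ue K a (fun p q hp hq hpq => JA.rk p q hp hq hpq)
    ((matHom L).comp (ψ.comp p)) ((matHom L).comp (ψ'.comp p)) (fun x => h (p x))
  refine ⟨matHom' L U, ?_, ?_, fun x => ?_⟩
  · rw [← map_star, ← map_mul, h1, map_one]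
  · rw [← map_star, ← map_mul, h2, map_one]
  · have h4 := h3 (fun j => matHom (K j) (x j))
    have h5 := congrArg (matHom' L) h4
    rw [map_mul, map_mul, map_star] at h5
    exact h5

theorem existsHomMA {J : Type} [Fintype J] [DecidableEq J] (d N : J → ℕ) (D' : ℕ)
    (hD : D' = ∑ j, N j * d j) :
    ∃ f : FA d →⋆ₐ[ℂ] MA (Fin D') ℂ, ∀ x, tr (f x) = ∑ j, (N j : ℂ) * tr (x j) := by
  obtain ⟨f, hf⟩ := JD.exists_hom d N D' hD
  set p : FA d →⋆ₐ[ℂ] (∀ j, Matrix (Fin (d j)) (Fin (d j)) ℂ) :=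
    piMap (A := fun j => MA (Fin (d j)) ℂ) (B := fun j => Matrix (Fin (d j)) (Fin (d j)) ℂ)
      fun j => matHom (Fin (d j)) with hp
  refine ⟨(matHom' (Fin D')).comp (f.comp p), fun x => ?_⟩
  exact hf (p x)

/-- the parameter -/
def hh (n : ℕ) : ℕ := 2 ^ (n + 2)

lemma hh_succ (n : ℕ) : hh (n + 1) = 2 * hh n := by unfold hh; ring

/-- the multiplicity matrices of the inclusions -/
def TT (n : ℕ) : Matrix (Fin 4) (Fin 4) ℕ :=
  !![1, 0, 0, 0; hh n, 1, 0, 2; hh n + 1, hh n + 1, 2 * hh n + 2, 0;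
    1, hh n + 1, 1, 2 * hh n + 1]

/-- the multiplicity matrices of the twisted inclusions -/
def SS (n : ℕ) : Matrix (Fin 4) (Fin 4) ℕ :=
  !![1, 0, 0, 0; hh n + 1, 1, 2, 0; 0, hh n + 1, 0, 2 * hh n + 2;
    hh n + 1, hh n + 1, 2 * hh n + 1, 1]

lemma SS_SS (n : ℕ) : SS (n + 1) * SS n = TT (n + 1) * TT n := by
  unfold SS TT
  rw [hh_succ]
  ext i j
  fin_cases i <;> fin_cases j <;>
    simp [Matrix.mul_apply, Fin.sum_univ_four] <;> ring

lemma SS_TT (n : ℕ) : SS (n + 1) * TT n = TT (n + 1) * SS n := by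
  unfold SS TT
  rw [hh_succ]
  ext i j
  fin_cases i <;> fin_cases j <;>
    simp [Matrix.mul_apply, Fin.sum_univ_four] <;> ring

/-- the two block sizes -/
def ab : ℕ → ℕ × ℕ
  | 0 => (1, 1)
  | n + 1 => (2 * (hh n + 1) + (ab n).1 + 2 * (ab n).2,
      2 * (hh n + 1) + (hh n + 1) * (ab n).1 + 2 * (hh n + 1) * (ab n).2)

/-- block sizes -/
def DD (n : ℕ) : Fin 4 → ℕ := ![2, (ab n).1, (ab n).2, (ab n).2 + 1]

lemma DD_TT (n : ℕ) (i : Fin 4) : DD (n + 1) i = ∑ j, TT n i j * DD n j := by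
  fin_cases i <;> simp [DD, TT, ab, Fin.sum_univ_four] <;> ring

lemma DD_SS (n : ℕ) (i : Fin 4) : DD (n + 1) i = ∑ j, SS n i j * DD n j := by
  fin_cases i <;> simp [DD, SS, ab, Fin.sum_univ_four] <;> ring

lemma ab_pos (n : ℕ) : 0 < (ab n).1 ∧ 0 < (ab n).2 := by
  induction n with
  | zero => exact ⟨one_pos, one_pos⟩
  | succ n ih =>
    obtain ⟨h1, h2⟩ := ih
    refine ⟨?_, ?_⟩
    · show 0 < 2 * (hh n + 1) + (ab n).1 + 2 * (ab n).2
      omega
    · show 0 < 2 * (hh n + 1) + (hh n + 1) * (ab n).1 + 2 * (hh n + 1) * (ab n).2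
      positivity

lemma DD_pos (n : ℕ) (i : Fin 4) : 0 < DD n i := by
  have := ab_pos n
  fin_cases i
  · show 0 < 2; norm_num
  · exact this.1
  · exact this.2
  · show 0 < (ab n).2 + 1; omega

/-- the finite stages -/
abbrev En (n : ℕ) : Type := FA (DD n)

/-- the distinguished block -/
def xb (n : ℕ) : En n →⋆ₐ[ℂ] MA (Fin 2) ℂ := evHom (B := fun j => MA (Fin (DD n j)) ℂ) (0 : Fin 4)

lemma xb_apply (n : ℕ) (x : En n) : xb n x = x 0 := rfl

instance (n : ℕ) : Nontrivial (En n) := by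
  refine ⟨0, 1, fun h => ?_⟩
  have h1 := congrArg (xb n) h
  rw [map_zero, map_one] at h1
  have h2 := congrArg (fun z => MA.en z 0 0) h1
  rw [MA.en_one, MA.en_zero] at h2
  simp at h2

/-- a *-homomorphism with given multiplicities, identical on the distinguished block -/
structure Good {n m : ℕ} (N : Matrix (Fin 4) (Fin 4) ℕ) (f : En n →⋆ₐ[ℂ] En m) : Prop where
  x0 : ∀ x, xb m (f x) = xb n x
  trc : ∀ i x, tr (f x i) = ∑ j, (N i j : ℂ) * tr (x j)

lemma Good.comp {n m k : ℕ} {N M : Matrix (Fin 4) (Fin 4) ℕ} {f : En n →⋆ₐ[ℂ] En m}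
    {g : En m →⋆ₐ[ℂ] En k} (hg : Good M g) (hf : Good N f) : Good (M * N) (g.comp f) where
  x0 x := by
    show xb k (g (f x)) = _
    rw [hg.x0, hf.x0]
  trc i x := by
    show tr (g (f x) i) = _
    rw [hg.trc]
    simp only [hf.trc, Finset.mul_sum]
    rw [Finset.sum_comm]
    refine Finset.sum_congr rfl fun j _ => ?_
    rw [Matrix.mul_apply]
    push_cast
    rw [Finset.sum_mul]
    refine Finset.sum_congr rfl fun k _ => ?_
    ring

lemma exists_good {n : ℕ} (N : Matrix (Fin 4) (Fin 4) ℕ)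
    (hN : ∀ i, DD (n + 1) i = ∑ j, N i j * DD n j) (hN0 : ∀ j, N 0 j = if j = 0 then 1 else 0) :
    ∃ f : En n →⋆ₐ[ℂ] En (n + 1), Good N f := by
  choose g hg using fun i => existsHomMA (DD n) (N i) (DD (n + 1) i) (hN i)
  let F : ∀ i : Fin 4, En n →⋆ₐ[ℂ] MA (Fin (DD (n + 1) i)) ℂ :=
    Fin.cons (α := fun i => En n →⋆ₐ[ℂ] MA (Fin (DD (n + 1) i)) ℂ) (xb n) (fun i => g i.succ)
  refine ⟨piHom F, ⟨fun x => rfl, fun i x => ?_⟩⟩
  show tr (F i x) = _
  refine Fin.cases ?_ (fun i => ?_) i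
  · show tr (xb n x) = _
    simp only [hN0]
    rw [Finset.sum_eq_single 0]
    · rw [if_pos rfl]; simp; rfl
    · intro b _ hb
      simp [hb]
    · simp
  · exact hg i.succ x

lemma exists_TT (n : ℕ) : ∃ f : En n →⋆ₐ[ℂ] En (n + 1), Good (TT n) f :=
  exists_good (TT n) (DD_TT n) (by intro j; fin_cases j <;> simp [TT])

lemma exists_SS (n : ℕ) : ∃ f : En n →⋆ₐ[ℂ] En (n + 1), Good (SS n) f :=
  exists_good (SS n) (DD_SS n) (by intro j; fin_cases j <;> simp [SS])

/-- conjugation by a unitary -/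
def adHom {B : Type} [CStarAlgebra B] (w : B) (h1 : star w * w = 1) (h2 : w * star w = 1) :
    B →⋆ₐ[ℂ] B where
  toFun x := w * x * star w
  map_one' := by rw [mul_one, h2]
  map_mul' x y := by
    calc w * (x * y) * star w = w * x * 1 * y * star w := by noncomm_ring
      _ = w * x * (star w * w) * y * star w := by rw [h1]
      _ = w * x * star w * (w * y * star w) := by noncomm_ring
  map_zero' := by simp
  map_add' x y := by noncomm_ring
  commutes' c := by
    rw [Algebra.algebraMap_eq_smul_one, mul_smul_comm, smul_mul_assoc, mul_one, h2]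
  map_star' x := by
    simp only [star_mul, star_star, mul_assoc]

lemma adHom_apply {B : Type} [CStarAlgebra B] (w : B) (h1 : star w * w = 1)
    (h2 : w * star w = 1) (x : B) : adHom w h1 h2 x = w * x * star w := rfl

/-- good maps with the same multiplicities are unitarily equivalent -/
lemma Good.ue {n m : ℕ} {N : Matrix (Fin 4) (Fin 4) ℕ} {f f' : En n →⋆ₐ[ℂ] En m}
    (hf : Good N f) (hf' : Good N f') :
    ∃ w : En m, star w * w = 1 ∧ w * star w = 1 ∧ xb m w = 1 ∧ ∀ x, f' x = w * f x * star w := by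
  choose U h1 h2 h3 using fun i : Fin 4 => ueMA (fun j => Fin (DD n j))
    (fun j => ⟨0, DD_pos n j⟩)
    ((evHom (B := fun j => MA (Fin (DD m j)) ℂ) i).comp f)
    ((evHom (B := fun j => MA (Fin (DD m j)) ℂ) i).comp f')
    (fun x => by
      show tr (f x i) = tr (f' x i)
      rw [hf.trc, hf'.trc])
  let W : En m := Fin.cons (α := fun i => MA (Fin (DD m i)) ℂ) (1 : MA (Fin 2) ℂ)
    (fun i => U i.succ)
  refine ⟨W, ?_, ?_, rfl, fun x => ?_⟩
  · funext i
    refine Fin.cases ?_ (fun i => ?_) i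
    · show star (1 : MA (Fin 2) ℂ) * (1 : MA (Fin 2) ℂ) = 1
      rw [star_one, mul_one]
    · exact h1 i.succ
  · funext i
    refine Fin.cases ?_ (fun i => ?_) i
    · show (1 : MA (Fin 2) ℂ) * star (1 : MA (Fin 2) ℂ) = 1
      rw [star_one, mul_one]
    · exact h2 i.succ
  · funext i
    refine Fin.cases ?_ (fun i => ?_) i
    · show xb m (f' x) = (1 : MA (Fin 2) ℂ) * xb m (f x) * star (1 : MA (Fin 2) ℂ)
      rw [hf'.x0, hf.x0, star_one, mul_one, one_mul]
    · exact h3 i.succ x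

lemma Good.ad {n m : ℕ} {N : Matrix (Fin 4) (Fin 4) ℕ} {f : En n →⋆ₐ[ℂ] En m}
    (hf : Good N f) (w : En m) (h1 : star w * w = 1) (h2 : w * star w = 1) (h3 : xb m w = 1) :
    Good N ((adHom w h1 h2).comp f) where
  x0 x := by
    show xb m (w * f x * star w) = _
    rw [map_mul, map_mul, map_star, h3, hf.x0, star_one, mul_one, one_mul]
  trc i x := by
    show tr (w i * f x i * star (w i)) = _
    rw [tr_mul_comm, ← mul_assoc]
    have : star (w i) * w i = 1 := congrFun h1 i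
    rw [this, one_mul, hf.trc]

/-- the data of the construction -/
structure Data where
  /-- the inclusions -/
  io : ∀ n, En n →⋆ₐ[ℂ] En (n + 1)
  /-- the twisted inclusions -/
  c : ∀ n, En n →⋆ₐ[ℂ] En (n + 1)
  hio : ∀ n, Good (TT n) (io n)
  hc : ∀ n, Good (SS n) (c n)
  hcc : ∀ n x, c (n + 1) (c n x) = io (n + 1) (io n x)

theorem exists_data : Nonempty Data := by
  choose io hio using exists_TT
  choose s hs using exists_SS
  have step : ∀ n (c : En n →⋆ₐ[ℂ] En (n + 1)), Good (SS n) c →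
      ∃ c' : En (n + 1) →⋆ₐ[ℂ] En (n + 1 + 1), Good (SS (n + 1)) c' ∧
        ∀ x, c' (c x) = io (n + 1) (io n x) := by
    intro n c hc
    have h1 : Good (TT (n + 1) * TT n) ((s (n + 1)).comp c) := by
      rw [← SS_SS]; exact (hs (n + 1)).comp hc
    have h2 : Good (TT (n + 1) * TT n) ((io (n + 1)).comp (io n)) := (hio (n + 1)).comp (hio n)
    obtain ⟨w, w1, w2, w3, w4⟩ := h1.ue h2
    refine ⟨(adHom w w1 w2).comp (s (n + 1)), (hs (n + 1)).ad w w1 w2 w3, fun x => ?_⟩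
    exact (w4 x).symm
  let cs : ∀ n, {c : En n →⋆ₐ[ℂ] En (n + 1) // Good (SS n) c} := fun n =>
    Nat.rec ⟨s 0, hs 0⟩ (fun n ih => ⟨Classical.choose (step n ih.1 ih.2),
      (Classical.choose_spec (step n ih.1 ih.2)).1⟩) n
  exact ⟨{
    io := io
    c := fun n => (cs n).1
    hio := hio
    hc := fun n => (cs n).2
    hcc := fun n x => (Classical.choose_spec (step n (cs n).1 (cs n).2)).2 x }⟩

end Pool.Agent.TH249
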