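import Mathlib
import Pool.Agent.TH249.Sys

/-!
The limit algebra: quotient, automorphism, functional.
-/

set_option autoImplicit false
set_option linter.unusedSectionVars false

noncomputable section

namespace Pool.Agent.TH249

open Matrix Pool.Agent.H188R3 Filter Topology

lemma tr_sq {I : Type} [Fintype I] [DecidableEq I] (x : MA I ℂ) :
    tr (star x * x) = ((∑ i, ∑ k, ‖x.en k i‖ ^ 2 : ℝ) : ℂ) := by
  rw [tr_apply]
  push_cast
  refine Finset.sum_congr rfl fun i _ => ?_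
  rw [MA.en_mul]
  refine Finset.sum_congr rfl fun k _ => ?_
  rw [MA.en_star]
  have := RCLike.conj_mul (K := ℂ) (x.en k i)
  simpa using this

lemma Good.inj {n m : ℕ} {N : Matrix (Fin 4) (Fin 4) ℕ} {f : En n →⋆ₐ[ℂ] En m} (hf : Good N f)
    (hN : ∀ i, 0 < N i i) : Function.Injective f := by
  rw [injective_iff_map_eq_zero]
  intro x hx
  funext i
  have h1 := hf.trc i (star x * x)
  rw [map_mul, hx, mul_zero] at h1
  have h0 : tr ((0 : En m) i) = 0 := map_zero _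
  rw [h0] at h1
  have h2 : ∀ k, tr ((star x * x) k) =
      ((∑ i, ∑ l, ‖(x k).en l i‖ ^ 2 : ℝ) : ℂ) := fun k => tr_sq (x k)
  simp only [h2] at h1
  have h3 : (0 : ℝ) = ∑ k, (N i k : ℝ) * (∑ a, ∑ l, ‖(x k).en l a‖ ^ 2) := by
    exact_mod_cast h1
  have hnn : ∀ k, 0 ≤ ∑ a, ∑ l, ‖(x k).en l a‖ ^ 2 := fun k =>
    Finset.sum_nonneg fun a _ => Finset.sum_nonneg fun l _ => by positivity
  have h4 := (Finset.sum_eq_zero_iff_of_nonneg (fun k _ =>
    mul_nonneg (Nat.cast_nonneg (N i k)) (hnn k))).1 h3.symm i (Finset.mem_univ i)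
  have h5 : ∑ a, ∑ l, ‖(x i).en l a‖ ^ 2 = 0 := by
    rcases mul_eq_zero.1 h4 with h | h
    · exact absurd (by exact_mod_cast h) (hN i).ne'
    · exact h
  ext a b
  have h6 := (Finset.sum_eq_zero_iff_of_nonneg (fun a _ =>
    Finset.sum_nonneg fun l _ => by positivity)).1 h5 b (Finset.mem_univ b)
  have h7 := (Finset.sum_eq_zero_iff_of_nonneg (fun a _ => by positivity)).1 h6 a
    (Finset.mem_univ a)
  have h8 : ‖(x i).en a b‖ = 0 := by simpa using h7
  exact norm_eq_zero.1 h8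

lemma TT_diag (n : ℕ) (i : Fin 4) : 0 < TT n i i := by
  fin_cases i <;> simp [TT]

lemma Data.io_inj (D : Data) (n : ℕ) : Function.Injective (D.io n) := (D.hio n).inj (TT_diag n)

section gen

variable {A : ℕ → Type} [∀ n, CStarAlgebra (A n)] [∀ n, Nontrivial (A n)]
  {φ : ∀ n, A n →⋆ₐ[ℂ] A (n + 1)} {L : Type} [CStarAlgebra L] {j : ∀ n, A n →⋆ₐ[ℂ] L}

lemma closed_ind (h : IsLim φ j) {p : L → Prop} (hp : IsClosed {y | p y})
    (hj : ∀ n x, p (j n x)) (y : L) : p y := by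
  have : y ∈ closure {y | p y} := by
    rw [Metric.mem_closure_iff]
    intro ε hε
    obtain ⟨n, x, hx⟩ := h.dense y ε hε
    exact ⟨j n x, hj n x, by rwa [dist_eq_norm]⟩
  rwa [hp.closure_eq] at this

lemma wd (h : IsLim φ j) (f : ∀ n, A n →ₗ[ℂ] ℂ) (hf : ∀ n x, f (n + 1) (φ n x) = f n x)
    {n m : ℕ} (hnm : n ≤ m) (x : A n) (y : A m) (hxy : j m y = j n x) : f m y = f n x := by
  induction m, hnm using Nat.le_induction with
  | base => rw [h.inj n hxy]
  | succ m hm ih =>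
    obtain ⟨z, hz⟩ := h.up hm x
    have h1 : y = φ m z := by
      apply h.inj (m + 1)
      rw [hxy, h.comp, hz]
    rw [h1, hf]
    exact ih z hz

lemma wd' (h : IsLim φ j) (f : ∀ n, A n →ₗ[ℂ] ℂ) (hf : ∀ n x, f (n + 1) (φ n x) = f n x)
    {n m : ℕ} (x : A n) (y : A m) (hxy : j m y = j n x) : f m y = f n x := by
  rcases le_total n m with hnm | hnm
  · exact wd h f hf hnm x y hxy
  · exact (wd h f hf hnm y x hxy.symm).symm

/-- the algebraic union of the stages -/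
def UU (h : IsLim φ j) : Submodule ℂ L where
  carrier := {y | ∃ n x, j n x = y}
  add_mem' := by
    rintro _ _ ⟨n, x, rfl⟩ ⟨m, y, rfl⟩
    obtain ⟨x', hx'⟩ := h.up (le_max_left n m) x
    obtain ⟨y', hy'⟩ := h.up (le_max_right n m) y
    exact ⟨max n m, x' + y', by rw [map_add, hx', hy']⟩
  zero_mem' := ⟨0, 0, map_zero _⟩
  smul_mem' := by
    rintro c _ ⟨n, x, rfl⟩
    exact ⟨n, c • x, map_smul _ _ _⟩

theorem exists_functional (h : IsLim φ j) (f : ∀ n, A n →ₗ[ℂ] ℂ)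
    (hf : ∀ n x, f (n + 1) (φ n x) = f n x) (C : ℝ) (hC : ∀ n x, ‖f n x‖ ≤ C * ‖x‖) :
    ∃ F : L →L[ℂ] ℂ, ∀ n x, F (j n x) = f n x := by
  choose N X hX using fun y : UU h => y.2
  have hval : ∀ (y : UU h) n (x : A n), j n x = y → f (N y) (X y) = f n x := by
    intro y n x hx
    refine wd' h f hf x (X y) ?_
    rw [hX, hx]
  let F0 : UU h →ₗ[ℂ] ℂ :=
    { toFun := fun y => f (N y) (X y)
      map_add' := by
        rintro ⟨_, n, x, rfl⟩ ⟨_, m, y, rfl⟩
        obtain ⟨x', hx'⟩ := h.up (le_max_left n m) x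
        obtain ⟨y', hy'⟩ := h.up (le_max_right n m) y
        rw [hval _ (max n m) (x' + y') (by rw [map_add, hx', hy']; rfl),
          hval _ (max n m) x' hx', hval _ (max n m) y' hy', map_add]
      map_smul' := by
        rintro c ⟨_, n, x, rfl⟩
        rw [hval _ n (c • x) (by rw [map_smul]; rfl), hval _ n x rfl, map_smul]
        rfl }
  have hb : ∀ y : UU h, ‖F0 y‖ ≤ C * ‖y‖ := by
    intro y
    show ‖f (N y) (X y)‖ ≤ C * ‖(y : L)‖
    rw [← hX y, norm_map_inj _ (h.inj _)]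
    exact hC _ _
  obtain ⟨F, hF, -⟩ := exists_extension_norm_eq (UU h) (F0.mkContinuous C hb)
  refine ⟨F, fun n x => ?_⟩
  have h1 := hF ⟨j n x, n, x, rfl⟩
  rw [LinearMap.mkContinuous_apply] at h1
  rw [h1]
  exact hval _ n x rfl

end gen

section sys

variable (D : Data) {E : Type} [CStarAlgebra E] {j : ∀ n, En n →⋆ₐ[ℂ] E} (h : IsLim D.io j)

include h

theorem exists_q : ∃ q : E →⋆ₐ[ℂ] MA (Fin 2) ℂ, ∀ n x, q (j n x) = xb n x :=
  h.lift (fun n => xb n) (fun n x => (D.hio n).x0 x)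

theorem exists_theta : ∃ θ : E ≃⋆ₐ[ℂ] E,
    (∀ n, Even n → ∀ x, θ (j n x) = j (n + 1) (D.c n x)) ∧
    (∀ n, Even (n + 1) → ∀ x, θ.symm (j n x) = j (n + 1) (D.c n x)) := by
  classical
  let g : ℕ → ∀ n, En n →⋆ₐ[ℂ] E := fun b n => if Even (n + b) then (j (n + 1)).comp (D.c n)
    else (j (n + 2)).comp ((D.c (n + 1)).comp (D.io n))
  have g1 : ∀ b n, Even (n + b) → ∀ x, g b n x = j (n + 1) (D.c n x) := by
    intro b n hbn x
    simp only [g, if_pos hbn]; rfl
  have g2 : ∀ b n, ¬ Even (n + b) → ∀ x, g b n x = j (n + 2) (D.c (n + 1) (D.io n x)) := by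
    intro b n hbn x
    simp only [g, if_neg hbn]; rfl
  have hg : ∀ b n x, g b (n + 1) (D.io n x) = g b n x := by
    intro b n x
    by_cases hb : Even (n + b)
    · have hb' : ¬ Even (n + 1 + b) := by
        rw [show n + 1 + b = n + b + 1 by ring, Nat.even_add_one, not_not]; exact hb
      rw [g1 b n hb, g2 b (n + 1) hb', ← D.hcc, D.hcc (n + 1), h.comp, h.comp]
    · have hb' : Even (n + 1 + b) := by
        rw [show n + 1 + b = n + b + 1 by ring, Nat.even_add_one]; exact hb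
      rw [g2 b n hb, g1 b (n + 1) hb']
  choose G hG using fun b => h.lift (g b) (hg b)
  have hinv : ∀ b, (G (b + 1)).comp (G b) = StarAlgHom.id ℂ E := by
    intro b
    have key : ∀ n, Even (n + b) → ∀ x, G (b + 1) (G b (j n x)) = j n x := by
      intro n hn x
      have hn' : Even (n + 1 + (b + 1)) := by
        rw [show n + 1 + (b + 1) = n + b + 2 by ring, Nat.even_add]
        simp [hn]
      rw [hG, g1 b n hn, hG, g1 (b + 1) (n + 1) hn', D.hcc, h.comp, h.comp]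
    refine h.hom_ext fun n x => ?_
    show G (b + 1) (G b (j n x)) = j n x
    by_cases hn : Even (n + b)
    · exact key n hn x
    · rw [← h.comp]
      refine key (n + 1) ?_ _
      rw [show n + 1 + b = n + b + 1 by ring, Nat.even_add_one]; exact hn
  have h20 : G 2 = G 0 := by
    refine h.hom_ext fun n x => ?_
    rw [hG, hG]
    by_cases hn : Even (n + 0)
    · rw [g1 0 n hn, g1 2 n (by rw [Nat.even_add]; simp_all)]
    · rw [g2 0 n hn, g2 2 n (by rw [Nat.even_add]; simp_all)]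
  have i1 : ∀ y, G 1 (G 0 y) = y := fun y => DFunLike.congr_fun (hinv 0) y
  have i2 : ∀ y, G 0 (G 1 y) = y := fun y => by
    have := DFunLike.congr_fun (hinv 1) y
    have h3 : G 2 (G 1 y) = y := this
    rwa [h20] at h3
  have hbij : Function.Bijective (G 0) :=
    ⟨fun x y hxy => by rw [← i1 x, ← i1 y, hxy], fun y => ⟨G 1 y, i2 y⟩⟩
  let θ : E ≃⋆ₐ[ℂ] E := StarAlgEquiv.ofBijective (G 0) hbij
  have hθ : ∀ y, θ y = G 0 y := fun y => rfl
  refine ⟨θ, fun n hn x => ?_, fun n hn x => ?_⟩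
  · rw [hθ, hG, g1 0 n (by simpa using hn)]
  · rw [StarAlgEquiv.symm_apply_eq, hθ]
    have h5 := hG 1 n x
    rw [g1 1 n hn] at h5
    rw [← h5, i2]

end sys

/-- values for the functional -/
def lam : Fin 4 → ℤ := ![1, 0, 2, -2]

/-- denominators -/
def LL (n : ℕ) : ℕ := ∏ m ∈ Finset.range n, (2 * hh m + 1)

lemma LL_succ (n : ℕ) : LL (n + 1) = LL n * (2 * hh n + 1) := Finset.prod_range_succ _ _

lemma LL_pos (n : ℕ) : 0 < LL n := Finset.prod_pos fun m _ => by omega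

lemma lam_TT (n : ℕ) (k : Fin 4) : ∑ i, lam i * (TT n i k : ℤ) = (2 * hh n + 1) * lam k := by
  fin_cases k <;> simp [lam, TT, Fin.sum_univ_four] <;> ring

lemma lam_SS (n : ℕ) (k : Fin 4) : ∑ i, lam i * (SS n i k : ℤ) = -((2 * hh n + 1) * lam k) := by
  fin_cases k <;> simp [lam, SS, Fin.sum_univ_four] <;> ring

lemma sum_DD (n : ℕ) : ∑ i, DD (n + 1) i = (2 * hh n + 3) * ∑ i, DD n i := by
  simp [DD, ab, Fin.sum_univ_four]; ring

lemma bound_DD (n : ℕ) : (∑ i, DD n i) * 2 ^ n + 6 * LL n ≤ 12 * 2 ^ n * LL n := by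
  induction n with
  | zero => simp [DD, ab, Fin.sum_univ_four, LL]
  | succ n ih =>
    rw [sum_DD, LL_succ]
    have h1 : hh n = 4 * 2 ^ n := by unfold hh; ring
    rw [h1]
    set y : ℕ := 2 ^ n
    set S := ∑ i, DD n i
    set l := LL n
    have h2 : 2 ^ (n + 1) = 2 * y := by rw [pow_succ]; ring
    rw [h2]
    nlinarith [Nat.zero_le (S), Nat.zero_le l, Nat.mul_le_mul_left (2 * (8 * y + 3)) ih,
      Nat.zero_le (l * y)]

/-- the functional at a stage -/
def lf (n : ℕ) : En n →ₗ[ℂ] ℂ where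
  toFun x := (∑ b, (lam b : ℂ) * tr (x b)) / (LL n : ℂ)
  map_add' x y := by
    rw [← add_div, ← Finset.sum_add_distrib]
    congr 1
    refine Finset.sum_congr rfl fun b _ => ?_
    have : tr ((x + y) b) = tr (x b) + tr (y b) := map_add _ _ _
    rw [this]; ring
  map_smul' c x := by
    have : ∀ b, tr ((c • x) b) = c * tr (x b) := fun b => map_smul tr c (x b)
    simp only [this, RingHom.id_apply, smul_eq_mul]
    rw [← mul_div_assoc, Finset.mul_sum]
    congr 1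
    refine Finset.sum_congr rfl fun b _ => ?_
    ring

lemma lf_apply (n : ℕ) (x : En n) : lf n x = (∑ b, (lam b : ℂ) * tr (x b)) / (LL n : ℂ) := rfl

lemma lf_TT {n : ℕ} {f : En n →⋆ₐ[ℂ] En (n + 1)} (hf : Good (TT n) f) (x : En n) :
    lf (n + 1) (f x) = lf n x := by
  rw [lf_apply, lf_apply]
  have h1 : ∑ b, (lam b : ℂ) * tr (f x b) = (2 * hh n + 1 : ℂ) * ∑ b, (lam b : ℂ) * tr (x b) := by
    simp only [hf.trc, Finset.mul_sum]
    rw [Finset.sum_comm]
    refine Finset.sum_congr rfl fun k _ => ?_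
    have h2 := congrArg (fun z : ℤ => (z : ℂ)) (lam_TT n k)
    push_cast at h2
    rw [← mul_assoc, ← h2, Finset.sum_mul]
    refine Finset.sum_congr rfl fun i _ => ?_
    ring
  rw [h1, LL_succ]
  have h2 : (LL n : ℂ) ≠ 0 := Nat.cast_ne_zero.2 (LL_pos n).ne'
  have h3 : (2 * hh n + 1 : ℂ) ≠ 0 := by exact_mod_cast (Nat.succ_ne_zero (2 * hh n))
  push_cast
  field_simp

lemma lf_SS {n : ℕ} {f : En n →⋆ₐ[ℂ] En (n + 1)} (hf : Good (SS n) f) (x : En n) :
    lf (n + 1) (f x) = -lf n x := by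
  rw [lf_apply, lf_apply]
  have h1 : ∑ b, (lam b : ℂ) * tr (f x b) =
      -((2 * hh n + 1 : ℂ) * ∑ b, (lam b : ℂ) * tr (x b)) := by
    simp only [hf.trc, Finset.mul_sum]
    rw [Finset.sum_comm, ← Finset.sum_neg_distrib]
    refine Finset.sum_congr rfl fun k _ => ?_
    have h2 := congrArg (fun z : ℤ => (z : ℂ)) (lam_SS n k)
    push_cast at h2
    rw [← mul_assoc, ← neg_mul, ← h2, Finset.sum_mul]
    refine Finset.sum_congr rfl fun i _ => ?_
    ring
  rw [h1, LL_succ]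
  have h2 : (LL n : ℂ) ≠ 0 := Nat.cast_ne_zero.2 (LL_pos n).ne'
  have h3 : (2 * hh n + 1 : ℂ) ≠ 0 := by exact_mod_cast (Nat.succ_ne_zero (2 * hh n))
  push_cast
  field_simp

lemma norm_en_le {I : Type} [Fintype I] [DecidableEq I] (x : MA I ℂ) (i k : I) :
    ‖x.en i k‖ ≤ ‖x‖ := by
  let _ : PartialOrder ℂ := CStarAlgebra.spectralOrder ℂ
  let _ : StarOrderedRing ℂ := CStarAlgebra.spectralOrderedRing ℂ
  exact CStarMatrix.norm_entry_le_norm (M := (show CStarMatrix I I ℂ from x))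

lemma norm_tr_le {d : ℕ} (x : MA (Fin d) ℂ) : ‖tr x‖ ≤ d * ‖x‖ := by
  rw [tr_apply]
  calc ‖∑ i, x.en i i‖ ≤ ∑ i, ‖x.en i i‖ := norm_sum_le _ _
    _ ≤ ∑ _i : Fin d, ‖x‖ := Finset.sum_le_sum fun i _ => norm_en_le x i i
    _ = d * ‖x‖ := by simp

lemma lf_bound (n : ℕ) (x : En n) : ‖lf n x‖ ≤ 24 * ‖x‖ := by
  rw [lf_apply, norm_div]
  have h1 : ‖(LL n : ℂ)‖ = LL n := by simp
  rw [h1, div_le_iff₀ (by exact_mod_cast LL_pos n)]
  have h2 : ∀ b, ‖(lam b : ℂ)‖ ≤ 2 := by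
    intro b
    fin_cases b <;> simp [lam]
  calc ‖∑ b, (lam b : ℂ) * tr (x b)‖ ≤ ∑ b, ‖(lam b : ℂ) * tr (x b)‖ := norm_sum_le _ _
    _ ≤ ∑ b, 2 * (DD n b * ‖x‖) := by
        refine Finset.sum_le_sum fun b _ => ?_
        rw [norm_mul]
        refine mul_le_mul (h2 b) ((norm_tr_le (x b)).trans ?_) (norm_nonneg _) (by norm_num)
        exact mul_le_mul_of_nonneg_left (norm_le_pi_norm x b) (Nat.cast_nonneg _)
    _ = 2 * (∑ b, (DD n b : ℝ)) * ‖x‖ := by
        rw [Finset.mul_sum, Finset.sum_mul]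
        refine Finset.sum_congr rfl fun b _ => ?_
        ring
    _ ≤ 2 * (12 * LL n) * ‖x‖ := by
        have h3 := bound_DD n
        have h4 : (∑ i, DD n i) * 2 ^ n ≤ (12 * LL n) * 2 ^ n := by nlinarith
        have h5 : ∑ i, DD n i ≤ 12 * LL n := Nat.le_of_mul_le_mul_right h4 (by positivity)
        have h6 : (∑ b, (DD n b : ℝ)) ≤ 12 * LL n := by exact_mod_cast h5
        gcongr
    _ = 24 * ‖x‖ * LL n := by ring

section sys2

variable (D : Data) {E : Type} [CStarAlgebra E] {j : ∀ n, En n →⋆ₐ[ℂ] E} (h : IsLim D.io j)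

include h

theorem exists_Lam : ∃ F : E →L[ℂ] ℂ, ∀ n x, F (j n x) = lf n x :=
  exists_functional h lf (fun n x => lf_TT (D.hio n) x) 24 lf_bound

lemma lf_comm (n : ℕ) (x y : En n) : lf n (x * y) = lf n (y * x) := by
  rw [lf_apply, lf_apply]
  congr 1
  refine Finset.sum_congr rfl fun b _ => ?_
  congr 1
  exact tr_mul_comm (x b) (y b)

lemma Lam_comm {F : E →L[ℂ] ℂ} (hF : ∀ n x, F (j n x) = lf n x) (x y : E) :
    F (x * y) = F (y * x) := by
  have h1 : ∀ n (a : En n) y, F (j n a * y) = F (y * j n a) := by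
    intro n a
    refine closed_ind h (isClosed_eq (by fun_prop) (by fun_prop)) fun m b => ?_
    obtain ⟨a', ha'⟩ := h.up (le_max_left n m) a
    obtain ⟨b', hb'⟩ := h.up (le_max_right n m) b
    rw [← ha', ← hb', ← map_mul, ← map_mul, hF, hF, lf_comm D h]
  revert x
  refine closed_ind h (isClosed_eq (by fun_prop) (by fun_prop)) fun n a => h1 n a y

lemma q_theta {q : E →⋆ₐ[ℂ] MA (Fin 2) ℂ} (hq : ∀ n x, q (j n x) = xb n x) {θ : E ≃⋆ₐ[ℂ] E}
    (hθ : ∀ n, Even n → ∀ x, θ (j n x) = j (n + 1) (D.c n x)) (y : E) : q (θ y) = q y := by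
  have h1 : q.comp (θ : E →⋆ₐ[ℂ] E) = q := by
    refine h.hom_ext fun n x => ?_
    show q (θ (j n x)) = _
    by_cases hn : Even n
    · rw [hθ n hn, hq, hq, (D.hc n).x0]
    · rw [← h.comp, hθ (n + 1) (by rw [Nat.even_add_one]; exact hn), hq, hq, (D.hc _).x0]
  exact DFunLike.congr_fun h1 y

lemma Lam_theta {F : E →L[ℂ] ℂ} (hF : ∀ n x, F (j n x) = lf n x) {θ : E ≃⋆ₐ[ℂ] E}
    (hθ : ∀ n, Even n → ∀ x, θ (j n x) = j (n + 1) (D.c n x)) (y : E) : F (θ y) = -F y := by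
  have hc : Continuous θ := AddMonoidHomClass.continuous_of_bound (θ : E →⋆ₐ[ℂ] E) 1
    (fun x => by simpa using norm_map_le' (θ : E →⋆ₐ[ℂ] E) x)
  revert y
  refine closed_ind h (isClosed_eq (by fun_prop) (by fun_prop)) fun n x => ?_
  by_cases hn : Even n
  · rw [hθ n hn, hF, hF, lf_SS (D.hc n)]
  · rw [← h.comp, hθ (n + 1) (by rw [Nat.even_add_one]; exact hn), hF, hF, lf_SS (D.hc _)]

end sys2

end Pool.Agent.TH249
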