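import Mathlib
import Pool.Agent.TH249.LimE

/-!
Relations between exponentials: the determinant.
-/

set_option autoImplicit false
set_option linter.unusedSectionVars false

noncomputable section

namespace Pool.Agent.TH249

open Matrix Pool.Agent.H188R3 Filter Topology selfAdjoint

section rep

variable {E : Type} [CStarAlgebra E]

/-- `U` is a product of exponentials with given sums of values of two functionals -/
def Rep (f g : E →L[ℂ] ℂ) (U : E) (a b : ℂ) : Prop :=
  ∃ l : List (selfAdjoint E), (((l.map expUnitary).prod : unitary E) : E) = U ∧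
    (l.map fun h : selfAdjoint E => f (h : E)).sum = a ∧
    (l.map fun h : selfAdjoint E => g (h : E)).sum = b

variable {f g : E →L[ℂ] ℂ}

lemma Rep.mul {U V : E} {a b c d : ℂ} (h : Rep f g U a b) (h' : Rep f g V c d) :
    Rep f g (U * V) (a + c) (b + d) := by
  obtain ⟨l, h1, h2, h3⟩ := h
  obtain ⟨l', h1', h2', h3'⟩ := h'
  refine ⟨l ++ l', ?_, ?_, ?_⟩
  · rw [List.map_append, List.prod_append, Submonoid.coe_mul, h1, h1']
  · rw [List.map_append, List.sum_append, h2, h2']
  · rw [List.map_append, List.sum_append, h3, h3']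

lemma expUnitary_neg (h : selfAdjoint E) : expUnitary (-h) = (expUnitary h)⁻¹ := by
  rw [eq_inv_iff_mul_eq_one, ← Commute.expUnitary_add, neg_add_cancel, expUnitary_zero]
  show Commute ((-h : selfAdjoint E) : E) (h : E)
  rw [AddSubgroup.coe_neg]
  exact (Commute.refl _).neg_left

lemma sum_rev_neg (f : E →L[ℂ] ℂ) (l : List (selfAdjoint E)) :
    ((l.map Neg.neg).reverse.map fun h : selfAdjoint E => f (h : E)).sum =
      -(l.map fun h : selfAdjoint E => f (h : E)).sum := by
  induction l with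
  | nil => simp
  | cons a l ih =>
    simp only [List.map_cons, List.reverse_cons, List.map_append, List.sum_append, ih,
      List.sum_cons, List.map_nil, List.sum_nil]
    rw [AddSubgroup.coe_neg, map_neg]
    ring

lemma prod_rev_neg (l : List (selfAdjoint E)) :
    ((l.map Neg.neg).reverse.map expUnitary).prod = ((l.map expUnitary).prod)⁻¹ := by
  induction l with
  | nil => simp
  | cons a l ih =>
    simp only [List.map_cons, List.reverse_cons, List.map_append, List.prod_append, ih,
      List.prod_cons, List.map_nil, List.prod_nil, _root_.mul_inv_rev, mul_one, expUnitary_neg]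

lemma Rep.inv {U : E} {a b : ℂ} (h : Rep f g U a b) : Rep f g (star U) (-a) (-b) := by
  obtain ⟨l, h1, h2, h3⟩ := h
  refine ⟨(l.map Neg.neg).reverse, ?_, ?_, ?_⟩
  · rw [prod_rev_neg, ← h1]
    rfl
  · rw [sum_rev_neg, h2]
  · rw [sum_rev_neg, h3]

lemma cont_hom {A B : Type} [CStarAlgebra A] [CStarAlgebra B] (χ : A →⋆ₐ[ℂ] B) :
    Continuous χ :=
  AddMonoidHomClass.continuous_of_bound χ 1 (fun x => by simpa using norm_map_le' χ x)

lemma hom_exp {A B : Type} [CStarAlgebra A] [CStarAlgebra B] (χ : A →⋆ₐ[ℂ] B) (x : A) :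
    χ (NormedSpace.exp (Complex.I • x)) = NormedSpace.exp (Complex.I • χ x) := by
  let +nondep : NormedAlgebra ℚ A := .restrictScalars ℚ ℂ A
  let +nondep : NormedAlgebra ℚ B := .restrictScalars ℚ ℂ B
  rw [NormedSpace.map_exp χ (cont_hom χ), map_smul]

lemma hom_prod {A B : Type} [CStarAlgebra A] [CStarAlgebra B] (χ : A →⋆ₐ[ℂ] B)
    (l : List (selfAdjoint A)) (s : selfAdjoint A → selfAdjoint B)
    (hs : ∀ h ∈ l, (s h : B) = χ h) :
    (((l.map s).map expUnitary).prod : unitary B) =
      (χ (((l.map expUnitary).prod : unitary A) : A)) := by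
  induction l with
  | nil => simp
  | cons a l ih =>
    simp only [List.map_cons, List.prod_cons, Submonoid.coe_mul, map_mul]
    rw [ih (fun h hh => hs h (List.mem_cons_of_mem _ hh))]
    congr 1
    rw [expUnitary_coe, expUnitary_coe, hom_exp, hs a List.mem_cons_self]

lemma Rep.map {U : E} {a b : ℂ} (h : Rep f g U a b) (χ : E →⋆ₐ[ℂ] E)
    (h1 : ∀ x, f (χ x) = -f x) (h2 : ∀ x, g (χ x) = g x) : Rep f g (χ U) (-a) b := by
  obtain ⟨l, h3, h4, h5⟩ := h
  let s : selfAdjoint E → selfAdjoint E := fun h => ⟨χ h, by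
    show star (χ h) = χ h
    rw [← map_star, h.2.star_eq]⟩
  refine ⟨l.map s, ?_, ?_, ?_⟩
  · rw [hom_prod χ l s (fun h _ => rfl), h3]
  · rw [← h4, List.sum_neg, List.map_map, List.map_map]
    congr 1
    refine List.map_congr_left fun x _ => ?_
    exact h1 x
  · rw [List.map_map, ← h5]
    congr 1
    refine List.map_congr_left fun x _ => ?_
    exact h2 x

end rep

lemma cont_matHom (I : Type) [Fintype I] [DecidableEq I] : Continuous (matHom I) := by
  refine continuous_matrix fun i k => ?_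
  have h : Continuous (fun x : MA I ℂ => x.en i k) := by
    let F : MA I ℂ →+ ℂ :=
      { toFun := fun x => x.en i k
        map_zero' := rfl
        map_add' := fun _ _ => rfl }
    exact AddMonoidHomClass.continuous_of_bound F 1 (fun x => by
      rw [one_mul]
      exact norm_en_le x i k)
  exact h

lemma matHom_exp {I : Type} [Fintype I] [DecidableEq I] (x : MA I ℂ) :
    matHom I (NormedSpace.exp (Complex.I • x)) = NormedSpace.exp (Complex.I • matHom I x) := by
  let +nondep : NormedAlgebra ℚ (MA I ℂ) := .restrictScalars ℚ ℂ (MA I ℂ)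
  have h1 := NormedSpace.exp_eq_tsum ℂ (𝔸 := MA I ℂ)
  have h2 := NormedSpace.exp_eq_tsum ℂ (𝔸 := Matrix I I ℂ)
  rw [h1, h2]
  have hs : Summable fun n : ℕ => ((n.factorial : ℂ))⁻¹ • (Complex.I • x) ^ n :=
    NormedSpace.expSeries_summable' (𝕂 := ℂ) (Complex.I • x)
  have h3 := hs.hasSum.map (matHom I) (cont_matHom I)
  show matHom I (∑' n : ℕ, ((n.factorial : ℂ))⁻¹ • (Complex.I • x) ^ n) =
    ∑' n : ℕ, ((n.factorial : ℂ))⁻¹ • (Complex.I • matHom I x) ^ n
  rw [← h3.tsum_eq]
  refine tsum_congr fun n => ?_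
  simp only [Function.comp, map_smul, map_pow]

lemma det_exp_MA {I : Type} [Fintype I] [DecidableEq I] (x : MA I ℂ) (hx : star x = x) :
    (matHom I (NormedSpace.exp (Complex.I • x))).det = Complex.exp (Complex.I * tr x) := by
  rw [matHom_exp, JA.det_exp, tr_eq_trace]
  rw [← map_star, hx]

lemma det_prod_MA {A : Type} [CStarAlgebra A] {I : Type} [Fintype I] [DecidableEq I]
    (q : A →⋆ₐ[ℂ] MA I ℂ) (l : List (selfAdjoint A)) :
    (matHom I (q (((l.map expUnitary).prod : unitary A) : A))).det =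
      Complex.exp (Complex.I * (l.map fun h : selfAdjoint A => tr (q (h : A))).sum) := by
  induction l with
  | nil => simp
  | cons a l ih =>
    simp only [List.map_cons, List.prod_cons, Submonoid.coe_mul, map_mul, Matrix.det_mul,
      List.sum_cons]
    rw [ih, mul_add, Complex.exp_add, expUnitary_coe, hom_exp, det_exp_MA]
    rw [← map_star, a.2.star_eq]

/-- integrality at a finite stage -/
lemma stage_int {n : ℕ} (l : List (selfAdjoint (En n))) (hl : (l.map expUnitary).prod = 1)
    (b : Fin 4) : ∃ N : ℤ, (l.map fun h : selfAdjoint (En n) => tr ((h : En n) b)).sum =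
      2 * Real.pi * N := by
  have h1 := det_prod_MA (evHom (B := fun j => MA (Fin (DD n j)) ℂ) b : En n →⋆ₐ[ℂ] _) l
  rw [hl, Submonoid.coe_one, map_one, map_one, Matrix.det_one] at h1
  obtain ⟨N, hN⟩ := Complex.exp_eq_one_iff.1 h1.symm
  refine ⟨N, ?_⟩
  have h2 : Complex.I * (l.map fun h : selfAdjoint (En n) => tr ((h : En n) b)).sum =
      Complex.I * (2 * Real.pi * N) := by
    refine Eq.trans hN ?_
    ring
  exact mul_left_cancel₀ Complex.I_ne_zero h2

/-- the set of values of relations -/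
def Gam : Set (ℂ × ℂ) := Set.range fun z : (ℤ × ℤ) × ℕ =>
  ((2 * Real.pi * ((z.1.1 + 2 * z.1.2 : ℤ) : ℂ) / (LL z.2 : ℂ), 2 * Real.pi * (z.1.1 : ℂ)) : ℂ × ℂ)

lemma Gam_countable : Gam.Countable := Set.countable_range _

lemma Gam_zero {b : ℂ} (h : ((0 : ℂ), b) ∈ Gam) : ∃ k : ℤ, b = 2 * Real.pi * (2 * k) := by
  obtain ⟨⟨⟨x, y⟩, n⟩, hz⟩ := h
  have h1 := congrArg Prod.fst hz
  have h2 := congrArg Prod.snd hz
  simp only at h1 h2
  have h3 : (LL n : ℂ) ≠ 0 := Nat.cast_ne_zero.2 (LL_pos n).ne'
  rw [div_eq_zero_iff] at h1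
  have h4 : (2 * Real.pi * ((x + 2 * y : ℤ) : ℂ)) = 0 := by
    rcases h1 with h1 | h1
    · exact h1
    · exact absurd h1 h3
  have h5 : ((x + 2 * y : ℤ) : ℂ) = 0 := by
    have hpi : (2 * (Real.pi : ℂ)) ≠ 0 := by
      have := Real.pi_ne_zero
      simp [this]
    exact (mul_eq_zero.1 h4).resolve_left hpi
  have h6 : x + 2 * y = 0 := by exact_mod_cast h5
  refine ⟨-y, ?_⟩
  rw [← h2]
  have : x = 2 * (-y) := by linarith
  rw [this]
  push_cast
  ring

section sys3

variable (D : Data) {E : Type} [CStarAlgebra E] {j : ∀ n, En n →⋆ₐ[ℂ] E} (h : IsLim D.io j)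

lemma finDim_MA (I : Type) [Fintype I] [DecidableEq I] : FiniteDimensional ℂ (MA I ℂ) := by
  let F : MA I ℂ →ₗ[ℂ] Matrix I I ℂ := (matHom I : MA I ℂ →ₐ[ℂ] Matrix I I ℂ).toLinearMap
  exact FiniteDimensional.of_injective F (fun x y hxy => by
    ext i k
    exact congrFun (congrFun hxy i) k)

instance instFD (n : ℕ) : FiniteDimensional ℂ (En n) := by
  have : ∀ b : Fin 4, FiniteDimensional ℂ (MA (Fin (DD n b)) ℂ) := fun b => finDim_MA _
  infer_instance

/-- the stages as subalgebras -/
def stg (j : ∀ n, En n →⋆ₐ[ℂ] E) (n : ℕ) : StarSubalgebra ℂ E := (j n).range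

lemma mem_stg {n : ℕ} {y : E} : y ∈ stg j n ↔ ∃ x, j n x = y := Iff.rfl

instance stg_fd (j : ∀ n, En n →⋆ₐ[ℂ] E) (n : ℕ) : FiniteDimensional ℂ (stg j n) := by
  let F : En n →ₗ[ℂ] stg j n :=
    { toFun := fun x => ⟨j n x, x, rfl⟩
      map_add' := fun x y => Subtype.ext (map_add (j n) x y)
      map_smul' := fun c x => Subtype.ext (map_smul (j n) c x) }
  refine FiniteDimensional.of_surjective F ?_
  rintro ⟨_, x, rfl⟩
  exact ⟨x, rfl⟩

lemma stg_closed (n : ℕ) : IsClosed (stg j n : Set E) := by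
  have : FiniteDimensional ℂ (stg j n).toSubalgebra.toSubmodule := stg_fd j n
  exact Submodule.closed_of_finiteDimensional (stg j n).toSubalgebra.toSubmodule

include h

lemma stg_mono : Monotone (stg j) := by
  refine monotone_nat_of_le_succ fun n => ?_
  rintro _ ⟨x, rfl⟩
  exact ⟨D.io n x, h.comp n x⟩

lemma stg_dense (y : E) (ε : ℝ) (hε : 0 < ε) : ∃ n, ∃ x ∈ stg j n, ‖y - x‖ < ε := by
  obtain ⟨n, x, hx⟩ := h.dense y ε hε
  exact ⟨n, j n x, ⟨x, rfl⟩, hx⟩

theorem exists_rep {f g : E →L[ℂ] ℂ} (U : E) (h1 : star U * U = 1) (h2 : U * star U = 1) :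
    ∃ a b, Rep f g U a b := by
  obtain ⟨l, hl⟩ := JB.con (stg j) (stg_fd j) (stg_dense D h) ⟨U, h1, h2⟩
  exact ⟨_, _, l, by rw [hl], rfl, rfl⟩

theorem rep_one {f g : E →L[ℂ] ℂ} (hf : ∀ n x, f (j n x) = lf n x)
    (hg : ∀ n x, g (j n x) = tr (xb n x)) {b : ℂ} (hb : Rep f g 1 0 b) :
    ∃ k : ℤ, b = 2 * Real.pi * (2 * k) := by
  obtain ⟨l, h1, h2, h3⟩ := hb
  apply Gam_zero
  rw [← h2, ← h3]
  refine JC.int' (stg j) (stg_mono D h) (fun n => stg_closed n) (stg_dense D h) f g Gam
    Gam_countable ?_ l (by ext; rw [h1]; rfl)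
  intro n l hln hl
  classical
  have hex : ∀ x ∈ l, ∃ y : selfAdjoint (En n), j n y = (x : E) := by
    intro x hx
    obtain ⟨y, hy⟩ : ∃ y, j n y = (x : E) := hln x hx
    refine ⟨⟨y, ?_⟩, hy⟩
    show star y = y
    apply h.inj n
    rw [map_star, hy, x.2.star_eq]
  let s : selfAdjoint E → selfAdjoint (En n) := fun x =>
    if hx : ∃ y : selfAdjoint (En n), j n y = (x : E) then Classical.choose hx else 0
  have hs : ∀ x ∈ l, j n (s x) = (x : E) := by
    intro x hx
    simp only [s, dif_pos (hex x hx)]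
    exact Classical.choose_spec (hex x hx)
  let t : selfAdjoint (En n) → selfAdjoint E := fun y => ⟨j n y, by
    show star (j n y) = j n y
    rw [← map_star, y.2.star_eq]⟩
  have hts : (l.map s).map t = l := by
    rw [List.map_map]
    conv_rhs => rw [← List.map_id l]
    refine List.map_congr_left fun x hx => ?_
    exact Subtype.ext (hs x hx)
  have hprod : ((l.map s).map expUnitary).prod = 1 := by
    have h5 := hom_prod (j n) (l.map s) t (fun _ _ => rfl)
    rw [hts, hl] at h5
    ext1
    apply h.inj n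
    rw [← h5, Submonoid.coe_one, Submonoid.coe_one, map_one]
  choose N hN using stage_int (l.map s) hprod
  have e1 : (l.map fun x : selfAdjoint E => f (x : E)).sum =
      2 * Real.pi * ((N 0 + 2 * (N 2 - N 3) : ℤ) : ℂ) / (LL n : ℂ) := by
    have h6 : (l.map fun x : selfAdjoint E => f (x : E)) =
        (l.map s).map fun y : selfAdjoint (En n) => lf n (y : En n) := by
      rw [List.map_map]
      refine List.map_congr_left fun x hx => ?_
      show f x = lf n (s x)
      rw [← hf, hs x hx]
    rw [h6]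
    have h7 : ∀ L : List (selfAdjoint (En n)),
        (L.map fun y : selfAdjoint (En n) => lf n (y : En n)).sum =
        (∑ b, (lam b : ℂ) * (L.map fun y : selfAdjoint (En n) => tr ((y : En n) b)).sum) /
          (LL n : ℂ) := by
      intro L
      induction L with
      | nil => simp
      | cons a L ih =>
        rw [List.map_cons, List.sum_cons, ih]
        simp only [List.map_cons, List.sum_cons, lf_apply, mul_add, Finset.sum_add_distrib,
          add_div]
    rw [h7]
    simp only [hN]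
    congr 1
    rw [Fin.sum_univ_four]
    simp only [lam]
    simp
    ring
  have e2 : (l.map fun x : selfAdjoint E => g (x : E)).sum = 2 * Real.pi * (N 0 : ℂ) := by
    have h6 : (l.map fun x : selfAdjoint E => g (x : E)) =
        (l.map s).map fun y : selfAdjoint (En n) => tr ((y : En n) 0) := by
      rw [List.map_map]
      refine List.map_congr_left fun x hx => ?_
      show g x = tr (xb n (s x))
      rw [← hg, hs x hx]
    rw [h6, hN]
  rw [e1, e2]
  exact ⟨((N 0, N 2 - N 3), n), rfl⟩

end sys3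

end Pool.Agent.TH249
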