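import Mathlib
import Pool.Agent.TH249.Int

/-!
The two obstructions.
-/

set_option autoImplicit false
set_option linter.unusedSectionVars false

noncomputable section

namespace Pool.Agent.TH249

open Matrix Pool.Agent.H188R3 Filter Topology selfAdjoint

section two

/-- determinant of an element of `M_2(ℂ)` -/
def dt (x : MA (Fin 2) ℂ) : ℂ := (matHom (Fin 2) x).det

lemma dt_eq (x : MA (Fin 2) ℂ) : dt x = x.en 0 0 * x.en 1 1 - x.en 0 1 * x.en 1 0 := by
  unfold dt
  rw [Matrix.det_fin_two]; rfl

lemma tr_two (x : MA (Fin 2) ℂ) : tr x = x.en 0 0 + x.en 1 1 := by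
  rw [tr_apply, Fin.sum_univ_two]

lemma en_mul_two (x y : MA (Fin 2) ℂ) (i k : Fin 2) :
    (x * y).en i k = x.en i 0 * y.en 0 k + x.en i 1 * y.en 1 k := by
  rw [MA.en_mul, Fin.sum_univ_two]

lemma dt_mul (x y : MA (Fin 2) ℂ) : dt (x * y) = dt x * dt y := by
  unfold dt; rw [map_mul, Matrix.det_mul]

lemma cayley (x : MA (Fin 2) ℂ) (hx : tr x = 0) : x * x = (-dt x) • (1 : MA (Fin 2) ℂ) := by
  rw [tr_two] at hx
  have h1 : x.en 1 1 = -x.en 0 0 := by linear_combination hx
  ext i k
  rw [en_mul_two, MA.en_smul, MA.en_one, dt_eq, h1]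
  fin_cases i <;> fin_cases k <;> simp <;> (try rw [h1]) <;> ring

/-- a rank one projection has determinant zero -/
lemma dt_proj {e : MA (Fin 2) ℂ} (he : e * e = e) (ht : tr e = 1) : dt e = 0 := by
  have h1 : dt e * dt e = dt e := by rw [← dt_mul, he]
  have h2 : e.en 0 0 * e.en 0 0 + e.en 0 1 * e.en 1 0 = e.en 0 0 := by
    rw [← en_mul_two, he]
  rw [tr_two] at ht
  rw [dt_eq]
  have h3 : e.en 1 1 = 1 - e.en 0 0 := by linear_combination ht
  rw [h3]
  linear_combination -h2

lemma dt_one_add (x : MA (Fin 2) ℂ) : dt (1 + x) = 1 + tr x + dt x := by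
  rw [dt_eq, dt_eq, tr_two]
  simp only [MA.en_add, MA.en_one]
  simp
  ring

lemma rank_one {e : MA (Fin 2) ℂ} (he : e * e = e) (ht : tr e = 1) (x : MA (Fin 2) ℂ) :
    e * x * e = tr (e * x) • e := by
  have h := dt_proj he ht
  rw [dt_eq] at h
  ext i k
  rw [MA.en_smul, tr_two]
  simp only [en_mul_two]
  fin_cases i <;> fin_cases k <;> simp only [Fin.zero_eta, Fin.mk_one, smul_eq_mul]
  · linear_combination (-x.en 1 1 : ℂ) * h
  · linear_combination (x.en 0 1 : ℂ) * h
  · linear_combination (x.en 1 0 : ℂ) * h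
  · linear_combination (-x.en 0 0 : ℂ) * h

end two

section claims

variable {E : Type} [CStarAlgebra E] {f g : E →L[ℂ] ℂ} {q : E →⋆ₐ[ℂ] MA (Fin 2) ℂ}

lemma Rep.congr {U U' : E} {a a' b b' : ℂ} (h : Rep f g U a b) (h1 : U = U') (h2 : a = a')
    (h3 : b = b') : Rep f g U' a' b' := by
  subst h1 h2 h3; exact h

lemma Rep.det (hg : ∀ x, g x = tr (q x)) {U : E} {a b : ℂ} (h : Rep f g U a b) :
    dt (q U) = Complex.exp (Complex.I * b) := by
  obtain ⟨l, h1, -, h3⟩ := h
  unfold dt
  rw [← h1, det_prod_MA, ← h3]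
  congr 3
  refine List.map_congr_left fun x _ => ?_
  rw [hg]

/-- the building block for the unitaries -/
lemma unit_sum {B : Type} [CStarAlgebra B] {v u p p' : B} (hp : IsStarProjection p)
    (hp' : IsStarProjection p') (h1 : star v * v = p') (h2 : v * star v = 1 - p)
    (h3 : star u * u = 1 - p') (h4 : u * star u = p) :
    star (v + u) * (v + u) = 1 ∧ (v + u) * star (v + u) = 1 := by
  have hp1 := hp.one_sub
  have hp1' := hp'.one_sub
  have e1 : v * p' = v := pi_mul hp' h1
  have e2 : (1 - p) * v = v := mul_pi hp1 h2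
  have e3 : u * (1 - p') = u := pi_mul hp1' h3
  have e4 : p * u = u := mul_pi hp h4
  have hpp : p * (1 - p) = 0 := by rw [mul_sub, mul_one, hp.isIdempotentElem.eq, sub_self]
  have hpp' : p' * (1 - p') = 0 := by rw [mul_sub, mul_one, hp'.isIdempotentElem.eq, sub_self]
  have c1 : star u * v = 0 := by
    have : star u * p = star u := by
      have := congrArg star e4
      rwa [star_mul, hp.isSelfAdjoint.star_eq] at this
    rw [← this, ← e2, ← mul_assoc, mul_assoc (star u), hpp, mul_zero, zero_mul]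
  have c2 : star v * u = 0 := by
    have := congrArg star c1
    rwa [star_mul, star_star, star_zero] at this
  have c3 : v * star u = 0 := by
    have : (1 - p') * star u = star u := by
      have := congrArg star e3
      rwa [star_mul, hp1'.isSelfAdjoint.star_eq] at this
    rw [← this, ← e1, ← mul_assoc, mul_assoc v, hpp', mul_zero, zero_mul]
  have c4 : u * star v = 0 := by
    have := congrArg star c3
    rwa [star_mul, star_star, star_zero] at this
  refine ⟨?_, ?_⟩
  · rw [star_add, add_mul, mul_add, mul_add, h1, h3, c1, c2]; abel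
  · rw [star_add, add_mul, mul_add, mul_add, h2, h4, c3, c4]; abel

/-- equivalences between complementary rank one projections are proportional -/
lemma exists_kappa {e w a : MA (Fin 2) ℂ} (hpe : IsStarProjection e) (he : tr e = 1)
    (hw1 : star w * w = e) (hw2 : w * star w = 1 - e) (b1 : star a * a = e)
    (b2 : a * star a = 1 - e) : ∃ κ : ℂ, a = κ • w := by
  have hee := hpe.isIdempotentElem.eq
  have hwe : w * e = w := pi_mul hpe hw1
  have a3 : e * (star w * a) * e = star w * a := by
    have : e * star w = star w := by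
      have := congrArg star hwe
      rwa [star_mul, hpe.isSelfAdjoint.star_eq] at this
    rw [← mul_assoc, this, mul_assoc, pi_mul hpe b1]
  have a4 : a = w * (star w * a) := by
    rw [← mul_assoc, hw2, mul_pi hpe.one_sub b2]
  refine ⟨tr (e * (star w * a)), ?_⟩
  rw [a4]
  conv_lhs => rw [← a3, rank_one hee he, mul_smul_comm, hwe]
  rw [← a4]

lemma nilp_tr {e w : MA (Fin 2) ℂ} (he : e * e = e) (h1 : w * e = w) (h2 : (1 - e) * w = w) :
    tr w = 0 := by
  rw [← h2, ← h1, ← mul_assoc, tr_mul_comm, ← mul_assoc]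
  have : e * (1 - e) = 0 := by rw [mul_sub, mul_one, he, sub_self]
  rw [this, zero_mul, map_zero]

/-- first obstruction -/
theorem claim1 (hrep : ∀ U : E, star U * U = 1 → U * star U = 1 → ∃ a b, Rep f g U a b)
    (hone : ∀ b, Rep f g 1 0 b → ∃ k : ℤ, b = 2 * Real.pi * (2 * k))
    (hg : ∀ x, g x = tr (q x)) (χ : E →⋆ₐ[ℂ] E) (hχ : ∀ x, χ (χ x) = x)
    (hgχ : ∀ x, g (χ x) = g x) (hf : ∀ x, f (χ x) = -f x) {p v : E} (hp : IsStarProjection p)
    (hqp : q (χ p) = q p) (hqv : q (χ v) = q v)
    (h1 : star v * v = χ p) (h2 : v * star v = 1 - p) : False := by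
  have hχp : IsStarProjection (χ p) := hp.map χ
  have h3 : star (star (χ v)) * star (χ v) = 1 - χ p := by
    rw [star_star, ← map_star, ← map_mul, h2, map_sub, map_one]
  have h4 : star (χ v) * star (star (χ v)) = p := by
    rw [star_star, ← map_star, ← map_mul, h1, hχ]
  obtain ⟨u1, u2⟩ := unit_sum hp hχp h1 h2 h3 h4
  set U : E := v + star (χ v) with hU
  have hχU : χ U = star U := by
    rw [hU, map_add, map_star, hχ, star_add, star_star, add_comm]
  obtain ⟨a, b, hab⟩ := hrep U u1 u2
  have r1 := hab.mul (hab.map χ hf hgχ)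
  have r2 : Rep f g (1 : E) 0 (b + b) := r1.congr (by rw [hχU, u2]) (by ring) rfl
  obtain ⟨k, hk⟩ := hone _ r2
  have hb : b = 2 * Real.pi * k := by linear_combination (1 / 2 : ℂ) * hk
  have d1 := hab.det hg
  have d2 : Complex.exp (Complex.I * b) = 1 := by
    rw [Complex.exp_eq_one_iff]
    exact ⟨k, by rw [hb]; ring⟩
  rw [d2] at d1
  -- the determinant is `-1`
  set e := q p with hedef
  have hpe : IsStarProjection e := hp.map q
  set w := q v with hw
  have w1 : star w * w = e := by rw [hw, ← map_star, ← map_mul, h1, hqp]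
  have w2 : w * star w = 1 - e := by rw [hw, ← map_star, ← map_mul, h2, map_sub, map_one]
  have hqU : q U = w + star w := by rw [hU, map_add, map_star, hqv]
  have t1 : tr w = 0 := nilp_tr hpe.isIdempotentElem.eq (pi_mul hpe w1) (mul_pi hpe.one_sub w2)
  have t2 : tr (star w) = 0 := by
    have hpe' := hpe.one_sub
    refine nilp_tr (e := 1 - e) hpe'.isIdempotentElem.eq ?_ ?_
    · have := congrArg star (mul_pi hpe.one_sub w2)
      rwa [star_mul, hpe'.isSelfAdjoint.star_eq] at this
    · rw [sub_sub_cancel]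
      have := congrArg star (pi_mul hpe w1)
      rwa [star_mul, hpe.isSelfAdjoint.star_eq] at this
  have t3 : tr (q U) = 0 := by rw [hqU, map_add, t1, t2, add_zero]
  have c := cayley (q U) t3
  rw [d1] at c
  have c2 : q U * q U = 1 := by
    have : star (q U) = q U := by rw [hqU, star_add, star_star, add_comm]
    calc q U * q U = star (q U) * q U := by rw [this]
      _ = 1 := by rw [← map_star, ← map_mul, u1, map_one]
  rw [c2] at c
  have c3 := congrArg (fun z => MA.en z 0 0) c
  simp only [MA.en_smul, MA.en_one] at c3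
  norm_num at c3

/-- second obstruction -/
theorem claim2 (hrep : ∀ U : E, star U * U = 1 → U * star U = 1 → ∃ a b, Rep f g U a b)
    (hone : ∀ b, Rep f g 1 0 b → ∃ k : ℤ, b = 2 * Real.pi * (2 * k))
    (hg : ∀ x, g x = tr (q x)) (χ : E →⋆ₐ[ℂ] E) (hχ : ∀ x, χ (χ (χ (χ x))) = x)
    (η : MA (Fin 2) ℂ →⋆ₐ[ℂ] MA (Fin 2) ℂ) (hη : ∀ x, tr (η x) = tr x)
    (hq : ∀ x, q (χ x) = η (q x)) (hf : ∀ x, f (χ x) = -f x) {p v t : E}
    (hp : IsStarProjection p) (he : tr (q p) = 1) (hηe : η (q p) = q p)
    {w : MA (Fin 2) ℂ} (hw1 : star w * w = q p) (hw2 : w * star w = 1 - q p) {ρ : ℂ}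
    (hηw : η w = ρ • w) (hρ : ρ ^ 2 = -1)
    (h1 : star v * v = χ p) (h2 : v * star v = 1 - p) (h3 : star t * t = χ (χ p))
    (h4 : t * star t = p) : False := by
  have hχp : IsStarProjection (χ p) := hp.map χ
  have hχp2 : IsStarProjection (χ (χ p)) := hχp.map χ
  set u : E := t * star (χ v) with hu
  have ht : t * χ (χ p) = t := pi_mul hχp2 h3
  have hχv1 : star (χ v) * χ v = χ (χ p) := by rw [← map_star, ← map_mul, h1]
  have hχv2 : χ v * star (χ v) = 1 - χ p := by rw [← map_star, ← map_mul, h2, map_sub, map_one]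
  have h5 : star u * u = 1 - χ p := by
    rw [hu, star_mul, star_star]
    calc χ v * star t * (t * star (χ v)) = χ v * (star t * t) * star (χ v) := by noncomm_ring
      _ = χ v * star (χ v) := by rw [h3, pi_mul hχp2 hχv1]
      _ = 1 - χ p := hχv2
  have h6 : u * star u = p := by
    rw [hu, star_mul, star_star]
    calc t * star (χ v) * (χ v * star t) = t * (star (χ v) * χ v) * star t := by noncomm_ring
      _ = t * star t := by rw [hχv1, ht]
      _ = p := h4
  obtain ⟨u1, u2⟩ := unit_sum hp hχp h1 h2 h5 h6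
  set U : E := v + u with hU
  have ev : v * χ p = v := pi_mul hχp h1
  have ev' : (1 - p) * v = v := mul_pi hp.one_sub h2
  have eu : u * (1 - χ p) = u := pi_mul hχp.one_sub h5
  have eu' : p * u = u := mul_pi hp h6
  have hpi := hp.isIdempotentElem.eq
  -- `U χ(p) = (1 - p) U`
  have hUp : U * χ p = (1 - p) * U := by
    have a1 : u * χ p = 0 := by
      rw [← eu, mul_assoc, sub_mul, one_mul, hχp.isIdempotentElem.eq, sub_self, mul_zero]
    have a2 : (1 - p) * u = 0 := by
      rw [← eu', ← mul_assoc, sub_mul, one_mul, hpi, sub_self, zero_mul]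
    rw [hU, add_mul, mul_add, ev, a1, ev', a2]
  have hUp' : U * (1 - χ p) = p * U := by
    rw [mul_sub, mul_one, hUp]; noncomm_ring
  -- the product
  set C : E := U * χ U * χ (χ U) * χ (χ (χ U)) with hC
  have hmap : ∀ x y : E, x = y → χ x = χ y := fun x y h => by rw [h]
  have hUp2 : χ U * χ (χ p) = (1 - χ p) * χ U := by
    rw [← map_mul, hUp, map_mul, map_sub, map_one]
  have hUp2' : χ U * (1 - χ (χ p)) = χ p * χ U := by
    rw [mul_sub, mul_one, hUp2]; noncomm_ring
  have hUp3 : χ (χ U) * χ (χ (χ p)) = (1 - χ (χ p)) * χ (χ U) := by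
    rw [← map_mul, hUp2, map_mul, map_sub, map_one]
  have hUp4 : χ (χ (χ U)) * p = (1 - χ (χ (χ p))) * χ (χ (χ U)) := by
    conv_lhs => rw [← hχ p]
    rw [← map_mul, hUp3, map_mul, map_sub, map_one]
  have hCp : C * p = p * C := by
    rw [hC]
    calc U * χ U * χ (χ U) * χ (χ (χ U)) * p
        = U * χ U * χ (χ U) * (χ (χ (χ U)) * p) := by noncomm_ring
      _ = U * χ U * (χ (χ U) - χ (χ U) * χ (χ (χ p))) * χ (χ (χ U)) := by
          rw [hUp4]; noncomm_ring
      _ = U * χ U * (χ (χ p) * χ (χ U)) * χ (χ (χ U)) := by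
          rw [hUp3]; noncomm_ring
      _ = U * (χ U * χ (χ p)) * χ (χ U) * χ (χ (χ U)) := by noncomm_ring
      _ = (U * (1 - χ p)) * χ U * χ (χ U) * χ (χ (χ U)) := by rw [hUp2]; noncomm_ring
      _ = p * (U * χ U * χ (χ U) * χ (χ (χ U))) := by rw [hUp']; noncomm_ring
  -- unitarity
  have k1 : star (χ U) * χ U = 1 := by rw [← map_star, ← map_mul, u1, map_one]
  have k1' : χ U * star (χ U) = 1 := by rw [← map_star, ← map_mul, u2, map_one]
  have k2 : star (χ (χ U)) * χ (χ U) = 1 := by rw [← map_star, ← map_mul, k1, map_one]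
  have k2' : χ (χ U) * star (χ (χ U)) = 1 := by rw [← map_star, ← map_mul, k1', map_one]
  have k3 : star (χ (χ (χ U))) * χ (χ (χ U)) = 1 := by rw [← map_star, ← map_mul, k2, map_one]
  have k3' : χ (χ (χ U)) * star (χ (χ (χ U))) = 1 := by
    rw [← map_star, ← map_mul, k2', map_one]
  have hC1 : star C * C = 1 := by
    rw [hC]
    simp only [star_mul]
    calc star (χ (χ (χ U))) * (star (χ (χ U)) * (star (χ U) * star U)) *
          (U * χ U * χ (χ U) * χ (χ (χ U)))
        = star (χ (χ (χ U))) * (star (χ (χ U)) * (star (χ U) * (star U * U) * χ U) * χ (χ U)) *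
          χ (χ (χ U)) := by noncomm_ring
      _ = 1 := by rw [u1, mul_one, k1, mul_one, k2, mul_one, k3]
  have hC2 : C * star C = 1 := by
    rw [hC]
    simp only [star_mul]
    calc U * χ U * χ (χ U) * χ (χ (χ U)) *
          (star (χ (χ (χ U))) * (star (χ (χ U)) * (star (χ U) * star U)))
        = U * (χ U * (χ (χ U) * (χ (χ (χ U)) * star (χ (χ (χ U)))) * star (χ (χ U))) *
          star (χ U)) * star U := by noncomm_ring
      _ = 1 := by rw [k3', mul_one, k2', mul_one, k1', mul_one, u2]
  -- invariance `U χ(C) = C U`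
  have hCU : U * χ C = C * U := by
    have : χ C = χ U * χ (χ U) * χ (χ (χ U)) * U := by
      rw [hC, map_mul, map_mul, map_mul, hχ]
    rw [this, hC]; noncomm_ring
  set c : E := C * p + (1 - p) with hc
  have hsC : star C * p = p * star C := by
    have := congrArg star hCp
    rw [star_mul C p, star_mul p C, hp.isSelfAdjoint.star_eq] at this
    exact this.symm
  have hc1 : star c * c = 1 := by
    rw [hc, star_add, star_mul, star_sub, star_one, hp.isSelfAdjoint.star_eq]
    calc (p * star C + (1 - p)) * (C * p + (1 - p))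
        = p * (star C * C) * p + p * star C * (1 - p) + (1 - p) * (C * p) +
          (1 - p) * (1 - p) := by noncomm_ring
      _ = p * p + p * (star C * (1 - p)) + (1 - p) * (p * C) + (1 - p) * (1 - p) := by
          rw [hC1, hCp]; noncomm_ring
      _ = p * p + (p * star C - p * (star C * p)) + (p - p * p) * C + (1 - p - (p - p * p)) := by
          noncomm_ring
      _ = 1 := by rw [hsC, ← mul_assoc, hpi]; noncomm_ring
  have hc2 : c * star c = 1 := by
    rw [hc, star_add, star_mul, star_sub, star_one, hp.isSelfAdjoint.star_eq]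
    calc (C * p + (1 - p)) * (p * star C + (1 - p))
        = C * (p * p) * star C + C * (p - p * p) + (p - p * p) * star C +
          (1 - p - (p - p * p)) := by noncomm_ring
      _ = p * (C * star C) + (1 - p) := by rw [hpi, hCp]; noncomm_ring
      _ = 1 := by rw [hC2]; noncomm_ring
  -- `U χ(c) U* = C (1 - p) + p`
  have hUc : U * χ c = (C * (1 - p) + p) * U := by
    rw [hc, map_add, map_mul, map_sub, map_one]
    calc U * (χ C * χ p + (1 - χ p)) = (U * χ C) * χ p + U * (1 - χ p) := by noncomm_ring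
      _ = C * (U * χ p) + p * U := by rw [hCU, hUp']; noncomm_ring
      _ = (C * (1 - p) + p) * U := by rw [hUp]; noncomm_ring
  have hCc : c * (U * χ c * star U) = C := by
    rw [hUc]
    calc c * ((C * (1 - p) + p) * U * star U) = c * (C * (1 - p) + p) * (U * star U) := by
          noncomm_ring
      _ = (C * p + (1 - p)) * (C * (1 - p) + p) := by rw [u2, mul_one, hc]
      _ = C * (p * C) * (1 - p) + C * (p * p) + (C - p * C) * (1 - p) + (p - p * p) := by
          noncomm_ring
      _ = C := by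
          rw [← hCp, hpi]
          calc C * (C * p) * (1 - p) + C * p + (C - C * p) * (1 - p) + (p - p)
              = C * C * (p - p * p) + C * p + C - C * p - C * (p - p * p) := by noncomm_ring
            _ = C := by rw [hpi]; noncomm_ring
  -- the representations
  have hgχ : ∀ x, g (χ x) = g x := fun x => by rw [hg, hg, hq, hη]
  obtain ⟨a, b, hab⟩ := hrep U u1 u2
  obtain ⟨s, h, hsh⟩ := hrep c hc1 hc2
  have r1 := hab.map χ hf hgχ
  have r2 := r1.map χ hf hgχ
  have r3 := r2.map χ hf hgχ
  have rC := ((hab.mul r1).mul r2).mul r3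
  have rc := hsh.map χ hf hgχ
  have rC' := hsh.mul ((hab.mul rc).mul hab.inv)
  rw [hCc] at rC'
  have rC'' : Rep f g C (a + -a + - -a + - - -a) (b + b + b + b) := rC
  have r4 := rC''.inv.mul rC'
  rw [hC1] at r4
  have r5 : Rep f g (1 : E) 0 (2 * h - 4 * b) := r4.congr rfl (by ring) (by ring)
  obtain ⟨k, hk⟩ := hone _ r5
  have hb : h = 2 * b + 2 * Real.pi * k := by linear_combination (1 / 2 : ℂ) * hk
  have d1 := hab.det hg
  have d2 := hsh.det hg
  have d3 : dt (q c) = dt (q U) * dt (q U) := by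
    rw [d1, d2, ← Complex.exp_add, hb, mul_add, Complex.exp_add]
    have : Complex.exp (Complex.I * (2 * Real.pi * k)) = 1 := by
      rw [Complex.exp_eq_one_iff]
      exact ⟨k, by ring⟩
    rw [this, mul_one]
    congr 1
    ring
  -- computations in `M_2`
  set e := q p with hedef
  have hpe : IsStarProjection e := hp.map q
  have hee := hpe.isIdempotentElem.eq
  have hne : e ≠ 0 := by
    intro h0
    rw [h0, map_zero] at he
    exact zero_ne_one he
  have hwe : w * e = w := pi_mul hpe hw1
  have hwe' : (1 - e) * w = w := mul_pi hpe.one_sub hw2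
  -- `q t = μ e`
  obtain ⟨μ, hμ⟩ : ∃ μ : ℂ, q t = μ • e := by
    have a1 : star (q t) * q t = e := by
      rw [← map_star, ← map_mul, h3, hq, hq, hηe, hηe]
    have a2 : q t * star (q t) = e := by rw [← map_star, ← map_mul, h4]
    have a3 : e * q t * e = q t := by rw [mul_assoc, pi_mul hpe a1, mul_pi hpe a2]
    exact ⟨_, by rw [← rank_one hee he (q t), a3]⟩
  have hμ1 : star (q t) * q t = e := by
    rw [← map_star, ← map_mul, h3, hq, hq, hηe, hηe]
  have hμ0 : μ ≠ 0 := by
    intro h0
    rw [hμ, h0, zero_smul, mul_zero] at hμ1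
    exact hne hμ1.symm
  -- `q v = κ w`
  have b1 : star (q v) * q v = e := by rw [← map_star, ← map_mul, h1, hq, hηe]
  have b2 : q v * star (q v) = 1 - e := by rw [← map_star, ← map_mul, h2, map_sub, map_one]
  obtain ⟨κ, hκ⟩ : ∃ κ : ℂ, q v = κ • w := by
    have a3 : e * (star w * q v) * e = star w * q v := by
      have : e * star w = star w := by
        have := congrArg star hwe
        rwa [star_mul, hpe.isSelfAdjoint.star_eq] at this
      rw [← mul_assoc, this, mul_assoc, pi_mul hpe b1]
    have a4 : q v = w * (star w * q v) := by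
      rw [← mul_assoc, hw2, mul_pi hpe.one_sub b2]
    refine ⟨tr (e * (star w * q v)), ?_⟩
    rw [a4]
    conv_lhs => rw [← a3, rank_one hee he, mul_smul_comm, hwe]
    rw [← a4]
  have hηv : η (q v) = ρ • q v := by rw [hκ, map_smul, hηw, smul_comm]
  set m1 := q v with hm1
  -- `conj ρ * ρ = 1`
  have hρρ : starRingEnd ℂ ρ * ρ = 1 := by
    have a1 : star (η w) * η w = e := by rw [← map_star, ← map_mul, hw1, hηe]
    rw [hηw, star_smul, smul_mul_smul_comm, hw1] at a1
    have a2 : (star ρ * ρ - 1) • e = 0 := by rw [sub_smul, one_smul, a1, sub_self]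
    have a3 := (smul_eq_zero.1 a2).resolve_right hne
    exact sub_eq_zero.1 a3
  have hρ' : starRingEnd ℂ ρ = -ρ := by
    have hρ0 : ρ ≠ 0 := by
      intro h0
      rw [h0] at hρ
      norm_num at hρ
    apply mul_right_cancel₀ hρ0
    rw [hρρ]
    linear_combination hρ
  set m2 : MA (Fin 2) ℂ := q u with hm2
  have hm2' : m2 = (-(μ * ρ)) • star m1 := by
    have a1 : e * star m1 = star m1 := by
      have := congrArg star (pi_mul hpe b1)
      rwa [star_mul, hpe.isSelfAdjoint.star_eq] at this
    rw [hm2, hu, map_mul, map_star, hq, hηv, hμ, star_smul, smul_mul_smul_comm, a1]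
    congr 1
    show μ * starRingEnd ℂ ρ = _
    rw [hρ']; ring
  have hηm2 : η m2 = (-ρ) • m2 := by
    rw [hm2', map_smul, map_star, hηv, star_smul]
    show _ • (starRingEnd ℂ ρ) • _ = _
    rw [hρ', smul_comm]
  have hqU : q U = m1 + m2 := by rw [hU, map_add]
  have z1 : m1 * m1 = 0 := by
    have a1 := pi_mul hpe b1
    have a2 := mul_pi hpe.one_sub b2
    calc m1 * m1 = (m1 * e) * ((1 - e) * m1) := by rw [a1, a2]
      _ = m1 * (e - e * e) * m1 := by noncomm_ring
      _ = 0 := by rw [hee, sub_self, mul_zero, zero_mul]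
  have z2 : m2 * m2 = 0 := by
    rw [hm2', smul_mul_smul_comm, ← star_mul, z1, star_zero, smul_zero]
  have z3 : m2 * m1 = (-(μ * ρ)) • e := by rw [hm2', smul_mul_assoc, b1]
  have z4 : m1 * m2 = (-(μ * ρ)) • (1 - e) := by rw [hm2', mul_smul_comm, b2]
  have hηU : η (q U) = ρ • m1 - ρ • m2 := by
    rw [hqU, map_add, hηv, hηm2, neg_smul, sub_eq_add_neg]
  have hM : q U * η (q U) = μ • (e - (1 - e)) := by
    rw [hqU, ← hqU, hηU, hqU]
    have : (m1 + m2) * (ρ • m1 - ρ • m2) =
        ρ • (m1 * m1) - ρ • (m1 * m2) + ρ • (m2 * m1) - ρ • (m2 * m2) := by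
      simp only [add_mul, mul_sub, mul_smul_comm, smul_add]
      abel
    rw [this, z1, z2, z3, z4]
    simp only [smul_zero, smul_smul, sub_zero, zero_sub]
    rw [show ρ * -(μ * ρ) = μ by linear_combination (-μ) * hρ]
    simp only [smul_sub]
    abel
  have hqC : q C = (μ * μ) • (1 : MA (Fin 2) ℂ) := by
    have a1 : q C = (q U * η (q U)) * η (η (q U * η (q U))) := by
      rw [hC]
      simp only [map_mul, hq]
      noncomm_ring
    rw [a1, hM]
    simp only [map_smul, map_sub, map_one, hηe]
    rw [smul_mul_smul_comm]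
    congr 1
    calc (e - (1 - e)) * (e - (1 - e)) = e * e * 4 - e * 4 + 1 := by noncomm_ring
      _ = 1 := by rw [hee]; noncomm_ring
  have hdc : dt (q c) = μ * μ := by
    have a1 : q c = 1 + (μ * μ - 1) • e := by
      rw [hc, map_add, map_mul, map_sub, map_one, hqC, smul_mul_assoc, one_mul, sub_smul,
        one_smul]
      abel
    rw [a1, dt_one_add, map_smul, he]
    have a2 : dt ((μ * μ - 1) • e) = (μ * μ - 1) * (μ * μ - 1) * dt e := by
      rw [dt_eq, dt_eq]
      simp only [MA.en_smul, smul_eq_mul]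
      ring
    rw [a2, dt_proj hee he]
    simp
  have hdU : dt (q U) * dt (q U) = -(μ * μ) := by
    have t3 : tr (q U) = 0 := by
      rw [hqU, map_add, nilp_tr hee (pi_mul hpe b1) (mul_pi hpe.one_sub b2), zero_add, hm2',
        map_smul]
      have hpe' := hpe.one_sub
      rw [nilp_tr (e := 1 - e) (w := star m1) hpe'.isIdempotentElem.eq, smul_zero]
      · have := congrArg star (mul_pi hpe.one_sub b2)
        rwa [star_mul, hpe'.isSelfAdjoint.star_eq] at this
      · rw [sub_sub_cancel]
        have := congrArg star (pi_mul hpe b1)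
        rwa [star_mul, hpe.isSelfAdjoint.star_eq] at this
    have c1 := cayley (q U) t3
    have c2 : q U * q U = (-(μ * ρ)) • (1 : MA (Fin 2) ℂ) := by
      rw [hqU]
      calc (m1 + m2) * (m1 + m2) = m1 * m1 + m1 * m2 + m2 * m1 + m2 * m2 := by noncomm_ring
        _ = (-(μ * ρ)) • (1 : MA (Fin 2) ℂ) := by
          rw [z1, z2, z3, z4, zero_add, add_zero, ← smul_add, sub_add_cancel]
    rw [c2] at c1
    have c3 := congrArg (fun z => MA.en z 0 0) c1
    simp only [MA.en_smul, MA.en_one, if_true, smul_eq_mul, mul_one] at c3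
    have c4 : dt (q U) = μ * ρ := by linear_combination c3
    rw [c4]
    linear_combination (μ * μ) * hρ
  rw [hdc, hdU] at d3
  have : μ * μ = 0 := by linear_combination (1 / 2 : ℂ) * d3
  exact hμ0 (mul_self_eq_zero.1 this)

end claims

end Pool.Agent.TH249
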