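import Mathlib
import Pool.Agent.TH249.Claims

/-!
Elements of finite-dimensional subalgebras are combinations of projections.
-/

set_option autoImplicit false
set_option linter.unusedSectionVars false

noncomputable section

namespace Pool.Agent.TH249

open Matrix Pool.Agent.H188R3 Filter Topology selfAdjoint

section

variable {A : Type} [CStarAlgebra A]

lemma cfc_ind_proj (a : A) (s : ℝ) (hfin : (spectrum ℝ a).Finite) :
    IsStarProjection (cfc (fun t : ℝ => if t = s then (1 : ℝ) else 0) a) := by
  have hc : ContinuousOn (fun t : ℝ => if t = s then (1 : ℝ) else 0) (spectrum ℝ a) :=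
    hfin.continuousOn _
  refine ⟨?_, ?_⟩
  · show _ * _ = _
    rw [← cfc_mul _ _ a hc hc]
    refine cfc_congr fun t _ => ?_
    simp
  · exact cfc_predicate _ a

lemma cfc_ind_map {B : Type} [CStarAlgebra B] (π : A →⋆ₐ[ℂ] B) (a : A) (ha : IsSelfAdjoint a)
    (s : ℝ) (hs : s ≠ 0) (hfin : (spectrum ℝ a).Finite) (h0 : π a = 0) :
    π (cfc (fun t : ℝ => if t = s then (1 : ℝ) else 0) a) = 0 := by
  have hc : ContinuousOn (fun t : ℝ => if t = s then (1 : ℝ) else 0) (spectrum ℝ a) :=
    hfin.continuousOn _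
  have h1 := StarAlgHomClass.map_cfc (R := ℝ) (S := ℂ) π
    (fun t : ℝ => if t = s then (1 : ℝ) else 0) a hc (cont_hom π) ha (ha.map π)
  rw [h1, h0, cfc_apply_zero]
  simp [hs.symm]

/-- self-adjoint elements with finite spectrum -/
lemma sa_decomp (a : A) (ha : IsSelfAdjoint a) (hfin : (spectrum ℝ a).Finite) :
    a ∈ Submodule.span ℂ {P : A | IsStarProjection P ∧
      ∀ (B : Type) [CStarAlgebra B] (π : A →⋆ₐ[ℂ] B), π a = 0 → π P = 0} := by
  classical
  have h1 : a = ∑ s ∈ hfin.toFinset,
      cfc (fun t : ℝ => s * (if t = s then (1 : ℝ) else 0)) a := by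
    rw [← cfc_sum (fun s t : ℝ => s * (if t = s then (1 : ℝ) else 0)) a hfin.toFinset
      (fun s _ => hfin.continuousOn _)]
    conv_lhs => rw [← cfc_id ℝ a ha]
    refine cfc_congr fun t ht => ?_
    simp only [Finset.sum_apply, id, mul_ite, mul_one, mul_zero]
    rw [Finset.sum_ite_eq]
    rw [if_pos (hfin.mem_toFinset.2 ht)]
  rw [h1]
  refine Submodule.sum_mem _ fun s _ => ?_
  have hc : ContinuousOn (fun t : ℝ => if t = s then (1 : ℝ) else 0) (spectrum ℝ a) :=
    hfin.continuousOn _
  rw [cfc_const_mul s _ a hc]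
  by_cases hs : s = 0
  · rw [hs, zero_smul]
    exact Submodule.zero_mem _
  · have : (s : ℝ) • cfc (fun t : ℝ => if t = s then (1 : ℝ) else 0) a =
        (s : ℂ) • cfc (fun t : ℝ => if t = s then (1 : ℝ) else 0) a := by
      rw [Complex.coe_smul]
    rw [this]
    refine Submodule.smul_mem _ _ (Submodule.subset_span ⟨cfc_ind_proj a s hfin, ?_⟩)
    intro B _ π h0
    rw [← h1] at h0
    exact cfc_ind_map π a ha s hs hfin h0

lemma spec_real_finite {a : A} (h : (spectrum ℂ a).Finite) : (spectrum ℝ a).Finite := by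
  have : (spectrum ℝ a) = (algebraMap ℝ ℂ) ⁻¹' (spectrum ℂ a) :=
    (spectrum.preimage_algebraMap ℂ (R := ℝ) (a := a)).symm
  rw [this]
  exact h.preimage ((algebraMap ℝ ℂ).injective.injOn)

/-- elements of a finite-dimensional subalgebra killed by `π` are combinations of projections
killed by `π` -/
lemma mem_span_ker {B : Type} [CStarAlgebra B] (π : A →⋆ₐ[ℂ] B) (F : StarSubalgebra ℂ A)
    [FiniteDimensional ℂ F] (a : A) (ha : a ∈ F) (h0 : π a = 0) :
    a ∈ Submodule.span ℂ {P : A | IsStarProjection P ∧ π P = 0} := by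
  have key : ∀ b : A, b ∈ F → IsSelfAdjoint b → π b = 0 →
      b ∈ Submodule.span ℂ {P : A | IsStarProjection P ∧ π P = 0} := by
    intro b hb hsa hb0
    have hfin := spec_real_finite (Pool.Agent.TH268.JB.finite_spec F b hb)
    refine Submodule.span_mono ?_ (sa_decomp b hsa hfin)
    rintro P ⟨h1, h2⟩
    exact ⟨h1, h2 B π hb0⟩
  have h1 : a = (1 / 2 : ℂ) • (a + star a) + (-(Complex.I) / 2 : ℂ) • (Complex.I • (a - star a)) := by
    rw [smul_smul]
    have : (-(Complex.I) / 2 * Complex.I : ℂ) = 1 / 2 := by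
      have := Complex.I_mul_I
      linear_combination (-1 / 2 : ℂ) * this
    rw [this, ← smul_add]
    have h2 : a + star a + (a - star a) = (2 : ℂ) • a := by
      rw [two_smul]; abel
    rw [h2, smul_smul]
    norm_num
  rw [h1]
  have hs0 : π (star a) = 0 := by rw [map_star, h0, star_zero]
  refine Submodule.add_mem _ (Submodule.smul_mem _ _ (key _ ?_ ?_ ?_))
    (Submodule.smul_mem _ _ (key _ ?_ ?_ ?_))
  · exact add_mem ha (star_mem ha)
  · show star (a + star a) = _
    rw [star_add, star_star, add_comm]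
  · rw [map_add, h0, hs0, add_zero]
  · exact F.smul_mem (sub_mem ha (star_mem ha)) _
  · show star (Complex.I • (a - star a)) = _
    rw [star_smul, star_sub, star_star]
    show (starRingEnd ℂ Complex.I) • _ = _
    rw [Complex.conj_I, neg_smul, ← smul_neg, neg_sub]
  · rw [map_smul, map_sub, h0, hs0, sub_self, smul_zero]

lemma mem_span_all (F : StarSubalgebra ℂ A) [FiniteDimensional ℂ F] (a : A) (ha : a ∈ F) :
    a ∈ Submodule.span ℂ {P : A | IsStarProjection P} := by
  have key : ∀ b : A, b ∈ F → IsSelfAdjoint b →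
      b ∈ Submodule.span ℂ {P : A | IsStarProjection P} := by
    intro b hb hsa
    have hfin := spec_real_finite (Pool.Agent.TH268.JB.finite_spec F b hb)
    refine Submodule.span_mono ?_ (sa_decomp b hsa hfin)
    rintro P ⟨h1, h2⟩
    exact h1
  have h1 : a = (1 / 2 : ℂ) • (a + star a) + (-(Complex.I) / 2 : ℂ) • (Complex.I • (a - star a)) := by
    rw [smul_smul]
    have : (-(Complex.I) / 2 * Complex.I : ℂ) = 1 / 2 := by
      have := Complex.I_mul_I
      linear_combination (-1 / 2 : ℂ) * this
    rw [this, ← smul_add]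
    have h2 : a + star a + (a - star a) = (2 : ℂ) • a := by
      rw [two_smul]; abel
    rw [h2, smul_smul]
    norm_num
  rw [h1]
  refine Submodule.add_mem _ (Submodule.smul_mem _ _ (key _ ?_ ?_))
    (Submodule.smul_mem _ _ (key _ ?_ ?_))
  · exact add_mem ha (star_mem ha)
  · show star (a + star a) = _
    rw [star_add, star_star, add_comm]
  · exact F.smul_mem (sub_mem ha (star_mem ha)) _
  · show star (Complex.I • (a - star a)) = _
    rw [star_smul, star_sub, star_star]
    show (starRingEnd ℂ Complex.I) • _ = _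
    rw [Complex.conj_I, neg_smul, ← smul_neg, neg_sub]

end

end Pool.Agent.TH249
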