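import Mathlib
import Pool.Agent.TH249.K0

/-!
The notions used in the final statement.
-/

set_option autoImplicit false

noncomputable section

namespace Pool.Agent.TH249

/-- A (unital) C*-algebra is AF: it is separable and there is an increasing sequence of
finite-dimensional *-subalgebras with dense union. -/
def IsAF (A : Type) [CStarAlgebra A] : Prop :=
  TopologicalSpace.SeparableSpace A ∧
  ∃ F : ℕ → StarSubalgebra ℂ A, Monotone F ∧ (∀ n, FiniteDimensional ℂ (F n)) ∧
    Dense (⋃ n, (F n : Set A))

/-- the map `f` has order exactly `n` under composition -/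
def HasOrder {X : Type} (f : X → X) (n : ℕ) : Prop :=
  f^[n] = id ∧ ∀ k : ℕ, 0 < k → k < n → f^[k] ≠ id

/-- *-automorphisms of `A` -/
def StarAut (A : Type) [CStarAlgebra A] : Type := A ≃⋆ₐ[ℂ] A

/-- group automorphisms of `K_0(A)` -/
def K0Aut (A : Type) [CStarAlgebra A] : Type := K0 A ≃+ K0 A

variable {A : Type} [CStarAlgebra A]

/-- a *-automorphism as a *-homomorphism -/
def StarAut.toHom (φ : A ≃⋆ₐ[ℂ] A) : A →⋆ₐ[ℂ] A := φ

/-- the underlying map of a *-automorphism -/
def StarAut.fn (φ : StarAut A) : A → A := fun a => StarAut.toHom φ a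

/-- the underlying map of a group automorphism of `K_0(A)` -/
def K0Aut.fn (α : K0 A ≃+ K0 A) : K0 A → K0 A := fun x => α x

/-- `α` preserves the positive cone and the scale of `K_0(A)` -/
def IsScaled (α : K0Aut A) : Prop :=
  K0Aut.fn α '' K0.pos A = K0.pos A ∧ K0Aut.fn α '' K0.scale A = K0.scale A

/-- the *-automorphism `φ` induces `α` on `K_0(A)` -/
def Induces (φ : StarAut A) (α : K0Aut A) : Prop :=
  ∀ x : K0 A, K0.map (StarAut.toHom φ) x = K0Aut.fn α x

end Pool.Agent.TH249
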