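import Mathlib
import Pool.Agent.TH249.Spn
import Pool.Agent.TH249.Stmt

/-!
The fibre product algebra.
-/

set_option autoImplicit false
set_option linter.unusedSectionVars false

noncomputable section

namespace Pool.Agent.TH249

open Matrix Pool.Agent.H188R3 Filter Topology selfAdjoint

lemma isAF_of {A : Type} [CStarAlgebra A] (F : ℕ → StarSubalgebra ℂ A) (hF : Monotone F)
    (hfd : ∀ n, FiniteDimensional ℂ (F n)) (hd : Dense (⋃ n, (F n : Set A))) : IsAF A := by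
  refine ⟨?_, F, hF, hfd, hd⟩
  have h1 : ∀ n, TopologicalSpace.IsSeparable (F n : Set A) := by
    intro n
    have h2 : FiniteDimensional ℂ (F n).toSubalgebra.toSubmodule := hfd n
    have h3 : ProperSpace (F n).toSubalgebra.toSubmodule := FiniteDimensional.proper ℂ _
    have h4 : SecondCountableTopology (F n).toSubalgebra.toSubmodule := inferInstance
    have h5 : TopologicalSpace.IsSeparable
        (((F n).toSubalgebra.toSubmodule : Submodule ℂ A) : Set A) :=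
      TopologicalSpace.IsSeparable.of_subtype _
    exact h5
  have h2 : TopologicalSpace.IsSeparable (Set.univ : Set A) := by
    have h3 := (TopologicalSpace.IsSeparable.iUnion h1).closure
    rwa [hd.closure_eq] at h3
  exact TopologicalSpace.isSeparable_univ_iff.1 h2

lemma range_fd {A B : Type} [CStarAlgebra A] [CStarAlgebra B] (f : A →⋆ₐ[ℂ] B)
    [FiniteDimensional ℂ A] : FiniteDimensional ℂ f.range := by
  let F : A →ₗ[ℂ] f.range :=
    { toFun := fun x => ⟨f x, x, rfl⟩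
      map_add' := fun x y => Subtype.ext (map_add f x y)
      map_smul' := fun c x => Subtype.ext (map_smul f c x) }
  refine FiniteDimensional.of_surjective F ?_
  rintro ⟨_, x, rfl⟩
  exact ⟨x, rfl⟩

lemma isAF_of_lim {A : ℕ → Type} [∀ n, CStarAlgebra (A n)] [∀ n, Nontrivial (A n)]
    {φ : ∀ n, A n →⋆ₐ[ℂ] A (n + 1)} {L : Type} [CStarAlgebra L] {j : ∀ n, A n →⋆ₐ[ℂ] L}
    (h : IsLim φ j) (hfd : ∀ n, FiniteDimensional ℂ (A n)) : IsAF L := by
  refine isAF_of (fun n => (j n).range) ?_ (fun n => ?_) ?_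
  · refine monotone_nat_of_le_succ fun n => ?_
    rintro _ ⟨x, rfl⟩
    exact ⟨φ n x, h.comp n x⟩
  · have := hfd n
    exact range_fd (j n)
  · intro y
    rw [Metric.mem_closure_iff]
    intro ε hε
    obtain ⟨n, x, hx⟩ := h.dense y ε hε
    refine ⟨j n x, Set.mem_iUnion.2 ⟨n, ⟨x, rfl⟩⟩, ?_⟩
    rwa [dist_eq_norm]

/-- triples with the same image under `q` -/
def AA {E : Type} [CStarAlgebra E] (q : E →⋆ₐ[ℂ] MA (Fin 2) ℂ) : StarSubalgebra ℂ (Fin 3 → E) where
  carrier := {a | ∀ i, q (a i) = q (a 0)}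
  mul_mem' {a b} ha hb i := by
    show q (a i * b i) = q (a 0 * b 0)
    rw [map_mul, map_mul, ha i, hb i]
  add_mem' {a b} ha hb i := by
    show q (a i + b i) = q (a 0 + b 0)
    rw [map_add, map_add, ha i, hb i]
  algebraMap_mem' c i := rfl
  star_mem' {a} ha i := by
    show q (star (a i)) = q (star (a 0))
    rw [map_star, map_star, ha i]

section

variable {E : Type} [CStarAlgebra E] (q : E →⋆ₐ[ℂ] MA (Fin 2) ℂ)

lemma mem_AA {a : Fin 3 → E} : a ∈ AA q ↔ ∀ i, q (a i) = q (a 0) := Iff.rfl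

lemma AA_closed : IsClosed (AA q : Set (Fin 3 → E)) := by
  have h : (AA q : Set (Fin 3 → E)) = ⋂ i, {a | q (a i) = q (a 0)} := by
    ext a
    simp only [Set.mem_iInter, Set.mem_ofPred_eq]
    exact Iff.rfl
  rw [h]
  refine isClosed_iInter fun i => isClosed_eq ?_ ?_
  · exact (cont_hom q).comp (continuous_apply i)
  · exact (cont_hom q).comp (continuous_apply 0)

/-- the fibre product as a C*-algebra -/
def TA {E : Type} [CStarAlgebra E] (q : E →⋆ₐ[ℂ] MA (Fin 2) ℂ) : Type := AA q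

instance instTA : CStarAlgebra (TA q) :=
  StarSubalgebra.cstarAlgebra (AA q) (h_closed := AA_closed q)

/-- the coordinate maps -/
def pr (i : Fin 3) : TA q →⋆ₐ[ℂ] E := (evHom (B := fun _ : Fin 3 => E) i).comp
  (AA q).subtype

lemma pr_apply (i : Fin 3) (a : TA q) : pr q i a = (a : AA q).1 i := rfl

lemma AA_ext {a b : TA q} (h : ∀ i, pr q i a = pr q i b) : a = b :=
  Subtype.ext (funext h)

lemma q_pr (i k : Fin 3) (a : TA q) : q (pr q i a) = q (pr q k a) := by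
  have h1 := a.2 i
  have h2 := a.2 k
  exact h1.trans h2.symm

variable {q} {E' : Type} [CStarAlgebra E'] {q' : E' →⋆ₐ[ℂ] MA (Fin 2) ℂ}

/-- a *-homomorphism into the fibre product -/
def mkHomA {B : Type} [CStarAlgebra B] (G : Fin 3 → (B →⋆ₐ[ℂ] E))
    (hG : ∀ i x, q (G i x) = q (G 0 x)) : B →⋆ₐ[ℂ] TA q :=
  (piHom G).codRestrict (AA q) (fun x i => hG i x)

lemma pr_mkHomA {B : Type} [CStarAlgebra B] (G : Fin 3 → (B →⋆ₐ[ℂ] E))
    (hG : ∀ i x, q (G i x) = q (G 0 x)) (i : Fin 3) (x : B) :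
    pr q i (mkHomA G hG x) = G i x := rfl

/-- the diagonal embedding -/
def dg (q : E →⋆ₐ[ℂ] MA (Fin 2) ℂ) : E →⋆ₐ[ℂ] TA q :=
  mkHomA (fun _ => StarAlgHom.id ℂ E) (fun _ _ => rfl)

lemma pr_dg (i : Fin 3) (x : E) : pr q i (dg q x) = x := rfl

/-- coordinatewise maps between fibre products -/
def mapf (G : Fin 3 → (E →⋆ₐ[ℂ] E')) (hG : ∀ i x, q' (G i x) = q x) : TA q →⋆ₐ[ℂ] TA q' :=
  mkHomA (q := q') (fun i => (G i).comp (pr q i)) (fun i x => by
    show q' (G i (pr q i x)) = q' (G 0 (pr q 0 x))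
    rw [hG, hG]
    exact q_pr q i 0 x)

lemma pr_mapf (G : Fin 3 → (E →⋆ₐ[ℂ] E')) (hG : ∀ i x, q' (G i x) = q x) (i : Fin 3)
    (a : TA q) : pr q' i (mapf G hG a) = G i (pr q i a) := rfl

/-- the automorphism -/
def Phi0 (θ : E →⋆ₐ[ℂ] E) (hθ : ∀ x, q (θ x) = q x) : TA q →⋆ₐ[ℂ] TA q :=
  mkHomA (q := q) ![θ.comp (pr q 0), θ.comp (pr q 2), pr q 1] (fun i x => by
    have h0 : q (θ (pr q 0 x)) = q (pr q 0 x) := hθ _
    have h2 : q (θ (pr q 2 x)) = q (pr q 0 x) := (hθ _).trans (q_pr q 2 0 x)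
    have h1 : q (pr q 1 x) = q (pr q 0 x) := q_pr q 1 0 x
    fin_cases i
    · rfl
    · exact h2.trans h0.symm
    · exact h1.trans h0.symm)

lemma pr0_Phi0 (θ : E →⋆ₐ[ℂ] E) (hθ : ∀ x, q (θ x) = q x) (a : TA q) :
    pr q 0 (Phi0 θ hθ a) = θ (pr q 0 a) := rfl
lemma pr1_Phi0 (θ : E →⋆ₐ[ℂ] E) (hθ : ∀ x, q (θ x) = q x) (a : TA q) :
    pr q 1 (Phi0 θ hθ a) = θ (pr q 2 a) := rfl
lemma pr2_Phi0 (θ : E →⋆ₐ[ℂ] E) (hθ : ∀ x, q (θ x) = q x) (a : TA q) :
    pr q 2 (Phi0 θ hθ a) = pr q 1 a := rfl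

lemma AA_ext3 {a b : TA q} (h0 : pr q 0 a = pr q 0 b) (h1 : pr q 1 a = pr q 1 b)
    (h2 : pr q 2 a = pr q 2 b) : a = b := by
  refine AA_ext q fun i => ?_
  fin_cases i
  · exact h0
  · exact h1
  · exact h2

/-- the automorphism as an equivalence -/
def Phi (θ : E ≃⋆ₐ[ℂ] E) (hθ : ∀ x, q (θ x) = q x) : TA q ≃⋆ₐ[ℂ] TA q :=
  StarAlgEquiv.ofBijective (Phi0 (θ : E →⋆ₐ[ℂ] E) hθ) (by
    refine ⟨fun a b hab => ?_, fun b => ?_⟩
    · have h0 : θ (pr q 0 a) = θ (pr q 0 b) := congrArg (pr q 0) hab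
      have h1 : θ (pr q 2 a) = θ (pr q 2 b) := congrArg (pr q 1) hab
      have h2 : pr q 1 a = pr q 1 b := congrArg (pr q 2) hab
      exact AA_ext3 (θ.injective h0) h2 (θ.injective h1)
    · have hsym : ∀ x, q (θ.symm x) = q x := fun x => by
        conv_rhs => rw [← θ.apply_symm_apply x, hθ]
      refine ⟨⟨![θ.symm (pr q 0 b), pr q 2 b, θ.symm (pr q 1 b)], ?_⟩, ?_⟩
      · intro i
        have h0 : q (θ.symm (pr q 0 b)) = q (pr q 0 b) := hsym _
        have h1 : q (θ.symm (pr q 1 b)) = q (pr q 0 b) := (hsym _).trans (q_pr q 1 0 b)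
        have h2 : q (pr q 2 b) = q (pr q 0 b) := q_pr q 2 0 b
        fin_cases i
        · rfl
        · exact h2.trans h0.symm
        · exact h1.trans h0.symm
      · refine AA_ext3 ?_ ?_ ?_
        · exact θ.apply_symm_apply _
        · exact θ.apply_symm_apply _
        · rfl)

lemma pr0_Phi (θ : E ≃⋆ₐ[ℂ] E) (hθ : ∀ x, q (θ x) = q x) (a : TA q) :
    pr q 0 (Phi θ hθ a) = θ (pr q 0 a) := rfl
lemma pr1_Phi (θ : E ≃⋆ₐ[ℂ] E) (hθ : ∀ x, q (θ x) = q x) (a : TA q) :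
    pr q 1 (Phi θ hθ a) = θ (pr q 2 a) := rfl
lemma pr2_Phi (θ : E ≃⋆ₐ[ℂ] E) (hθ : ∀ x, q (θ x) = q x) (a : TA q) :
    pr q 2 (Phi θ hθ a) = pr q 1 a := rfl

end

/-- section of the block projection -/
def sec (n : ℕ) (m : MA (Fin 2) ℂ) : En n :=
  Fin.cons (α := fun i => MA (Fin (DD n i)) ℂ) m (fun _ => 0)

lemma xb_sec (n : ℕ) (m : MA (Fin 2) ℂ) : xb n (sec n m) = m := rfl

lemma norm_sec_le (n : ℕ) (m : MA (Fin 2) ℂ) : ‖sec n m‖ ≤ ‖m‖ := by
  rw [pi_norm_le_iff_of_nonneg (norm_nonneg _)]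
  intro i
  refine Fin.cases ?_ (fun i => ?_) i
  · exact le_rfl
  · show ‖(0 : MA (Fin (DD n i.succ)) ℂ)‖ ≤ ‖m‖
    rw [norm_zero]; exact norm_nonneg _

section lim

variable (D : Data) {E : Type} [CStarAlgebra E] {j : ∀ n, En n →⋆ₐ[ℂ] E} (h : IsLim D.io j)
  {q : E →⋆ₐ[ℂ] MA (Fin 2) ℂ} (hq : ∀ n x, q (j n x) = xb n x)

include h hq

/-- approximation in the fibre product with prescribed vanishing of coordinates -/
lemma approx_AA (S : Finset (Fin 3)) (a : TA q) (ha : ∀ i ∈ S, pr q i a = 0) {ε : ℝ}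
    (hε : 0 < ε) : ∃ n, ∃ x : TA (xb n), (∀ i ∈ S, pr (xb n) i x = 0) ∧
      ∀ i, ‖pr q i a - j n (pr (xb n) i x)‖ < ε := by
  classical
  obtain ⟨n, hn⟩ := h.approx_finset (Finset.univ : Finset (Fin 3)) (fun i => pr q i a)
    (show 0 < ε / 3 by positivity)
  obtain ⟨x, hx⟩ := hn n le_rfl
  have hx' : ∀ i, ‖pr q i a - j n (x i)‖ < ε / 3 := fun i => hx i (Finset.mem_univ i)
  -- the common value of the distinguished block
  set m : MA (Fin 2) ℂ := if S.Nonempty then 0 else xb n (x 0) with hm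
  have hmq : ‖m - q (pr q 0 a)‖ ≤ ε / 3 := by
    by_cases hS : S.Nonempty
    · obtain ⟨i, hi⟩ := hS
      have h1 : q (pr q 0 a) = 0 := by
        rw [q_pr q 0 i a, ha i hi, map_zero]
      rw [hm, if_pos ⟨i, hi⟩, h1, sub_zero, norm_zero]
      positivity
    · rw [hm, if_neg hS, ← hq, ← map_sub]
      refine (norm_map_le' _ _).trans ?_
      rw [norm_sub_rev]
      exact (hx' 0).le
  let y : Fin 3 → En n := fun i => if i ∈ S then 0 else x i + sec n (m - xb n (x i))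
  have hy0 : ∀ i, xb n (y i) = m := by
    intro i
    by_cases hi : i ∈ S
    · have : y i = 0 := if_pos hi
      rw [this, map_zero, hm, if_pos ⟨i, hi⟩]
    · have : y i = x i + sec n (m - xb n (x i)) := if_neg hi
      rw [this, map_add, xb_sec]
      abel
  refine ⟨n, ⟨y, fun i => by rw [hy0, hy0]⟩, fun i hi => if_pos hi, fun i => ?_⟩
  show ‖pr q i a - j n (y i)‖ < ε
  by_cases hi : i ∈ S
  · have h1 : y i = 0 := if_pos hi
    rw [h1, ha i hi, map_zero, sub_zero, norm_zero]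
    exact hε
  · have h1 : y i = x i + sec n (m - xb n (x i)) := if_neg hi
    rw [h1, map_add]
    have h2 : ‖m - xb n (x i)‖ < 2 * (ε / 3) := by
      calc ‖m - xb n (x i)‖ = ‖(m - q (pr q 0 a)) + q (pr q i a - j n (x i))‖ := by
            rw [map_sub, hq, q_pr q i 0 a]
            congr 1; abel
        _ ≤ ‖m - q (pr q 0 a)‖ + ‖q (pr q i a - j n (x i))‖ := norm_add_le _ _
        _ < ε / 3 + ε / 3 := by
            refine add_lt_add_of_le_of_lt hmq ((norm_map_le' _ _).trans_lt (hx' i))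
        _ = 2 * (ε / 3) := by ring
    calc ‖pr q i a - (j n (x i) + j n (sec n (m - xb n (x i))))‖
        = ‖(pr q i a - j n (x i)) - j n (sec n (m - xb n (x i)))‖ := by congr 1; abel
      _ ≤ ‖pr q i a - j n (x i)‖ + ‖j n (sec n (m - xb n (x i)))‖ := norm_sub_le _ _
      _ < ε / 3 + 2 * (ε / 3) := by
          refine add_lt_add (hx' i) ?_
          exact ((norm_map_le' _ _).trans (norm_sec_le _ _)).trans_lt h2
      _ = ε := by ring

end lim

section lim2

variable (D : Data) {E : Type} [CStarAlgebra E] {j : ∀ n, En n →⋆ₐ[ℂ] E} (h : IsLim D.io j)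
  {q : E →⋆ₐ[ℂ] MA (Fin 2) ℂ} (hq : ∀ n x, q (j n x) = xb n x)

/-- stage inclusions for the fibre products -/
def ioA (n : ℕ) : TA (xb n) →⋆ₐ[ℂ] TA (xb (n + 1)) :=
  mapf (fun _ => D.io n) (fun _ x => (D.hio n).x0 x)

/-- canonical maps for the fibre products -/
def jA (n : ℕ) : TA (xb n) →⋆ₐ[ℂ] TA q := mapf (fun _ => j n) (fun _ x => hq n x)

lemma pr_jA (n : ℕ) (i : Fin 3) (x : TA (xb n)) :
    pr q i (jA hq n x) = j n (pr (xb n) i x) := rfl

instance (n : ℕ) : Nontrivial (TA (xb n)) := by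
  refine ⟨0, 1, fun h => ?_⟩
  have h1 := congrArg (pr (xb n) 0) h
  rw [map_zero, map_one] at h1
  exact zero_ne_one h1

lemma norm_AA_lt {a b : TA q} {ε : ℝ} (hε : 0 < ε) (hab : ∀ i, ‖pr q i a - pr q i b‖ < ε) :
    ‖a - b‖ < ε := by
  show ‖((a - b : TA q) : AA q).1‖ < ε
  rw [pi_norm_lt_iff hε]
  exact hab

include h in
theorem isLimA : IsLim (fun n => ioA D n) (fun n => jA hq n) where
  inj n x y hxy := by
    refine AA_ext _ fun i => h.inj n ?_
    exact congrArg (pr q i) hxy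
  comp n x := by
    refine AA_ext _ fun i => ?_
    exact h.comp n _
  dense y ε hε := by
    obtain ⟨n, x, -, hx⟩ := approx_AA D h hq ∅ y (by simp) hε
    exact ⟨n, x, norm_AA_lt hε hx⟩

instance fd_AA (n : ℕ) : FiniteDimensional ℂ (TA (xb n)) := by
  have : FiniteDimensional ℂ (Fin 3 → En n) := inferInstance
  exact FiniteDimensional.finiteDimensional_submodule (AA (xb n)).toSubalgebra.toSubmodule

include D h hq in
theorem isAF_A : IsAF (TA q) := isAF_of_lim (isLimA D h hq) fd_AA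

/-- block traces on the fibre products -/
def btA (n : ℕ) (k : Fin 3 × Fin 4) : TA (xb n) →ₗ[ℂ] ℂ :=
  (bt (DD n) k.2).comp (pr (xb n) k.1 : TA (xb n) →ₐ[ℂ] En n).toLinearMap

lemma btA_apply (n : ℕ) (k : Fin 3 × Fin 4) (x : TA (xb n)) :
    btA n k x = tr (pr (xb n) k.1 x k.2) := rfl

theorem detectsA (n : ℕ) : Detects (btA n) where
  comm k x y := by
    rw [btA_apply, btA_apply, map_mul, map_mul]
    exact tr_mul_comm _ _
  det {I} _ _ P Q hP hQ hPQ := by
    classical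
    have hex : ∀ (i : Fin 3) (b : Fin 4), ∃ v : Matrix (I × Fin (DD n b)) (I × Fin (DD n b)) ℂ,
        vᴴ * v = blk (P.map (pr (xb n) i)) b ∧ v * vᴴ = blk (Q.map (pr (xb n) i)) b := by
      intro i b
      exact exists_blk (hP.map (pr (xb n) i)) (hQ.map (pr (xb n) i)) b (hPQ (i, b))
    choose v hv1 hv2 using hex
    let W : ∀ (i : Fin 3) (b : Fin 4), Matrix (I × Fin (DD n b)) (I × Fin (DD n b)) ℂ :=
      fun i b => v (if b = 0 then 0 else i) b
    have h0 : ∀ (R : Matrix I I (TA (xb n))) (i : Fin 3),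
        blk (R.map (pr (xb n) i)) 0 = blk (R.map (pr (xb n) 0)) 0 := by
      intro R i
      ext x y
      show (pr (xb n) i (R x.1 y.1) 0).en x.2 y.2 = (pr (xb n) 0 (R x.1 y.1) 0).en x.2 y.2
      have h1 : pr (xb n) i (R x.1 y.1) 0 = pr (xb n) 0 (R x.1 y.1) 0 :=
        q_pr (xb n) i 0 (R x.1 y.1)
      rw [h1]
    have hW1 : ∀ i b, (W i b)ᴴ * W i b = blk (P.map (pr (xb n) i)) b := by
      intro i b
      by_cases hb : b = 0
      · subst hb
        show (v (if (0 : Fin 4) = 0 then 0 else i) 0)ᴴ * v (if (0 : Fin 4) = 0 then 0 else i) 0 = _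
        rw [if_pos rfl, hv1, h0 P i]
      · show (v (if b = 0 then 0 else i) b)ᴴ * v (if b = 0 then 0 else i) b = _
        rw [if_neg hb, hv1]
    have hW2 : ∀ i b, W i b * (W i b)ᴴ = blk (Q.map (pr (xb n) i)) b := by
      intro i b
      by_cases hb : b = 0
      · subst hb
        show v (if (0 : Fin 4) = 0 then 0 else i) 0 * (v (if (0 : Fin 4) = 0 then 0 else i) 0)ᴴ = _
        rw [if_pos rfl, hv2, h0 Q i]
      · show v (if b = 0 then 0 else i) b * (v (if b = 0 then 0 else i) b)ᴴ = _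
        rw [if_neg hb, hv2]
    let V : Matrix I I (TA (xb n)) := Matrix.of fun a b =>
      ⟨fun i => unblk (W i) a b, fun i => rfl⟩
    have hV : ∀ i, V.map (pr (xb n) i) = unblk (W i) := fun i => rfl
    have hmm : ∀ (i : Fin 3) (R T : Matrix I I (TA (xb n))),
        (R * T).map (pr (xb n) i) = R.map (pr (xb n) i) * T.map (pr (xb n) i) := by
      intro i R T
      ext1 a b
      simp [mul_apply, map_sum]
    have hms : ∀ (i : Fin 3) (R : Matrix I I (TA (xb n))),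
        (Rᴴ).map (pr (xb n) i) = (R.map (pr (xb n) i))ᴴ := by
      intro i R
      ext1 a b
      simp [conjTranspose_apply, map_star]
    have hext : ∀ R T : Matrix I I (TA (xb n)),
        (∀ i, R.map (pr (xb n) i) = T.map (pr (xb n) i)) → R = T := by
      intro R T hRT
      ext1 a b
      exact AA_ext _ fun i => congrFun (congrFun (hRT i) a) b
    refine ⟨V, hext _ _ fun i => blk_inj fun b => ?_, hext _ _ fun i => blk_inj fun b => ?_⟩
    · rw [hmm, hms, hV, blk_mul, blk_star, blk_unblk, hW1]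
    · rw [hmm, hms, hV, blk_mul, blk_star, blk_unblk, hW2]

end lim2

end Pool.Agent.TH249
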