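import Mathlib
import Pool.Agent.TH249.Alg

/-!
The main argument.
-/

set_option autoImplicit false
set_option linter.unusedSectionVars false

noncomputable section

namespace Pool.Agent.TH249

open Matrix Pool.Agent.H188R3 Filter Topology selfAdjoint

section tr2

/-- *-endomorphisms of `M_2` preserve the trace -/
lemma tr_hom (η : MA (Fin 2) ℂ →⋆ₐ[ℂ] MA (Fin 2) ℂ) (x : MA (Fin 2) ℂ) : tr (η x) = tr x := by
  have hoff : ∀ r s : Fin 2, r ≠ s → tr (η (MA.unit r s)) = 0 := by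
    intro r s hrs
    have h1 : (MA.unit r s : MA (Fin 2) ℂ) = MA.unit r r * MA.unit r s := by
      rw [MA.unit_mul, if_pos rfl]
    have h2 : (MA.unit r s : MA (Fin 2) ℂ) * MA.unit r r = 0 := by
      rw [MA.unit_mul, if_neg hrs.symm]
    rw [h1, map_mul, tr_mul_comm, ← map_mul, h2, map_zero, map_zero]
  have hd : tr (η (MA.unit 0 0)) = tr (η (MA.unit 1 1)) := by
    have h1 : (MA.unit 0 0 : MA (Fin 2) ℂ) = MA.unit 0 1 * MA.unit 1 0 := by
      rw [MA.unit_mul, if_pos rfl]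
    have h2 : (MA.unit 1 1 : MA (Fin 2) ℂ) = MA.unit 1 0 * MA.unit 0 1 := by
      rw [MA.unit_mul, if_pos rfl]
    rw [h1, map_mul, tr_mul_comm, ← map_mul, ← h2]
  have hs : tr (η (MA.unit 0 0)) + tr (η (MA.unit 1 1)) = 2 := by
    have h1 := MA.sum_unit (I := Fin 2)
    rw [Fin.sum_univ_two] at h1
    rw [← map_add, ← map_add, h1, map_one, tr_two]
    simp only [MA.en_one]
    norm_num
  have h00 : tr (η (MA.unit 0 0)) = 1 := by linear_combination (1 / 2 : ℂ) * hs + (1 / 2 : ℂ) * hd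
  have h11 : tr (η (MA.unit 1 1)) = 1 := by linear_combination (1 / 2 : ℂ) * hs - (1 / 2 : ℂ) * hd
  conv_lhs => rw [MA.eq_sum_unit x]
  conv_rhs => rw [tr_two]
  simp only [Fin.sum_univ_two, map_add, map_smul, h00, h11, hoff 0 1 (by decide),
    hoff 1 0 (by decide), smul_eq_mul, mul_one, mul_zero, add_zero, zero_add]

/-- invariant rank one projections -/
lemma m2MA (η : MA (Fin 2) ℂ →⋆ₐ[ℂ] MA (Fin 2) ℂ) (h4 : ∀ x, η (η (η (η x))) = x) :
    ∃ (e w : MA (Fin 2) ℂ) (ρ : ℂ), IsStarProjection e ∧ tr e = 1 ∧ star w * w = e ∧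
      w * star w = 1 - e ∧ η e = e ∧ η w = ρ • w ∧ ρ ^ 4 = 1 := by
  obtain ⟨U, u1, -, u3⟩ := ueMA (J := Unit) (fun _ => Fin 2) (fun _ => 0)
    (evHom (B := fun _ : Unit => MA (Fin 2) ℂ) ())
    (η.comp (evHom (B := fun _ : Unit => MA (Fin 2) ℂ) ())) (fun x => (tr_hom η (x ())).symm)
  have hη : ∀ x, η x = U * x * star U := fun x => u3 (fun _ => x)
  set u := matHom (Fin 2) U with hu
  have hinv : ∀ x : Matrix (Fin 2) (Fin 2) ℂ, matHom (Fin 2) (matHom' (Fin 2) x) = x :=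
    fun x => rfl
  have hinv' : ∀ x : MA (Fin 2) ℂ, matHom' (Fin 2) (matHom (Fin 2) x) = x := fun x => rfl
  have hc : ∀ x : Matrix (Fin 2) (Fin 2) ℂ,
      u * x * star u = matHom (Fin 2) (η (matHom' (Fin 2) x)) := by
    intro x
    rw [hη, map_mul, map_mul, map_star, hinv]
  obtain ⟨e, w, ρ, h1, h2, h3, h5, h6, h7, h8⟩ := JD.m2 u (by rw [hu, ← map_star, ← map_mul, u1,
    map_one]) (by
      have e1 : ∀ y : MA (Fin 2) ℂ, u * matHom (Fin 2) y * star u = matHom (Fin 2) (η y) :=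
        fun y => by rw [hc, hinv']
      intro x
      obtain ⟨y, rfl⟩ : ∃ y, matHom (Fin 2) y = x := ⟨matHom' (Fin 2) x, rfl⟩
      rw [e1, e1, e1, e1, h4])
  refine ⟨matHom' (Fin 2) e, matHom' (Fin 2) w, ρ, h1.map (matHom' (Fin 2)), h2, ?_, ?_, ?_, ?_,
    h8⟩
  · rw [← map_star, ← map_mul, h3]
  · rw [← map_star, ← map_mul, h5, map_sub, map_one]
  · have := congrArg (matHom' (Fin 2)) ((hc e).symm.trans h6)
    rwa [hinv'] at this
  · have := congrArg (matHom' (Fin 2)) ((hc w).symm.trans h7)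
    rwa [hinv', map_smul] at this

end tr2

/-- factoring a *-homomorphism through a surjection -/
lemma factor {A B C : Type} [CStarAlgebra A] [CStarAlgebra B] [CStarAlgebra C]
    (π : A →⋆ₐ[ℂ] B) (s : B → A) (hs : ∀ b, π (s b) = b) (ψ : A →⋆ₐ[ℂ] C)
    (hker : ∀ a, π a = 0 → ψ a = 0) : ∃ ψ' : B →⋆ₐ[ℂ] C, ∀ a, ψ' (π a) = ψ a := by
  have key : ∀ a b, π a = π b → ψ a = ψ b := by
    intro a b hab
    have := hker (a - b) (by rw [map_sub, hab, sub_self])
    rwa [map_sub, sub_eq_zero] at this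
  refine ⟨{ toFun := fun b => ψ (s b)
            map_one' := ?_
            map_mul' := fun x y => ?_
            map_zero' := ?_
            map_add' := fun x y => ?_
            commutes' := fun c => ?_
            map_star' := fun x => ?_ }, fun a => ?_⟩
  · rw [key (s 1) 1 (by rw [hs, map_one]), map_one]
  · rw [← map_mul]
    exact key _ _ (by rw [hs, map_mul, hs, hs])
  · rw [key (s 0) 0 (by rw [hs, map_zero]), map_zero]
  · rw [← map_add]
    exact key _ _ (by rw [hs, map_add, hs, hs])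
  · rw [key (s (algebraMap ℂ B c)) (algebraMap ℂ A c) (by rw [hs, AlgHomClass.commutes]),
      AlgHomClass.commutes]
  · rw [← map_star]
    exact key _ _ (by rw [hs, map_star, hs])
  · exact key _ _ (hs _)

section main

variable (D : Data) {E : Type} [CStarAlgebra E] {j : ∀ n, En n →⋆ₐ[ℂ] E} (h : IsLim D.io j)
  {q : E →⋆ₐ[ℂ] MA (Fin 2) ℂ} (hq : ∀ n x, q (j n x) = xb n x)
  {θ : E ≃⋆ₐ[ℂ] E} (hθ : ∀ n, Even n → ∀ x, θ (j n x) = j (n + 1) (D.c n x))
  (hqθ : ∀ x, q (θ x) = q x)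
  {f : E →L[ℂ] ℂ} (hf : ∀ n x, f (j n x) = lf n x) (hfθ : ∀ x, f (θ x) = -f x)

/-- Murray-von Neumann equivalence of elements -/
def MvN {B : Type} [CStarAlgebra B] (p q : B) : Prop := ∃ v : B, star v * v = p ∧ v * star v = q

lemma MvN.symm {B : Type} [CStarAlgebra B] {p q : B} (h : MvN p q) : MvN q p := by
  obtain ⟨v, h1, h2⟩ := h
  exact ⟨star v, by rw [star_star, h2], by rw [star_star, h1]⟩

lemma MvN.trans {B : Type} [CStarAlgebra B] {p q r : B} (hp : IsStarProjection p)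
    (hr : IsStarProjection r) (h : MvN p q) (h' : MvN q r) : MvN p r := by
  obtain ⟨v, h1, h2⟩ := h
  obtain ⟨w, h3, h4⟩ := h'
  refine ⟨w * v, ?_, ?_⟩
  · calc star (w * v) * (w * v) = star v * (star w * w) * v := by rw [star_mul]; noncomm_ring
      _ = (star v * v) * (star v * v) := by rw [h3, ← h2]; noncomm_ring
      _ = p := by rw [h1, hp.isIdempotentElem.eq]
  · calc (w * v) * star (w * v) = w * (v * star v) * star w := by rw [star_mul]; noncomm_ring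
      _ = (w * star w) * (w * star w) := by rw [h2, ← h3]; noncomm_ring
      _ = r := by rw [h4, hr.isIdempotentElem.eq]

lemma MvN.map {B C : Type} [CStarAlgebra B] [CStarAlgebra C] {p q : B} (h : MvN p q)
    (χ : B →⋆ₐ[ℂ] C) : MvN (χ p) (χ q) := by
  obtain ⟨v, h1, h2⟩ := h
  exact ⟨χ v, by rw [← map_star, ← map_mul, h1], by rw [← map_star, ← map_mul, h2]⟩

lemma MvN.zero {B : Type} [CStarAlgebra B] {p : B} (h : MvN p 0) : p = 0 := by
  obtain ⟨v, h1, h2⟩ := h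
  have : star v = 0 := by
    have h3 : ‖star v‖ * ‖star v‖ = 0 := by
      rw [← CStarRing.norm_star_mul_self, star_star, h2, norm_zero]
    have := mul_self_eq_zero.1 h3
    exact norm_eq_zero.1 this
  rw [← h1, this, zero_mul]

lemma cls_to_MvN (h : IsLim D.io j) {p r : E} (hp : IsStarProjection p) (hr : IsStarProjection r)
    (hpr : K0.cls (Prj.of p hp) = K0.cls (Prj.of r hr)) : MvN p r :=
  K0_cancel h (fun n => bt (DD n)) (fun n => detects_FA (DD n)) p r hp hr hpr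

lemma stage_MvN {n : ℕ} {x y : En n} (hx : IsStarProjection x) (hy : IsStarProjection y)
    (hxy : ∀ b, tr (x b) = tr (y b)) : MvN x y := by
  have hx' : IsPrj (Matrix.of fun (_ _ : Fin 1) => x) := (Prj.of x hx).isPrj
  have hy' : IsPrj (Matrix.of fun (_ _ : Fin 1) => y) := (Prj.of y hy).isPrj
  obtain ⟨v, h1, h2⟩ := (detects_FA (DD n)).det (Matrix.of fun (_ _ : Fin 1) => x)
    (Matrix.of fun (_ _ : Fin 1) => y) hx' hy' (by
      intro b
      rw [Fin.sum_univ_one, Fin.sum_univ_one]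
      exact hxy b)
  refine ⟨v 0 0, ?_, ?_⟩
  · have h3 := congrFun (congrFun h1 0) 0
    rw [mul_apply, Fin.sum_univ_one] at h3
    exact h3
  · have h3 := congrFun (congrFun h2 0) 0
    rw [mul_apply, Fin.sum_univ_one] at h3
    exact h3

include h hθ in
lemma theta_MvN {x y : En 0} (hx : IsStarProjection x) (hy : IsStarProjection y)
    (hxy : ∀ b, ∑ k, (SS 0 b k : ℂ) * tr (x k) = ∑ k, (TT 0 b k : ℂ) * tr (y k)) :
    MvN (θ (j 0 x)) (j 0 y) := by
  have h1 : MvN (D.c 0 x) (D.io 0 y) := stage_MvN (hx.map (D.c 0)) (hy.map (D.io 0)) (by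
    intro b
    rw [(D.hc 0).trc, (D.hio 0).trc, hxy])
  have h2 := h1.map (j 1)
  rw [hθ 0 (by decide), ← h.comp 0 y]
  exact h2

/-- the special projection at stage zero -/
def p0 (e : MA (Fin 2) ℂ) : En 0 :=
  Fin.cons (α := fun i => MA (Fin (DD 0 i)) ℂ) e (fun i => if i = 2 then 1 else 0)

lemma p0_proj {e : MA (Fin 2) ℂ} (he : IsStarProjection e) : IsStarProjection (p0 e) := by
  refine ⟨?_, ?_⟩
  · show p0 e * p0 e = p0 e
    funext i
    refine Fin.cases ?_ (fun i => ?_) i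
    · exact he.isIdempotentElem.eq
    · show (if i = 2 then (1 : MA (Fin (DD 0 i.succ)) ℂ) else 0) *
        (if i = 2 then (1 : MA (Fin (DD 0 i.succ)) ℂ) else 0) = if i = 2 then 1 else 0
      split_ifs <;> simp
  · show star (p0 e) = p0 e
    funext i
    refine Fin.cases ?_ (fun i => ?_) i
    · exact he.isSelfAdjoint.star_eq
    · show star (if i = 2 then (1 : MA (Fin (DD 0 i.succ)) ℂ) else 0) = if i = 2 then 1 else 0
      split_ifs <;> simp

lemma tr_one' (n : ℕ) : tr (1 : MA (Fin n) ℂ) = n := by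
  rw [tr_apply]
  simp [MA.en_one]

lemma tr_p0 {e : MA (Fin 2) ℂ} (he : tr e = 1) :
    tr (p0 e 0) = 1 ∧ tr (p0 e 1) = 0 ∧ tr (p0 e 2) = 0 ∧ tr (p0 e 3) = 2 := by
  refine ⟨he, ?_, ?_, ?_⟩
  · show tr (if (0 : Fin 3) = 2 then (1 : MA (Fin (DD 0 1)) ℂ) else 0) = 0
    rw [if_neg (by decide), map_zero]
  · show tr (if (1 : Fin 3) = 2 then (1 : MA (Fin (DD 0 2)) ℂ) else 0) = 0
    rw [if_neg (by decide), map_zero]
  · show tr (if (2 : Fin 3) = 2 then (1 : MA (Fin (DD 0 3)) ℂ) else 0) = 2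
    rw [if_pos rfl, tr_one']
    simp [DD, ab]

lemma tr_q0 {e : MA (Fin 2) ℂ} (he : tr e = 1) :
    tr ((1 - p0 e) 0) = 1 ∧ tr ((1 - p0 e) 1) = 1 ∧ tr ((1 - p0 e) 2) = 1 ∧
      tr ((1 - p0 e) 3) = 0 := by
  obtain ⟨h0, h1, h2, h3⟩ := tr_p0 he
  have hs : ∀ b, tr ((1 - p0 e) b) = DD 0 b - tr (p0 e b) := by
    intro b
    show tr ((1 : MA (Fin (DD 0 b)) ℂ) - p0 e b) = _
    rw [map_sub, tr_one']
  refine ⟨?_, ?_, ?_, ?_⟩
  · rw [hs, h0]; simp [DD]; norm_num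
  · rw [hs, h1]; simp [DD, ab]
  · rw [hs, h2]; simp [DD, ab]
  · rw [hs, h3]; simp [DD, ab]

lemma trace_id1 {e : MA (Fin 2) ℂ} (he : tr e = 1) (b : Fin 4) :
    ∑ k, (SS 0 b k : ℂ) * tr (p0 e k) = ∑ k, (TT 0 b k : ℂ) * tr ((1 - p0 e) k) := by
  obtain ⟨h0, h1, h2, h3⟩ := tr_p0 he
  obtain ⟨k0, k1, k2, k3⟩ := tr_q0 he
  rw [Fin.sum_univ_four, Fin.sum_univ_four, h0, h1, h2, h3, k0, k1, k2, k3]
  fin_cases b <;> simp [SS, TT, hh] <;> norm_num

lemma trace_id2 {e : MA (Fin 2) ℂ} (he : tr e = 1) (b : Fin 4) :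
    ∑ k, (SS 0 b k : ℂ) * tr ((1 - p0 e) k) = ∑ k, (TT 0 b k : ℂ) * tr (p0 e k) := by
  obtain ⟨h0, h1, h2, h3⟩ := tr_p0 he
  obtain ⟨k0, k1, k2, k3⟩ := tr_q0 he
  rw [Fin.sum_univ_four, Fin.sum_univ_four, h0, h1, h2, h3, k0, k1, k2, k3]
  fin_cases b <;> simp [SS, TT, hh] <;> norm_num

end main

end Pool.Agent.TH249
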