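import Mathlib
import Pool.Agent.TH249.Main

/-!
Conclusion of the argument.
-/

set_option autoImplicit false
set_option linter.unusedSectionVars false

noncomputable section

namespace Pool.Agent.TH249

open Matrix Pool.Agent.H188R3 Filter Topology selfAdjoint

lemma MvN.value {E : Type} [CStarAlgebra E] {f : E →L[ℂ] ℂ} (hf : ∀ x y, f (x * y) = f (y * x))
    {p r : E} (h : MvN p r) : f p = f r := by
  obtain ⟨v, h1, h2⟩ := h
  rw [← h1, ← h2, hf]

section order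

lemma RR (n : ℕ) : (TT (n + 3) * SS (n + 2)) * (TT (n + 1) * SS n) =
    (TT (n + 3) * TT (n + 2)) * (TT (n + 1) * TT n) := by
  have h1 := SS_TT (n + 1)
  have h2 := SS_SS n
  calc (TT (n + 3) * SS (n + 2)) * (TT (n + 1) * SS n)
      = TT (n + 3) * (SS (n + 1 + 1) * TT (n + 1)) * SS n := by
        simp only [Matrix.mul_assoc]
    _ = TT (n + 3) * (TT (n + 1 + 1) * SS (n + 1)) * SS n := by rw [h1]
    _ = (TT (n + 3) * TT (n + 2)) * (SS (n + 1) * SS n) := by simp only [Matrix.mul_assoc]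
    _ = _ := by rw [h2]

variable (D : Data)

/-- the twisted double step -/
def r2 (n : ℕ) : En n →⋆ₐ[ℂ] En (n + 4) :=
  ((D.io (n + 3)).comp (D.c (n + 2))).comp ((D.io (n + 1)).comp (D.c n))

/-- the untwisted steps -/
def i4 (n : ℕ) : En n →⋆ₐ[ℂ] En (n + 4) :=
  ((D.io (n + 3)).comp (D.io (n + 2))).comp ((D.io (n + 1)).comp (D.io n))

/-- the matrix of the four steps -/
def M4 (n : ℕ) : Matrix (Fin 4) (Fin 4) ℕ := (TT (n + 3) * TT (n + 2)) * (TT (n + 1) * TT n)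

lemma good_r2 (n : ℕ) : Good (M4 n) (r2 D n) := by
  rw [M4, ← RR]
  exact ((D.hio (n + 3)).comp (D.hc (n + 2))).comp ((D.hio (n + 1)).comp (D.hc n))

lemma good_i4 (n : ℕ) : Good (M4 n) (i4 D n) :=
  ((D.hio (n + 3)).comp (D.hio (n + 2))).comp ((D.hio (n + 1)).comp (D.hio n))

variable {D} {E : Type} [CStarAlgebra E] {j : ∀ n, En n →⋆ₐ[ℂ] E} (h : IsLim D.io j)
  {q : E →⋆ₐ[ℂ] MA (Fin 2) ℂ} (hq : ∀ n x, q (j n x) = xb n x)
  {θ : E ≃⋆ₐ[ℂ] E} (hθ : ∀ n, Even n → ∀ x, θ (j n x) = j (n + 1) (D.c n x))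
  (hqθ : ∀ x, q (θ x) = q x)

include h in
lemma j_i4 (n : ℕ) (x : En n) : j (n + 4) (i4 D n x) = j n x := by
  show j (n + 3 + 1) (D.io (n + 3) (D.io (n + 2) (D.io (n + 1) (D.io n x)))) = _
  rw [h.comp, h.comp (n + 2), h.comp (n + 1), h.comp n]

include h hθ in
lemma theta_sq (n : ℕ) (hn : Even n) (x : En n) : θ (θ (j n x)) = j (n + 4) (r2 D n x) := by
  have h1 : θ (j n x) = j (n + 2) (D.io (n + 1) (D.c n x)) := by rw [hθ n hn, h.comp]
  have hn2 : Even (n + 2) := by rw [Nat.even_add]; simp [hn]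
  rw [h1, hθ (n + 2) hn2]
  show _ = j (n + 3 + 1) (D.io (n + 3) (D.c (n + 2) (D.io (n + 1) (D.c n x))))
  rw [h.comp (n + 3)]

/-- the fourth power of the automorphism -/
def Ph4 (hqθ : ∀ x, q (θ x) = q x) : TA q →⋆ₐ[ℂ] TA q :=
  ((Phi θ hqθ : TA q →⋆ₐ[ℂ] TA q).comp (Phi θ hqθ : TA q →⋆ₐ[ℂ] TA q)).comp
    ((Phi θ hqθ : TA q →⋆ₐ[ℂ] TA q).comp (Phi θ hqθ : TA q →⋆ₐ[ℂ] TA q))

lemma pr0_Ph4 (a : TA q) : pr q 0 (Ph4 hqθ a) = θ (θ (θ (θ (pr q 0 a)))) := rfl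
lemma pr1_Ph4 (a : TA q) : pr q 1 (Ph4 hqθ a) = θ (θ (pr q 1 a)) := rfl
lemma pr2_Ph4 (a : TA q) : pr q 2 (Ph4 hqθ a) = θ (θ (pr q 2 a)) := rfl

/-- stage map for the fourth power -/
def gst (D : Data) (n : ℕ) : TA (xb n) →⋆ₐ[ℂ] TA (xb (n + 4 + 4)) :=
  mapf ![(r2 D (n + 4)).comp (r2 D n), (i4 D (n + 4)).comp (r2 D n),
    (i4 D (n + 4)).comp (r2 D n)] (fun i x => by
      fin_cases i
      · exact ((good_r2 D (n + 4)).comp (good_r2 D n)).x0 x
      · exact ((good_i4 D (n + 4)).comp (good_r2 D n)).x0 x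
      · exact ((good_i4 D (n + 4)).comp (good_r2 D n)).x0 x)

/-- stage map for the identity -/
def lst (D : Data) (n : ℕ) : TA (xb n) →⋆ₐ[ℂ] TA (xb (n + 4 + 4)) :=
  mapf (fun _ => (i4 D (n + 4)).comp (i4 D n)) (fun _ x =>
    ((good_i4 D (n + 4)).comp (good_i4 D n)).x0 x)

include h hq hθ in
theorem eqv_Ph4 {I : Type} [Fintype I] [DecidableEq I] (P : Matrix I I (TA q)) (hP : IsPrj P) :
    Eqv P (P.map (Ph4 hqθ)) := by
  refine eqv_map_of_stage (isLimA D h hq) (fun n => btA n) (fun n => detectsA n) (Ph4 hqθ) ?_ P hP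
  intro N
  refine ⟨2 * N, by omega, 2 * N + 4 + 4, gst D (2 * N), lst D (2 * N), fun x => ?_, fun x => ?_,
    fun k x => ?_⟩
  · refine AA_ext q fun i => ?_
    rw [pr_jA, pr_jA]
    show j (2 * N + 4 + 4) (i4 D (2 * N + 4) (i4 D (2 * N) (pr (xb (2 * N)) i x))) = _
    rw [j_i4 h, j_i4 h]
  · have he : Even (2 * N) := even_two_mul N
    have he4 : Even (2 * N + 4) := ⟨N + 2, by omega⟩
    refine AA_ext3 ?_ ?_ ?_
    · rw [pr0_Ph4, pr_jA, pr_jA, theta_sq h hθ (2 * N) he, theta_sq h hθ (2 * N + 4) he4]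
      rfl
    · rw [pr1_Ph4, pr_jA, pr_jA, theta_sq h hθ (2 * N) he, ← j_i4 h (2 * N + 4)]
      rfl
    · rw [pr2_Ph4, pr_jA, pr_jA, theta_sq h hθ (2 * N) he, ← j_i4 h (2 * N + 4)]
      rfl
  · obtain ⟨i, b⟩ := k
    rw [btA_apply, btA_apply]
    have g1 := ((good_i4 D (2 * N + 4)).comp (good_i4 D (2 * N))).trc b (pr (xb (2 * N)) i x)
    have key : tr (pr (xb (2 * N + 4 + 4)) i (gst D (2 * N) x) b) =
        ∑ k, ((M4 (2 * N + 4) * M4 (2 * N)) b k : ℂ) * tr (pr (xb (2 * N)) i x k) := by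
      fin_cases i
      · exact ((good_r2 D (2 * N + 4)).comp (good_r2 D (2 * N))).trc b _
      · exact ((good_i4 D (2 * N + 4)).comp (good_r2 D (2 * N))).trc b _
      · exact ((good_i4 D (2 * N + 4)).comp (good_r2 D (2 * N))).trc b _
    exact key.trans g1.symm

include h hq hθ in
theorem al_four (x : K0 (TA q)) :
    K0.congr (Phi θ hqθ) (K0.congr (Phi θ hqθ) (K0.congr (Phi θ hqθ) (K0.congr (Phi θ hqθ) x))) =
      x := by
  obtain ⟨P, Q, rfl⟩ := K0.exists_sub x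
  have key : ∀ P : Prj (TA q), K0.congr (Phi θ hqθ) (K0.congr (Phi θ hqθ)
      (K0.congr (Phi θ hqθ) (K0.congr (Phi θ hqθ) (K0.cls P)))) = K0.cls P := by
    intro P
    simp only [K0.congr_apply, K0.map_cls]
    unfold K0.cls
    congr 1
    rw [V.mk_eq]
    exact (eqv_Ph4 h hq hθ hqθ P.mat P.isPrj).symm
  simp only [map_sub, key]

end order

section fin

variable {D : Data} {E : Type} [CStarAlgebra E] {j : ∀ n, En n →⋆ₐ[ℂ] E} (h : IsLim D.io j)
  {q : E →⋆ₐ[ℂ] MA (Fin 2) ℂ} (hq : ∀ n x, q (j n x) = xb n x)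

lemma zero_of_small {B C : Type} [CStarAlgebra B] [CStarAlgebra C] (ψ : B →⋆ₐ[ℂ] C) (a : B)
    (hy : ∀ ε : ℝ, 0 < ε → ∃ y, ‖a - y‖ < ε ∧ ψ y = 0) : ψ a = 0 := by
  rw [← norm_eq_zero]
  refine le_antisymm (le_of_forall_pos_le_add fun ε hε => ?_) (norm_nonneg _)
  obtain ⟨y, h1, h2⟩ := hy ε hε
  calc ‖ψ a‖ = ‖ψ (a - y)‖ := by rw [map_sub, h2, sub_zero]
    _ ≤ ‖a - y‖ := norm_map_le' _ _
    _ ≤ 0 + ε := by linarith

lemma span_zero {B C : Type} [CStarAlgebra B] [CStarAlgebra C] (ψ : B →⋆ₐ[ℂ] C) {S : Set B}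
    (hS : ∀ P ∈ S, ψ P = 0) {y : B} (hy : y ∈ Submodule.span ℂ S) : ψ y = 0 := by
  induction hy using Submodule.span_induction with
  | mem x hx => exact hS x hx
  | zero => exact map_zero ψ
  | add x y _ _ hx hy => rw [map_add, hx, hy, add_zero]
  | smul c x _ hx => rw [map_smul, hx, smul_zero]

lemma mem_span_ker' {A B C : Type} [CStarAlgebra A] [CStarAlgebra B] [CStarAlgebra C]
    (π : A →⋆ₐ[ℂ] C) (k : B →⋆ₐ[ℂ] A) [FiniteDimensional ℂ B] (x : B) (h0 : π (k x) = 0) :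
    k x ∈ Submodule.span ℂ {P : A | IsStarProjection P ∧ π P = 0} := by
  have hfd : FiniteDimensional ℂ k.range := range_fd k
  exact mem_span_ker π k.range (k x) ⟨x, rfl⟩ h0

lemma mem_span_all' {A B : Type} [CStarAlgebra A] [CStarAlgebra B]
    (k : B →⋆ₐ[ℂ] A) [FiniteDimensional ℂ B] (x : B) :
    k x ∈ Submodule.span ℂ {P : A | IsStarProjection P} := by
  have hfd : FiniteDimensional ℂ k.range := range_fd k
  exact mem_span_all k.range (k x) ⟨x, rfl⟩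

include h hq in
lemma ker_closure (i : Fin 3) (ψ : TA q →⋆ₐ[ℂ] E)
    (hψ : ∀ P, IsStarProjection P → pr q i P = 0 → ψ P = 0) (a : TA q) (ha : pr q i a = 0) :
    ψ a = 0 := by
  refine zero_of_small ψ a fun ε hε => ?_
  obtain ⟨n, x, hx1, hx2⟩ := approx_AA D h hq {i} a (fun k hk => by
    rw [Finset.mem_singleton.1 hk]; exact ha) hε
  refine ⟨jA hq n x, norm_AA_lt hε hx2, ?_⟩
  have h0 : pr q i (jA hq n x) = 0 := by
    rw [pr_jA, hx1 i (Finset.mem_singleton_self i), map_zero]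
  exact span_zero ψ (fun P hP => hψ P hP.1 hP.2)
    (mem_span_ker' (pr q i) (jA hq n) x h0)

include h hq in
lemma ker_closure_q {C : Type} [CStarAlgebra C] (ψ : E →⋆ₐ[ℂ] C)
    (hψ : ∀ P, IsStarProjection P → q P = 0 → ψ P = 0) (a : E) (ha : q a = 0) :
    ψ a = 0 := by
  refine zero_of_small ψ a fun ε hε => ?_
  obtain ⟨n, x, hx⟩ := h.dense a (ε / 2) (half_pos hε)
  have hx0 : ‖xb n x‖ < ε / 2 := by
    calc ‖xb n x‖ = ‖q (j n x - a)‖ := by rw [map_sub, ha, sub_zero, hq]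
      _ ≤ ‖j n x - a‖ := norm_map_le' _ _
      _ < ε / 2 := by rw [norm_sub_rev]; exact hx
  set y : En n := x - sec n (xb n x) with hy
  have hy0 : xb n y = 0 := by rw [hy, map_sub, xb_sec, sub_self]
  refine ⟨j n y, ?_, ?_⟩
  · calc ‖a - j n y‖ = ‖(a - j n x) + j n (sec n (xb n x))‖ := by
          rw [hy, map_sub]; congr 1; abel
      _ ≤ ‖a - j n x‖ + ‖j n (sec n (xb n x))‖ := norm_add_le _ _
      _ < ε / 2 + ε / 2 := by
          refine add_lt_add hx ?_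
          exact ((norm_map_le' _ _).trans (norm_sec_le _ _)).trans_lt hx0
      _ = ε := by ring
  · have h0 : q (j n y) = 0 := by rw [hq, hy0]
    exact span_zero ψ (fun P hP => hψ P hP.1 hP.2)
      (mem_span_ker' q (j n) y h0)

include h in
lemma functional_ext {F G : E → ℂ} (hF : Continuous F) (hG : Continuous G)
    (hFa : ∀ x y, F (x + y) = F x + F y) (hGa : ∀ x y, G (x + y) = G x + G y)
    (hFs : ∀ (c : ℂ) x, F (c • x) = c * F x) (hGs : ∀ (c : ℂ) x, G (c • x) = c * G x)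
    (hP : ∀ P, IsStarProjection P → F P = G P) (x : E) : F x = G x := by
  revert x
  refine closed_ind h (isClosed_eq hF hG) fun n x => ?_
  have h1 := mem_span_all' (j n) x
  generalize j n x = y at h1
  induction h1 using Submodule.span_induction with
  | mem x hx => exact hP x hx
  | zero =>
    have h1 := hFs 0 0
    have h2 := hGs 0 0
    rw [zero_smul, zero_mul] at h1 h2
    rw [h1, h2]
  | add x y _ _ hx hy => rw [hFa, hGa, hx, hy]
  | smul c x _ hx => rw [hFs, hGs, hx]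

/-- the functional `tr ∘ q` -/
def gq (q : E →⋆ₐ[ℂ] MA (Fin 2) ℂ) : E →L[ℂ] ℂ :=
  have := finDim_MA (Fin 2)
  (LinearMap.toContinuousLinearMap (tr : MA (Fin 2) ℂ →ₗ[ℂ] ℂ)).comp
    ⟨(q : E →ₐ[ℂ] MA (Fin 2) ℂ).toLinearMap, cont_hom q⟩

lemma gq_apply (x : E) : gq q x = tr (q x) := rfl

variable {θ : E ≃⋆ₐ[ℂ] E} (hθ : ∀ n, Even n → ∀ x, θ (j n x) = j (n + 1) (D.c n x))
  (hqθ : ∀ x, q (θ x) = q x)
  {f : E →L[ℂ] ℂ} (hf : ∀ n x, f (j n x) = lf n x) (hfθ : ∀ x, f (θ x) = -f x)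

include h in
lemma cls_pr {F G : TA q →⋆ₐ[ℂ] TA q} (hFG : ∀ x, K0.map F x = K0.map G x) (i : Fin 3) {P : TA q}
    (hP : IsStarProjection P) : MvN (pr q i (F P)) (pr q i (G P)) := by
  have h1 := congrArg (K0.map (pr q i)) (hFG (K0.cls (Prj.of P hP)))
  rw [K0.map_cls, K0.map_cls, K0.map_cls, K0.map_cls] at h1
  exact cls_to_MvN D h ((hP.map F).map (pr q i)) ((hP.map G).map (pr q i)) h1

include h hq hθ hf hfθ in
theorem no_lift (φ : TA q ≃⋆ₐ[ℂ] TA q)
    (hφ : ∀ x, K0.map (φ : TA q →⋆ₐ[ℂ] TA q) x = K0.map (Phi θ hqθ : TA q →⋆ₐ[ℂ] TA q) x)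
    (h4 : ∀ a, φ (φ (φ (φ a))) = a) : False := by
  set F : TA q →⋆ₐ[ℂ] TA q := (φ : TA q →⋆ₐ[ℂ] TA q) with hF
  set G : TA q →⋆ₐ[ℂ] TA q := (Phi θ hqθ : TA q →⋆ₐ[ℂ] TA q) with hG
  have h4' : ∀ a, F (F (F (F a))) = a := h4
  have hc0 : ∀ P : TA q, IsStarProjection P → MvN (pr q 0 (F P)) (θ (pr q 0 P)) :=
    fun P hP => cls_pr h hφ 0 hP
  have hφ2 : ∀ x, K0.map (F.comp F) x = K0.map (G.comp G) x := by
    intro x
    rw [← K0.map_comp, ← K0.map_comp, hφ, hφ]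
  have hc1 : ∀ P : TA q, IsStarProjection P → MvN (pr q 1 (F (F P))) (θ (pr q 1 P)) :=
    fun P hP => cls_pr h hφ2 1 hP
  obtain ⟨φ0, hφ0⟩ := factor (pr q 0) (dg q) (fun x => rfl) ((pr q 0).comp F)
    (ker_closure h hq 0 _ (fun P hP h0 => by
      have h1 := hc0 P hP
      rw [h0, map_zero] at h1
      exact h1.zero))
  obtain ⟨ψ, hψ⟩ := factor (pr q 1) (dg q) (fun x => rfl) ((pr q 1).comp (F.comp F))
    (ker_closure h hq 1 _ (fun P hP h0 => by
      have h1 := hc1 P hP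
      rw [h0, map_zero] at h1
      exact h1.zero))
  have hφ0' : ∀ a, φ0 (pr q 0 a) = pr q 0 (F a) := hφ0
  have hψ' : ∀ a, ψ (pr q 1 a) = pr q 1 (F (F a)) := hψ
  have hφ0P : ∀ P : E, IsStarProjection P → MvN (φ0 P) (θ P) := by
    intro P hP
    have h1 := hc0 (dg q P) (hP.map (dg q))
    rw [← hφ0'] at h1
    exact h1
  have hψP : ∀ P : E, IsStarProjection P → MvN (ψ P) (θ P) := by
    intro P hP
    have h1 := hc1 (dg q P) (hP.map (dg q))
    rw [← hψ'] at h1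
    exact h1
  have hθs : ∀ x, (θ : E →⋆ₐ[ℂ] E) x = θ x := fun x => rfl
  obtain ⟨η, hη⟩ := factor q (fun m => j 0 (sec 0 m)) (fun m => by rw [hq, xb_sec]) (q.comp φ0)
    (ker_closure_q h hq _ (fun P hP h0 => by
      have h1 := (hφ0P P hP).map q
      rw [hqθ, h0] at h1
      exact h1.zero))
  have hη' : ∀ x, η (q x) = q (φ0 x) := hη
  have hφ04 : ∀ x, φ0 (φ0 (φ0 (φ0 x))) = x := by
    intro x
    have h1 : φ0 x = pr q 0 (F (dg q x)) := hφ0' (dg q x)
    rw [h1, hφ0', hφ0', hφ0', h4']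
    rfl
  have hψ2 : ∀ x, ψ (ψ x) = x := by
    intro x
    have h1 : ψ x = pr q 1 (F (F (dg q x))) := hψ' (dg q x)
    rw [h1, hψ', h4']
    rfl
  have hqψ : ∀ x, q (ψ x) = η (η (q x)) := by
    intro x
    have h1 : ψ x = pr q 1 (F (F (dg q x))) := hψ' (dg q x)
    have h2 : φ0 (φ0 x) = pr q 0 (F (F (dg q x))) := by
      have h3 : φ0 x = pr q 0 (F (dg q x)) := hφ0' (dg q x)
      rw [h3, hφ0']
    rw [h1, q_pr q 1 0, ← h2, ← hη', ← hη']
  have hη4 : ∀ m, η (η (η (η m))) = m := by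
    intro m
    have h1 : m = q (j 0 (sec 0 m)) := by rw [hq, xb_sec]
    rw [h1, hη', hη', hη', hη', hφ04]
  have hcomm := Lam_comm D h hf
  have hfφ : ∀ x, f (φ0 x) = -f x := by
    refine functional_ext h (F := fun x => f (φ0 x)) (G := fun x => -f x)
      (f.continuous.comp (cont_hom φ0)) f.continuous.neg ?_ ?_ ?_ ?_ ?_
    · intro x y; simp only [map_add]
    · intro x y; simp only [map_add]; ring
    · intro c x; simp only [map_smul, smul_eq_mul]
    · intro c x; simp only [map_smul, smul_eq_mul]; ring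
    · intro P hP
      rw [(hφ0P P hP).value hcomm, hfθ]
  have hfψ : ∀ x, f (ψ x) = -f x := by
    refine functional_ext h (F := fun x => f (ψ x)) (G := fun x => -f x)
      (f.continuous.comp (cont_hom ψ)) f.continuous.neg ?_ ?_ ?_ ?_ ?_
    · intro x y; simp only [map_add]
    · intro x y; simp only [map_add]; ring
    · intro c x; simp only [map_smul, smul_eq_mul]
    · intro c x; simp only [map_smul, smul_eq_mul]; ring
    · intro P hP
      rw [(hψP P hP).value hcomm, hfθ]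
  have hgj : ∀ n x, gq q (j n x) = tr (xb n x) := fun n x => by rw [gq_apply, hq]
  have hrep : ∀ U : E, star U * U = 1 → U * star U = 1 → ∃ a b, Rep f (gq q) U a b :=
    fun U h1 h2 => exists_rep D h U h1 h2
  have hone : ∀ b, Rep f (gq q) 1 0 b → ∃ k : ℤ, b = 2 * Real.pi * (2 * k) :=
    fun b hb => rep_one D h hf hgj hb
  obtain ⟨e, w, ρ, he1, he2, hw1, hw2, hηe, hηw, hρ4⟩ := m2MA η hη4
  set p : E := j 0 (p0 e) with hp
  have hpp : IsStarProjection p := (p0_proj he1).map (j 0)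
  have hqp : q p = e := by rw [hp, hq]; rfl
  have h1p : j 0 (1 - p0 e) = 1 - p := by rw [map_sub, map_one]
  have t1 : MvN (θ p) (1 - p) := by
    rw [← h1p]
    exact theta_MvN D h hθ (p0_proj he1) (p0_proj he1).one_sub (trace_id1 he2)
  have t2 : MvN (θ (1 - p)) p := by
    rw [← h1p]
    exact theta_MvN D h hθ (p0_proj he1).one_sub (p0_proj he1) (trace_id2 he2)
  have hθp : ∀ {x : E}, IsStarProjection x → IsStarProjection (θ x) := fun {x} hx =>
    hx.map (θ : E →⋆ₐ[ℂ] E)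
  obtain ⟨v, v1, v2⟩ : MvN (φ0 p) (1 - p) :=
    (hφ0P p hpp).trans (hpp.map φ0) hpp.one_sub t1
  obtain ⟨v', v1', v2'⟩ : MvN (ψ p) (1 - p) :=
    (hψP p hpp).trans (hpp.map ψ) hpp.one_sub t1
  obtain ⟨t, s1, s2⟩ : MvN (φ0 (φ0 p)) p := by
    have a1 := hφ0P (φ0 p) (hpp.map φ0)
    have a2 : MvN (θ (φ0 p)) (θ (θ p)) := (hφ0P p hpp).map (θ : E →⋆ₐ[ℂ] E)
    have a3 : MvN (θ (θ p)) (θ (1 - p)) := t1.map (θ : E →⋆ₐ[ℂ] E)
    have hpp2 : IsStarProjection (φ0 (φ0 p)) := (hpp.map φ0).map φ0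
    exact ((a1.trans hpp2 (hθp (hθp hpp)) a2).trans hpp2 (hθp hpp.one_sub) a3).trans hpp2 hpp t2
  have hcases : ρ ^ 2 = 1 ∨ ρ ^ 2 = -1 := by
    have h1 : (ρ ^ 2 - 1) * (ρ ^ 2 + 1) = 0 := by linear_combination hρ4
    rcases mul_eq_zero.1 h1 with h2 | h2
    · left; linear_combination h2
    · right; linear_combination h2
  rcases hcases with hρ | hρ
  · -- first obstruction, for `ψ`
    have hqv : q (ψ v') = q v' := by
      have b1 : star (q v') * q v' = e := by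
        rw [← map_star, ← map_mul, v1', hqψ, hqp, hηe, hηe]
      have b2 : q v' * star (q v') = 1 - e := by
        rw [← map_star, ← map_mul, v2', map_sub, map_one, hqp]
      obtain ⟨κ, hκ⟩ := exists_kappa he1 he2 hw1 hw2 b1 b2
      rw [hqψ, hκ, map_smul, map_smul, hηw, map_smul, hηw, smul_smul, smul_smul]
      congr 1
      linear_combination κ * hρ
    refine claim1 (q := q) hrep hone (fun x => gq_apply x) ψ hψ2 ?_ hfψ hpp ?_ hqv v1' v2'
    · intro x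
      rw [gq_apply, gq_apply, hqψ, tr_hom, tr_hom]
    · rw [hqψ, hqp, hηe, hηe]
  · -- second obstruction, for `φ0`
    exact claim2 (q := q) hrep hone (fun x => gq_apply x) φ0 hφ04 η (tr_hom η)
      (fun x => (hη' x).symm) hfφ hpp (by rw [hqp]; exact he2) (by rw [hqp]; exact hηe)
      (by rw [hqp]; exact hw1) (by rw [hqp]; exact hw2) hηw hρ v1 v2 s1 s2

include h hθ hf hfθ in
theorem al_two_ne : ¬ ∀ x : K0 (TA q),
    K0.congr (Phi θ hqθ) (K0.congr (Phi θ hqθ) x) = x := by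
  intro hall
  have he1 : IsStarProjection (MA.unit 0 0 : MA (Fin 2) ℂ) := by
    refine ⟨?_, ?_⟩
    · show MA.unit 0 0 * MA.unit 0 0 = _
      rw [MA.unit_mul, if_pos rfl]
    · show star (MA.unit 0 0) = _
      rw [MA.star_unit]
  have he2 : tr (MA.unit 0 0 : MA (Fin 2) ℂ) = 1 := by
    rw [tr_two, MA.en_unit, MA.en_unit]; simp
  set e : MA (Fin 2) ℂ := MA.unit 0 0
  set p : E := j 0 (p0 e) with hp
  have hpp : IsStarProjection p := (p0_proj he1).map (j 0)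
  have h1 := congrArg (K0.map (pr q 1)) (hall (K0.cls (Prj.of (dg q p) (hpp.map (dg q)))))
  simp only [K0.congr_apply, K0.map_cls] at h1
  have h2 : MvN (θ p) p := cls_to_MvN D h (hpp.map (θ : E →⋆ₐ[ℂ] E)) hpp h1
  have h3 := h2.value (Lam_comm D h hf)
  rw [hfθ] at h3
  have h4 : f p = 0 := by linear_combination (-1 / 2 : ℂ) * h3
  rw [hp, hf, lf_apply] at h4
  obtain ⟨k0, k1, k2, k3⟩ := tr_p0 he2
  rw [Fin.sum_univ_four, k0, k1, k2, k3] at h4
  simp [lam, LL] at h4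
  norm_num at h4

end fin

end Pool.Agent.TH249
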